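import Pool.Agent.PUG.STR

set_option autoImplicit false

namespace Pool.Agent.PUG

namespace Tri

section step

variable {V T X' Y' Q : Type} {r : ℕ} (A : Amal V T X' Y' Q)

/-- The part of a vertex shared by two different copies. -/
theorem shared {q q' : Q} (hq : q ≠ q') {u u' : V} (h : A.map q u = A.map q' u') :
    A.π u = A.s ∨ A.π u = A.t := by
  rcases A.map_eq h hq with ⟨h1, -, -⟩ | ⟨h1, -, -⟩
  · exact Or.inl h1
  · exact Or.inr h1

/-- Two copies share at most one vertex of a given part. -/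
theorem share_one
    (P : PLStar (fun (x : {v : V // A.π v = A.s}) (y : {v : V // A.π v = A.t}) => A.G.Adj x.1 y.1)
      r X' Y' Q A.I' A.φ A.ψ) {q q' : Q} (hq : q ≠ q') {u₁ u₂ u₁' u₂' : V}
    (h1 : A.map q u₁ = A.map q' u₁') (h2 : A.map q u₂ = A.map q' u₂') (hp : A.π u₁ = A.π u₂) :
    u₁ = u₂ := by
  rcases A.map_eq h1 hq with ⟨a1, a2, a3⟩ | ⟨a1, a2, a3⟩
  · rcases A.map_eq h2 hq with ⟨b1, b2, b3⟩ | ⟨b1, b2, b3⟩
    · exact congrArg Subtype.val (P.intX q q' _ _ _ _ hq a3 b3)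
    · exact absurd (a1.symm.trans (hp.trans b1)) A.hst
  · rcases A.map_eq h2 hq with ⟨b1, b2, b3⟩ | ⟨b1, b2, b3⟩
    · exact absurd (b1.symm.trans (hp.symm.trans a1)) A.hst
    · exact congrArg Subtype.val (P.intY q q' _ _ _ _ hq a3 b3)

/-- A vertex outside of a copy and not in the interior of another one. -/
theorem out_nbr {q : Q} {a : A.Vert} (ha : ¬ ∃ u, A.map q u = a) {u : V}
    (h : A.graph.Adj a (A.map q u)) : A.π u = A.s ∨ A.π u = A.t := by
  by_contra hne
  push Not at hne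
  rw [A.map_o q u hne.1 hne.2] at h
  obtain ⟨w, -, hw⟩ := A.adj_inr h.symm
  exact ha ⟨w, hw⟩

/-- An outside vertex has at most one neighbour of a given part in a copy. -/
theorem out_one
    (P : PLStar (fun (x : {v : V // A.π v = A.s}) (y : {v : V // A.π v = A.t}) => A.G.Adj x.1 y.1)
      r X' Y' Q A.I' A.φ A.ψ) {q : Q} {a : A.Vert} (ha : ¬ ∃ u, A.map q u = a) {u₁ u₂ : V}
    (h1 : A.graph.Adj a (A.map q u₁)) (h2 : A.graph.Adj a (A.map q u₂)) (hp : A.π u₁ = A.π u₂) :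
    u₁ = u₂ := by
  rcases A.cases a with ⟨x', rfl⟩ | ⟨y', rfl⟩ | ⟨q', w, rfl⟩
  · have t1 : A.π u₁ = A.t := by
      rcases out_nbr A ha h1 with h | h
      · exfalso
        rw [A.map_s q u₁ h] at h1
        exact A.proj_ne h1 rfl
      · exact h
    have t2 : A.π u₂ = A.t := hp ▸ t1
    rw [A.map_t q u₁ t1, A.adj_xy] at h1
    rw [A.map_t q u₂ t2, A.adj_xy] at h2
    refine congrArg Subtype.val (P.outX q x' _ _ ?_ h1 h2)
    intro x hx
    exact ha ⟨x.1, by rw [A.map_s q x.1 x.2]; exact congrArg A.vx hx⟩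
  · have t1 : A.π u₁ = A.s := by
      rcases out_nbr A ha h1 with h | h
      · exact h
      · exfalso
        rw [A.map_t q u₁ h] at h1
        exact A.proj_ne h1 rfl
    have t2 : A.π u₂ = A.s := hp ▸ t1
    rw [A.map_s q u₁ t1, SimpleGraph.adj_comm, A.adj_xy] at h1
    rw [A.map_s q u₂ t2, SimpleGraph.adj_comm, A.adj_xy] at h2
    refine congrArg Subtype.val (P.outY q y' _ _ ?_ h1 h2)
    intro x hx
    exact ha ⟨x.1, by rw [A.map_t q x.1 x.2]; exact congrArg A.vy hx⟩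
  · have hqq : q ≠ q' := by
      rintro rfl
      exact ha ⟨w.1, A.map_self q w⟩
    obtain ⟨v1, -, e1⟩ := A.adj_inr h1
    obtain ⟨v2, -, e2⟩ := A.adj_inr h2
    exact share_one A P hqq e1.symm e2.symm hp

theorem c4_pair
    (c4 : ∀ s t : T, s ≠ t → C4Free (fun (x : {v : V // A.π v = s}) (y : {v : V // A.π v = t}) =>
      A.G.Adj x.1 y.1))
    {q : Q} {x₁ x₂ y₁ y₂ : A.Vert} (hx : x₁ ≠ x₂) (hy : y₁ ≠ y₂)
    (h11 : A.graph.Adj x₁ y₁) (h12 : A.graph.Adj x₁ y₂) (h21 : A.graph.Adj x₂ y₁)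
    (h22 : A.graph.Adj x₂ y₂) (px : A.proj x₁ = A.proj x₂) (py : A.proj y₁ = A.proj y₂)
    (e1 : ∃ u, A.map q u = x₁) (e2 : ∃ u, A.map q u = x₂) (e3 : ∃ u, A.map q u = y₁)
    (e4 : ∃ u, A.map q u = y₂) : False := by
  obtain ⟨u1, rfl⟩ := e1
  obtain ⟨u2, rfl⟩ := e2
  obtain ⟨v1, rfl⟩ := e3
  obtain ⟨v2, rfl⟩ := e4
  have hne := A.proj_ne h11
  rw [A.adj_map] at h11 h12 h21 h22
  rw [A.proj_map, A.proj_map] at px py hne
  exact c4 (A.π u1) (A.π v1) hne ⟨u1, rfl⟩ ⟨u2, px.symm⟩ ⟨v1, rfl⟩ ⟨v2, py.symm⟩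
    (fun h => hx (congrArg (A.map q) (congrArg Subtype.val h)))
    (fun h => hy (congrArg (A.map q) (congrArg Subtype.val h))) h11 h12 h21 h22

/-- a four cycle with an inner vertex -/
theorem c4_inner
    (c4 : ∀ s t : T, s ≠ t → C4Free (fun (x : {v : V // A.π v = s}) (y : {v : V // A.π v = t}) =>
      A.G.Adj x.1 y.1))
    (P : PLStar (fun (x : {v : V // A.π v = A.s}) (y : {v : V // A.π v = A.t}) => A.G.Adj x.1 y.1)
      r X' Y' Q A.I' A.φ A.ψ)
    {q : Q} {w : {v : V // A.π v ≠ A.s ∧ A.π v ≠ A.t}} {x₂ y₁ y₂ : A.Vert}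
    (hx : (Sum.inr (q, w) : A.Vert) ≠ x₂) (hy : y₁ ≠ y₂)
    (h11 : A.graph.Adj (Sum.inr (q, w)) y₁) (h12 : A.graph.Adj (Sum.inr (q, w)) y₂)
    (h21 : A.graph.Adj x₂ y₁) (h22 : A.graph.Adj x₂ y₂)
    (px : A.proj (Sum.inr (q, w)) = A.proj x₂) (py : A.proj y₁ = A.proj y₂) : False := by
  obtain ⟨v1, -, e1⟩ := A.adj_inr h11
  obtain ⟨v2, -, e2⟩ := A.adj_inr h12
  by_cases hin : ∃ u, A.map q u = x₂
  · exact c4_pair A c4 hx hy h11 h12 h21 h22 px py ⟨w.1, A.map_self q w⟩ hin ⟨v1, e1⟩ ⟨v2, e2⟩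
  · rw [← e1] at h21
    rw [← e2] at h22
    rw [← e1, ← e2, A.proj_map, A.proj_map] at py
    have := out_one A P hin h21 h22 py
    exact hy (by rw [← e1, ← e2, this])

theorem c4_amal
    (c4 : ∀ s t : T, s ≠ t → C4Free (fun (x : {v : V // A.π v = s}) (y : {v : V // A.π v = t}) =>
      A.G.Adj x.1 y.1))
    (P : PLStar (fun (x : {v : V // A.π v = A.s}) (y : {v : V // A.π v = A.t}) => A.G.Adj x.1 y.1)
      r X' Y' Q A.I' A.φ A.ψ) (s t : T) (_ : s ≠ t) :
    C4Free (fun (x : {v : A.Vert // A.proj v = s}) (y : {v : A.Vert // A.proj v = t}) =>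
      A.graph.Adj x.1 y.1) := by
  rintro ⟨x₁, hx1⟩ ⟨x₂, hx2⟩ ⟨y₁, hy1⟩ ⟨y₂, hy2⟩ hx hy h11 h12 h21 h22
  have hx : x₁ ≠ x₂ := fun h => hx (Subtype.ext h)
  have hy : y₁ ≠ y₂ := fun h => hy (Subtype.ext h)
  have px : A.proj x₁ = A.proj x₂ := by rw [hx1, hx2]
  have py : A.proj y₁ = A.proj y₂ := by rw [hy1, hy2]
  change A.graph.Adj x₁ y₁ at h11
  change A.graph.Adj x₁ y₂ at h12
  change A.graph.Adj x₂ y₁ at h21
  change A.graph.Adj x₂ y₂ at h22
  rcases A.cases x₁ with ⟨a1, rfl⟩ | ⟨b1, rfl⟩ | ⟨q, w, rfl⟩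
  · rcases A.cases y₁ with ⟨c1, rfl⟩ | ⟨d1, rfl⟩ | ⟨q, w, rfl⟩
    · exact A.proj_ne h11 rfl
    · rcases A.cases x₂ with ⟨a2, rfl⟩ | ⟨b2, rfl⟩ | ⟨q, w, rfl⟩
      · rcases A.cases y₂ with ⟨c2, rfl⟩ | ⟨d2, rfl⟩ | ⟨q, w, rfl⟩
        · exact A.proj_ne h12 rfl
        · rw [A.adj_xy] at h11 h12 h21 h22
          exact P.c4 a1 a2 d1 d2 (fun h => hx (by rw [h])) (fun h => hy (by rw [h])) h11 h12 h21 h22
        · exact c4_inner A c4 P hy.symm hx h12.symm h22.symm h11.symm h21.symm py.symm px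
      · exact A.proj_ne h21 rfl
      · exact c4_inner A c4 P hx.symm hy h21 h22 h11 h12 px.symm py
    · exact c4_inner A c4 P hy hx h11.symm h21.symm h12.symm h22.symm py px
  · rcases A.cases y₁ with ⟨c1, rfl⟩ | ⟨d1, rfl⟩ | ⟨q, w, rfl⟩
    · rcases A.cases x₂ with ⟨a2, rfl⟩ | ⟨b2, rfl⟩ | ⟨q, w, rfl⟩
      · exact A.proj_ne h21 rfl
      · rcases A.cases y₂ with ⟨c2, rfl⟩ | ⟨d2, rfl⟩ | ⟨q, w, rfl⟩
        · rw [SimpleGraph.adj_comm, A.adj_xy] at h11 h12 h21 h22
          exact P.c4 c1 c2 b1 b2 (fun h => hy (by rw [h])) (fun h => hx (by rw [h])) h11 h21 h12 h22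
        · exact A.proj_ne h12 rfl
        · exact c4_inner A c4 P hy.symm hx h12.symm h22.symm h11.symm h21.symm py.symm px
      · exact c4_inner A c4 P hx.symm hy h21 h22 h11 h12 px.symm py
    · exact A.proj_ne h11 rfl
    · exact c4_inner A c4 P hy hx h11.symm h21.symm h12.symm h22.symm py px
  · exact c4_inner A c4 P hx hy h11 h12 h21 h22 px py

/-- among three vertices with parts in `{s, t}` two have the same part -/
theorem pigeon {T : Type} {s t : T} (p : Fin 3 → T) (h : ∀ i, p i = s ∨ p i = t) :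
    ∃ i j, i ≠ j ∧ p i = p j := by
  rcases h 0 with h0 | h0 <;> rcases h 1 with h1 | h1
  · exact ⟨0, 1, by decide, by rw [h0, h1]⟩
  · rcases h 2 with h2 | h2
    · exact ⟨0, 2, by decide, by rw [h0, h2]⟩
    · exact ⟨1, 2, by decide, by rw [h1, h2]⟩
  · rcases h 2 with h2 | h2
    · exact ⟨1, 2, by decide, by rw [h1, h2]⟩
    · exact ⟨0, 2, by decide, by rw [h0, h2]⟩
  · exact ⟨0, 1, by decide, by rw [h0, h1]⟩

theorem k33_inner (k33 : K33Free A.G)
    (P : PLStar (fun (x : {v : V // A.π v = A.s}) (y : {v : V // A.π v = A.t}) => A.G.Adj x.1 y.1)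
      r X' Y' Q A.I' A.φ A.ψ) {a a' : Fin 3 → A.Vert} (ha : Function.Injective a)
    (ha' : Function.Injective a') (h : ∀ i j, A.graph.Adj (a i) (a' j)) {q : Q}
    {w : {v : V // A.π v ≠ A.s ∧ A.π v ≠ A.t}} (i₀ : Fin 3) (hi₀ : a i₀ = Sum.inr (q, w)) :
    False := by
  have hy : ∀ j, ∃ u, A.map q u = a' j := by
    intro j
    have := h i₀ j
    rw [hi₀] at this
    obtain ⟨u, -, hu⟩ := A.adj_inr this
    exact ⟨u, hu⟩
  have hx : ∀ i, ∃ u, A.map q u = a i := by
    intro i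
    by_contra hne
    choose v hv using hy
    have hadj : ∀ j, A.graph.Adj (a i) (A.map q (v j)) := by
      intro j
      rw [hv j]
      exact h i j
    obtain ⟨j₁, j₂, hj, hp⟩ := pigeon (fun j => A.π (v j)) (fun j => out_nbr A hne (hadj j))
    have := out_one A P hne (hadj j₁) (hadj j₂) hp
    apply hj
    apply ha'
    rw [← hv j₁, ← hv j₂, this]
  choose u hu using hx
  choose v hv using hy
  refine k33 u v ?_ ?_ ?_
  · intro i j hij
    apply ha
    rw [← hu i, ← hu j, hij]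
  · intro i j hij
    apply ha'
    rw [← hv i, ← hv j, hij]
  · intro i j
    rw [← A.adj_map q, hu, hv]
    exact h i j

theorem k33_amal (k33 : K33Free A.G)
    (P : PLStar (fun (x : {v : V // A.π v = A.s}) (y : {v : V // A.π v = A.t}) => A.G.Adj x.1 y.1)
      r X' Y' Q A.I' A.φ A.ψ) : K33Free A.graph := by
  intro a a' ha ha' h
  by_cases h1 : ∃ i q w, a i = Sum.inr (q, w)
  · obtain ⟨i, q, w, hi⟩ := h1
    exact k33_inner A k33 P ha ha' h i hi
  by_cases h2 : ∃ i q w, a' i = Sum.inr (q, w)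
  · obtain ⟨i, q, w, hi⟩ := h2
    exact k33_inner A k33 P ha' ha (fun i j => (h j i).symm) i hi
  push Not at h1 h2
  have c1 : ∀ i, (∃ x', a i = A.vx x') ∨ (∃ y', a i = A.vy y') := by
    intro i
    rcases A.cases (a i) with h | h | ⟨q, w, h⟩
    · exact Or.inl h
    · exact Or.inr h
    · exact absurd h (h1 i q w)
  have c2 : ∀ i, (∃ x', a' i = A.vx x') ∨ (∃ y', a' i = A.vy y') := by
    intro i
    rcases A.cases (a' i) with h | h | ⟨q, w, h⟩
    · exact Or.inl h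
    · exact Or.inr h
    · exact absurd h (h2 i q w)
  have main : ∀ b b' : Fin 3 → A.Vert, Function.Injective b → Function.Injective b' →
      (∀ i j, A.graph.Adj (b i) (b' j)) → (∀ i, (∃ x', b i = A.vx x') ∨ (∃ y', b i = A.vy y')) →
      (∀ i, (∃ x', b' i = A.vx x') ∨ (∃ y', b' i = A.vy y')) → (∃ x', b 0 = A.vx x') → False := by
    intro b b' hb hb' hadj c c' h0
    have k1 : ∀ j, ∃ y', b' j = A.vy y' := by
      intro j
      rcases c' j with ⟨x', hx⟩ | h
      · exfalso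
        obtain ⟨x0, hx0⟩ := h0
        have := hadj 0 j
        rw [hx0, hx] at this
        exact A.proj_ne this rfl
      · exact h
    have k2 : ∀ j, ∃ y', b j = A.vx y' := by
      intro j
      rcases c j with h | ⟨y', hy⟩
      · exact h
      · exfalso
        obtain ⟨y0, hy0⟩ := k1 0
        have := hadj j 0
        rw [hy0, hy] at this
        exact A.proj_ne this rfl
    choose y hy using k1
    choose x hx using k2
    have hI : ∀ i j, A.I' (x i) (y j) := by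
      intro i j
      rw [← A.adj_xy, ← hx, ← hy]
      exact hadj i j
    refine P.c4 (x 0) (x 1) (y 0) (y 1) ?_ ?_ (hI 0 0) (hI 0 1) (hI 1 0) (hI 1 1)
    · intro he
      have : b 0 = b 1 := by rw [hx, hx, he]
      exact absurd (hb this) (by decide)
    · intro he
      have : b' 0 = b' 1 := by rw [hy, hy, he]
      exact absurd (hb' this) (by decide)
  rcases c1 0 with h0 | ⟨y0, h0⟩
  · exact main a a' ha ha' h c1 c2 h0
  · rcases c2 0 with h0' | ⟨y1, h0'⟩
    · exact main a' a ha' ha (fun i j => (h j i).symm) c2 c1 h0'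
    · have := h 0 0
      rw [h0, h0'] at this
      exact A.proj_ne this rfl

end step

section construction

variable {f : ℕ}

/-- start of the construction -/
abbrev V0 (f R : ℕ) : Type := (Fin f ↪ Fin R) × Fin f

/-- parts of the start -/
def pi0 {R : ℕ} (u : V0 f R) : Fin R := u.1 u.2

/-- graph of the start -/
def G0 (F : SimpleGraph (Fin f)) (R : ℕ) : SimpleGraph (V0 f R) where
  Adj u v := u.1 = v.1 ∧ F.Adj u.2 v.2
  symm := ⟨by
    rintro u v ⟨h, h'⟩
    exact ⟨h.symm, h'.symm⟩⟩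
  loopless := ⟨fun u h => F.irrefl h.2⟩

/-- invariants of the construction -/
structure Inv {R : ℕ} {V : Type} (π : V → Fin R) (G : SimpleGraph V) : Prop where
  ne : ∀ u v, G.Adj u v → π u ≠ π v
  c4 : ∀ s t : Fin R, s ≠ t → C4Free (fun (x : {v : V // π v = s}) (y : {v : V // π v = t}) =>
    G.Adj x.1 y.1)
  k33 : K33Free G

/-- Ramsey property of the construction -/
def Ram (F : SimpleGraph (Fin f)) (r : ℕ) {R : ℕ} {V : Type} (π : V → Fin R) (G : SimpleGraph V)
    (D : Finset (Fin R × Fin R)) : Prop :=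
  ∀ c : V → V → Fin r, ∃ Φ : V0 f R → V, Function.Injective Φ ∧ (∀ u, π (Φ u) = pi0 u) ∧
    (∀ u v, (G0 F R).Adj u v → G.Adj (Φ u) (Φ v)) ∧
    ∀ ab ∈ D, ∃ k, ∀ u v, (G0 F R).Adj u v → pi0 u = ab.1 → pi0 v = ab.2 → c (Φ u) (Φ v) = k

theorem inv0 (F : SimpleGraph (Fin f)) (hF : K33Free F) (R : ℕ) : Inv (pi0 (f := f)) (G0 F R) where
  ne := by
    rintro ⟨α, u⟩ ⟨β, v⟩ ⟨h, h'⟩ he
    change α = β at h
    subst h
    change F.Adj u v at h'
    exact h'.ne (α.injective he)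
  c4 := by
    rintro s t - ⟨⟨α, x₁⟩, hx1⟩ ⟨⟨β, x₂⟩, hx2⟩ ⟨⟨γ, y₁⟩, hy1⟩ ⟨⟨δ, y₂⟩, hy2⟩ hx hy h11 h12 h21 h22
    have e1 : α = γ := h11.1
    have e2 : β = γ := h21.1
    subst e1
    subst e2
    apply hx
    have : β x₁ = β x₂ := by
      have a : β x₁ = s := hx1
      have b : β x₂ = s := hx2
      rw [a, b]
    have := β.injective this
    subst this
    rfl
  k33 := by
    intro a a' ha ha' h
    have e : ∀ j, (a' j).1 = (a 0).1 := fun j => ((h 0 j).1).symm
    have e' : ∀ i, (a i).1 = (a 0).1 := fun i => ((h i 0).1).trans (e 0)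
    refine hF (fun i => (a i).2) (fun i => (a' i).2) ?_ ?_ (fun i j => (h i j).2)
    · intro i j hij
      exact ha (Prod.ext ((e' i).trans (e' j).symm) hij)
    · intro i j hij
      exact ha' (Prod.ext ((e i).trans (e j).symm) hij)

theorem ram0 (F : SimpleGraph (Fin f)) (r R : ℕ) : Ram F r (pi0 (f := f)) (G0 F R) ∅ := by
  intro c
  exact ⟨id, Function.injective_id, fun u => rfl, fun u v h => h, by simp⟩

theorem ram_step (F : SimpleGraph (Fin f)) {r R : ℕ} {V X' Y' Q : Type}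
    (A : Amal V (Fin R) X' Y' Q) (D : Finset (Fin R × Fin R)) (hD : Ram F r A.π A.G D)
    (ab : Fin R × Fin R) (hs : A.s = ab.1) (ht : A.t = ab.2)
    (P : PLStar (fun (x : {v : V // A.π v = A.s}) (y : {v : V // A.π v = A.t}) => A.G.Adj x.1 y.1)
      r X' Y' Q A.I' A.φ A.ψ) [DecidableEq (Fin R × Fin R)] :
    Ram F r A.proj A.graph (insert ab D) := by
  intro c
  obtain ⟨q, k, hk⟩ := P.ramsey (fun x y => c (A.vx x) (A.vy y))
  obtain ⟨Φ, h0, h1, h2, h4⟩ := hD (fun u v => c (A.map q u) (A.map q v))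
  refine ⟨fun u => A.map q (Φ u), fun u v h => h0 (A.map_inj q h),
    fun u => by rw [A.proj_map, h1], fun u v huv => ?_, ?_⟩
  · rw [A.adj_map]
    exact h2 u v huv
  · intro ab' hab'
    rcases Finset.mem_insert.1 hab' with rfl | hab'
    · refine ⟨k, fun u v huv hu hv => ?_⟩
      have pu : A.π (Φ u) = A.s := by rw [h1, hu, hs]
      have pv : A.π (Φ v) = A.t := by rw [h1, hv, ht]
      have := hk ⟨Φ u, pu⟩ ⟨Φ v, pv⟩ (h2 u v huv)
      change c (A.map q (Φ u)) (A.map q (Φ v)) = k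
      rw [A.map_s q _ pu, A.map_t q _ pv]
      exact this
    · exact h4 ab' hab'

theorem exists_construction (r : ℕ) (hr : 0 < r) (F : SimpleGraph (Fin f)) (hF : K33Free F) (R : ℕ)
    (D : Finset (Fin R × Fin R)) :
    ∃ (V : Type) (_ : Finite V) (π : V → Fin R) (G : SimpleGraph V), Inv π G ∧ Ram F r π G D := by
  classical
  induction D using Finset.induction_on with
  | empty => exact ⟨V0 f R, inferInstance, pi0, G0 F R, inv0 F hF R, ram0 F r R⟩
  | insert ab D _ ih =>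
    obtain ⟨V, hfin, π, G, hinv, hram⟩ := ih
    by_cases hab : ab.1 = ab.2
    · refine ⟨V, hfin, π, G, hinv, ?_⟩
      intro c
      obtain ⟨Φ, h0, h1, h2, h3⟩ := hram c
      refine ⟨Φ, h0, h1, h2, ?_⟩
      intro ab' hab'
      rcases Finset.mem_insert.1 hab' with rfl | hab'
      · refine ⟨⟨0, hr⟩, fun u v huv hu hv => ?_⟩
        exfalso
        exact (inv0 F hF R).ne u v huv (by rw [hu, hv, hab])
      · exact h3 ab' hab'
    · obtain ⟨X', Y', Q, fX, fY, fQ, I', φ, ψ, P⟩ := star_lemma r hr _ (hinv.c4 ab.1 ab.2 hab)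
      let A : Amal V (Fin R) X' Y' Q :=
        { π := π
          G := G
          s := ab.1
          t := ab.2
          hst := hab
          hG := hinv.ne
          I' := I'
          φ := φ
          ψ := ψ
          injφ := P.injφ
          injψ := P.injψ
          ind := P.ind }
      refine ⟨A.Vert, inferInstance, A.proj, A.graph, ?_, ?_⟩
      · exact ⟨fun u v h => A.proj_ne h, c4_amal A hinv.c4 P, k33_amal A hinv.k33 P⟩
      · exact ram_step F A D hram ab rfl rfl P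

end construction

end Tri

open Tri in
/-- Every `K_{3,3}`-free graph has a `K_{3,3}`-free Ramsey graph (edge colourings). -/
theorem k33_ramsey (r : ℕ) (hr : 0 < r) {f : ℕ} (F : SimpleGraph (Fin f)) (hF : K33Free F) :
    ∃ (b : ℕ) (B : SimpleGraph (Fin b)), K33Free B ∧ ∀ χ : Sym2 (Fin b) → Fin r,
      ∃ (i : Fin r) (g : Fin f → Fin b), Function.Injective g ∧
        ∀ u v, F.Adj u v → B.Adj (g u) (g v) ∧ χ s(g u, g v) = i := by
  classical
  obtain ⟨R, hR⟩ := ramsey_pairs r f hr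
  obtain ⟨V, hfin, π, G, hinv, hram⟩ := exists_construction r hr F hF R Finset.univ
  have := Fintype.ofFinite V
  let e : V ≃ Fin (Fintype.card V) := Fintype.equivFin V
  refine ⟨Fintype.card V, G.comap e.symm, ?_, ?_⟩
  · intro a a' ha ha' h
    exact hinv.k33 (fun i => e.symm (a i)) (fun i => e.symm (a' i))
      (fun i j hij => ha (e.symm.injective hij)) (fun i j hij => ha' (e.symm.injective hij)) h
  · intro χ
    obtain ⟨Φ, h0, h1, h2, h3⟩ := hram (fun u v => χ s(e u, e v))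
    choose g hg using fun ab : Fin R × Fin R => h3 ab (Finset.mem_univ ab)
    obtain ⟨σ, k, hσ, hk⟩ := hR (fun a b => g (a, b))
    let α : Fin f ↪ Fin R := ⟨σ, hσ.injective⟩
    refine ⟨k, fun u => e (Φ (α, u)), ?_, ?_⟩
    · intro u v h
      have := h0 (e.injective h)
      exact congrArg Prod.snd this
    · intro u v huv
      have key : ∀ u v : Fin f, F.Adj u v → u < v → χ s(e (Φ (α, u)), e (Φ (α, v))) = k := by
        intro u v huv hlt
        have hadj : (G0 F R).Adj (α, u) (α, v) := ⟨rfl, huv⟩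
        have := hg (σ u, σ v) (α, u) (α, v) hadj rfl rfl
        rw [this]
        exact hk u v hlt
      constructor
      · rw [SimpleGraph.comap_adj, e.symm_apply_apply, e.symm_apply_apply]
        exact h2 _ _ ⟨rfl, huv⟩
      · rcases lt_or_gt_of_ne huv.ne with hlt | hlt
        · exact key u v huv hlt
        · rw [Sym2.eq_swap]
          exact key v u huv.symm hlt

end Pool.Agent.PUG
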