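import Pool.Agent.PUG.Defs

set_option autoImplicit false

namespace Pool.Agent.PUG

open Classical in
/-- Moment generating function of the number of hits. -/
theorem tail_mgf {Y κ : Type} [Fintype Y] [Fintype κ] (T : Finset Y) (a : ℝ) :
    ∑ f : κ → Y, a ^ (Finset.univ.filter (fun k => f k ∈ T)).card
      = ((Fintype.card Y : ℝ) + (a - 1) * T.card) ^ (Fintype.card κ) := by
  have h1 : ∀ f : κ → Y, a ^ (Finset.univ.filter (fun k => f k ∈ T)).card
      = ∏ k, (if f k ∈ T then a else 1) := by
    intro f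
    rw [Finset.prod_ite]
    simp
  have h2 : ∑ y : Y, (if y ∈ T then a else 1) = (Fintype.card Y : ℝ) + (a - 1) * T.card := by
    have h3 : ∀ y : Y, (if y ∈ T then a else 1) = 1 + (if y ∈ T then (a - 1) else 0) := by
      intro y; split_ifs <;> ring
    simp only [h3]
    rw [Finset.sum_add_distrib]
    simp
    ring
  rw [← h2, ← Finset.card_univ, ← Finset.prod_const, Finset.prod_univ_sum]
  simp only [Fintype.piFinset_univ]
  exact Finset.sum_congr rfl (fun f _ => h1 f)

open Classical in
/-- Lower tail: few functions hit a set of density `≥ 1/ρ` less than `M/(4ρ)` times. -/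
theorem tail_low {Y κ : Type} [Fintype Y] [Fintype κ] (T : Finset Y) (ρ : ℕ) (hρ : 0 < ρ)
    (hT : Fintype.card Y ≤ ρ * T.card) :
    ((Finset.univ.filter (fun f : κ → Y =>
        4 * ρ * (Finset.univ.filter (fun k => f k ∈ T)).card < Fintype.card κ)).card : ℝ)
      ≤ Real.exp (-(Fintype.card κ : ℝ) / (4 * ρ)) * (Fintype.card Y : ℝ) ^ (Fintype.card κ) := by
  set M : ℝ := (Fintype.card κ : ℝ) with hM
  set B := Finset.univ.filter (fun f : κ → Y =>
        4 * ρ * (Finset.univ.filter (fun k => f k ∈ T)).card < Fintype.card κ) with hB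
  have hρ' : (0 : ℝ) < ρ := by exact_mod_cast hρ
  have h1 := tail_mgf (κ := κ) T (1 / 2 : ℝ)
  have h2 : (B.card : ℝ) * Real.exp (-M / (4 * ρ))
      ≤ ∑ f : κ → Y, (1 / 2 : ℝ) ^ (Finset.univ.filter (fun k => f k ∈ T)).card := by
    calc (B.card : ℝ) * Real.exp (-M / (4 * ρ)) = ∑ f ∈ B, Real.exp (-M / (4 * ρ)) := by
          rw [Finset.sum_const, nsmul_eq_mul]
      _ ≤ ∑ f ∈ B, (1 / 2 : ℝ) ^ (Finset.univ.filter (fun k => f k ∈ T)).card := by
          refine Finset.sum_le_sum ?_
          intro f hf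
          rw [hB, Finset.mem_filter] at hf
          have h3 : (4 : ℝ) * ρ * (Finset.univ.filter (fun k => f k ∈ T)).card < M := by
            rw [hM]; exact_mod_cast hf.2
          set n := (Finset.univ.filter (fun k => f k ∈ T)).card with hn
          have h4 : -M / (4 * ρ) ≤ -(n : ℝ) := by
            rw [div_le_iff₀ (by positivity)]
            nlinarith
          have h5 : Real.exp (-1) ≤ 1 / 2 := by
            rw [Real.exp_neg, inv_eq_one_div]
            have : (2 : ℝ) ≤ Real.exp 1 := by
              have := Real.add_one_le_exp (1 : ℝ); linarith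
            exact one_div_le_one_div_of_le (by norm_num) this
          calc Real.exp (-M / (4 * ρ)) ≤ Real.exp (-(n : ℝ)) := Real.exp_le_exp.mpr h4
            _ = Real.exp (-1) ^ n := by
                rw [← Real.exp_nat_mul]; congr 1; ring
            _ ≤ (1 / 2) ^ n := pow_le_pow_left₀ (Real.exp_nonneg _) h5 n
      _ ≤ _ := by
          refine Finset.sum_le_sum_of_subset_of_nonneg (Finset.subset_univ _) ?_
          intro f _ _; positivity
  have h6 : ((Fintype.card Y : ℝ) + (1 / 2 - 1) * T.card)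
      ≤ (Fintype.card Y : ℝ) * Real.exp (-1 / (2 * ρ)) := by
    have h7 : (Fintype.card Y : ℝ) ≤ ρ * T.card := by exact_mod_cast hT
    have h8 : 1 - 1 / (2 * (ρ : ℝ)) ≤ Real.exp (-1 / (2 * ρ)) := by
      have := Real.add_one_le_exp (-1 / (2 * (ρ : ℝ)))
      have e : -1 / (2 * (ρ : ℝ)) = - (1 / (2 * ρ)) := by ring
      rw [e] at this ⊢
      linarith
    have h9 : (Fintype.card Y : ℝ) * (1 / (2 * ρ)) ≤ 1 / 2 * T.card := by
      rw [mul_one_div, div_le_iff₀ (by positivity)]
      nlinarith
    calc ((Fintype.card Y : ℝ) + (1 / 2 - 1) * T.card)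
        ≤ (Fintype.card Y : ℝ) * (1 - 1 / (2 * ρ)) := by linarith
      _ ≤ _ := mul_le_mul_of_nonneg_left h8 (by positivity)
  have h7 : 0 ≤ ((Fintype.card Y : ℝ) + (1 / 2 - 1) * T.card) := by
    have : (T.card : ℝ) ≤ Fintype.card Y := by exact_mod_cast Finset.card_le_univ T
    nlinarith [Nat.cast_nonneg (α := ℝ) T.card]
  have h8 : (B.card : ℝ) * Real.exp (-M / (4 * ρ))
      ≤ ((Fintype.card Y : ℝ)) ^ (Fintype.card κ) * Real.exp (-M / (2 * ρ)) := by
    refine h2.trans ?_
    rw [h1]
    refine (pow_le_pow_left₀ h7 h6 _).trans (le_of_eq ?_)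
    rw [mul_pow, ← Real.exp_nat_mul]
    congr 2
    rw [hM]; ring
  have h9 : Real.exp (-M / (2 * ρ)) = Real.exp (-M / (4 * ρ)) * Real.exp (-M / (4 * ρ)) := by
    rw [← Real.exp_add]; congr 1
    field_simp; ring
  rw [h9] at h8
  have h10 : 0 < Real.exp (-M / (4 * ρ)) := Real.exp_pos _
  have h11 : (B.card : ℝ) * Real.exp (-M / (4 * ρ))
      ≤ (Real.exp (-M / (4 * ρ)) * ((Fintype.card Y : ℝ)) ^ (Fintype.card κ))
        * Real.exp (-M / (4 * ρ)) := by
    refine h8.trans (le_of_eq ?_); ring
  exact le_of_mul_le_mul_right h11 h10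

open Classical in
/-- Upper tail: few functions hit a set at least `s` times if `8 * (expected number) ≤ s`. -/
theorem tail_up {Y κ : Type} [Fintype Y] [Fintype κ] (T : Finset Y) (s : ℝ)
    (hs : 8 * (Fintype.card κ : ℝ) * T.card ≤ s * Fintype.card Y) :
    ((Finset.univ.filter (fun f : κ → Y =>
        s ≤ ((Finset.univ.filter (fun k => f k ∈ T)).card : ℝ))).card : ℝ)
      ≤ Real.exp (-s) * (Fintype.card Y : ℝ) ^ (Fintype.card κ) := by
  set B := Finset.univ.filter (fun f : κ → Y =>
        s ≤ ((Finset.univ.filter (fun k => f k ∈ T)).card : ℝ)) with hB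
  have h1 := tail_mgf (κ := κ) T (8 : ℝ)
  have he : Real.exp (15 / 8) ≤ 8 := by
    have h2 : Real.exp (15 / 8) ≤ Real.exp 2 := Real.exp_le_exp.mpr (by norm_num)
    have h3 : Real.exp 2 = Real.exp 1 ^ 2 := by
      rw [← Real.exp_nat_mul]; norm_num
    have h4 : Real.exp 1 < 2.7182818286 := Real.exp_one_lt_d9
    have h5 : Real.exp 1 ^ 2 ≤ 2.7182818286 ^ 2 :=
      pow_le_pow_left₀ (Real.exp_nonneg _) h4.le 2
    have h6 : (2.7182818286 : ℝ) ^ 2 ≤ 8 := by norm_num
    linarith
  have h2 : (B.card : ℝ) * Real.exp (15 / 8 * s)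
      ≤ ∑ f : κ → Y, (8 : ℝ) ^ (Finset.univ.filter (fun k => f k ∈ T)).card := by
    calc (B.card : ℝ) * Real.exp (15 / 8 * s) = ∑ f ∈ B, Real.exp (15 / 8 * s) := by
          rw [Finset.sum_const, nsmul_eq_mul]
      _ ≤ ∑ f ∈ B, (8 : ℝ) ^ (Finset.univ.filter (fun k => f k ∈ T)).card := by
          refine Finset.sum_le_sum ?_
          intro f hf
          rw [hB, Finset.mem_filter] at hf
          set n := (Finset.univ.filter (fun k => f k ∈ T)).card with hn
          calc Real.exp (15 / 8 * s) ≤ Real.exp (15 / 8 * n) :=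
                Real.exp_le_exp.mpr (by linarith [hf.2])
            _ = Real.exp (15 / 8) ^ n := by
                rw [← Real.exp_nat_mul]; congr 1; ring
            _ ≤ 8 ^ n := pow_le_pow_left₀ (Real.exp_nonneg _) he n
      _ ≤ _ := by
          refine Finset.sum_le_sum_of_subset_of_nonneg (Finset.subset_univ _) ?_
          intro f _ _; positivity
  rw [h1] at h2
  rcases Nat.eq_zero_or_pos (Fintype.card Y) with hY | hY
  · -- no points
    have hT : T.card = 0 := by
      have := Finset.card_le_univ T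
      omega
    rcases Nat.eq_zero_or_pos (Fintype.card κ) with hκ | hκ
    · -- one function
      have : IsEmpty κ := Fintype.card_eq_zero_iff.mp hκ
      rw [hκ, pow_zero, mul_one]
      by_cases hs0 : s ≤ 0
      · have h3 : B.card ≤ 1 := by
          refine (Finset.card_le_univ B).trans ?_
          rw [Fintype.card_fun, hκ, pow_zero]
        have h4 : (B.card : ℝ) ≤ 1 := by exact_mod_cast h3
        have h5 : 1 ≤ Real.exp (-s) := Real.one_le_exp (by linarith)
        linarith
      · have h3 : B = ∅ := by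
          rw [hB, Finset.filter_eq_empty_iff]
          intro f _ h
          simp at h
          exact hs0 h
        rw [h3]
        simp [Real.exp_nonneg]
    · have h3 : B.card = 0 := by
        have h4 := Finset.card_le_univ B
        rw [Fintype.card_fun, hY, zero_pow (by omega)] at h4
        omega
      rw [h3]
      simp only [Nat.cast_zero]
      positivity
  · have hY' : (0 : ℝ) < Fintype.card Y := by exact_mod_cast hY
    have h3 : ((Fintype.card Y : ℝ) + (8 - 1) * T.card)
        ≤ (Fintype.card Y : ℝ) * Real.exp (7 * T.card / Fintype.card Y) := by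
      have h4 := Real.add_one_le_exp (7 * (T.card : ℝ) / Fintype.card Y)
      have h5 : ((Fintype.card Y : ℝ) + (8 - 1) * T.card)
          = (Fintype.card Y : ℝ) * (7 * T.card / Fintype.card Y + 1) := by
        field_simp; ring
      rw [h5]
      exact mul_le_mul_of_nonneg_left h4 hY'.le
    have h4 : ((Fintype.card Y : ℝ) + (8 - 1) * T.card) ^ (Fintype.card κ)
        ≤ (Fintype.card Y : ℝ) ^ (Fintype.card κ) * Real.exp (7 / 8 * s) := by
      refine (pow_le_pow_left₀ (by positivity) h3 _).trans ?_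
      rw [mul_pow, ← Real.exp_nat_mul]
      refine mul_le_mul_of_nonneg_left (Real.exp_le_exp.mpr ?_) (by positivity)
      rw [mul_div_assoc', div_le_iff₀ hY']
      nlinarith
    have h5 : (B.card : ℝ) * Real.exp (15 / 8 * s)
        ≤ (Fintype.card Y : ℝ) ^ (Fintype.card κ) * Real.exp (7 / 8 * s) := h2.trans h4
    have h6 : Real.exp (7 / 8 * s) = Real.exp (-s) * Real.exp (15 / 8 * s) := by
      rw [← Real.exp_add]; congr 1; ring
    rw [h6] at h5
    have h7 : (B.card : ℝ) * Real.exp (15 / 8 * s)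
        ≤ (Real.exp (-s) * (Fintype.card Y : ℝ) ^ (Fintype.card κ)) * Real.exp (15 / 8 * s) := by
      refine h5.trans (le_of_eq ?_); ring
    exact le_of_mul_le_mul_right h7 (Real.exp_pos _)

end Pool.Agent.PUG
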