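import Pool.Agent.PUG.Defs

set_option autoImplicit false

namespace Pool.Agent.PUG

/-- Data of one amalgamation step of the partite construction: a partite graph `(G, π)`, two parts `s ≠ t`,
and a bipartite relation `I'` with induced copies (indexed by `Q`) of the bipartite graph `G[V_s, V_t]`. -/
structure Amal (V T X' Y' Q : Type) where
  π : V → T
  G : SimpleGraph V
  s : T
  t : T
  hst : s ≠ t
  hG : ∀ u v, G.Adj u v → π u ≠ π v
  I' : X' → Y' → Prop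
  φ : Q → {v : V // π v = s} → X'
  ψ : Q → {v : V // π v = t} → Y'
  injφ : ∀ q, Function.Injective (φ q)
  injψ : ∀ q, Function.Injective (ψ q)
  ind : ∀ q x y, I' (φ q x) (ψ q y) ↔ G.Adj x.1 y.1

namespace Amal

variable {V T X' Y' Q : Type} (A : Amal V T X' Y' Q)

/-- Vertices of the amalgam: `X'`, `Y'` and for each copy the vertices outside the two parts. -/
abbrev Vert : Type := (X' ⊕ Y') ⊕ (Q × {v : V // A.π v ≠ A.s ∧ A.π v ≠ A.t})

/-- a vertex of `X'` -/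
abbrev vx (x : X') : A.Vert := Sum.inl (Sum.inl x)
/-- a vertex of `Y'` -/
abbrev vy (y : Y') : A.Vert := Sum.inl (Sum.inr y)

open Classical in
/-- The `q`-th copy of `V` in the amalgam. -/
noncomputable def map (q : Q) (v : V) : A.Vert :=
  if h : A.π v = A.s then A.vx (A.φ q ⟨v, h⟩)
  else if h' : A.π v = A.t then A.vy (A.ψ q ⟨v, h'⟩)
  else Sum.inr (q, ⟨v, h, h'⟩)

/-- projection to the parts -/
def proj : A.Vert → T
  | Sum.inl (Sum.inl _) => A.s
  | Sum.inl (Sum.inr _) => A.t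
  | Sum.inr (_, v) => A.π v.1

/-- The amalgam: all edges of `I'` and the edges of all copies. -/
def graph : SimpleGraph A.Vert where
  Adj a b := a ≠ b ∧ ((∃ x' y', A.I' x' y' ∧ ((a = A.vx x' ∧ b = A.vy y') ∨ (a = A.vy y' ∧ b = A.vx x'))) ∨
    ∃ q u v, A.G.Adj u v ∧ A.map q u = a ∧ A.map q v = b)
  symm := ⟨by
    rintro a b ⟨hne, h | ⟨q, u, v, huv, ha, hb⟩⟩
    · obtain ⟨x', y', hI, h | h⟩ := h
      · exact ⟨hne.symm, Or.inl ⟨x', y', hI, Or.inr ⟨h.2, h.1⟩⟩⟩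
      · exact ⟨hne.symm, Or.inl ⟨x', y', hI, Or.inl ⟨h.2, h.1⟩⟩⟩
    · exact ⟨hne.symm, Or.inr ⟨q, v, u, huv.symm, hb, ha⟩⟩⟩
  loopless := ⟨fun a h => h.1 rfl⟩

theorem map_s (q : Q) (v : V) (h : A.π v = A.s) : A.map q v = A.vx (A.φ q ⟨v, h⟩) := by
  unfold map; rw [dif_pos h]

theorem map_t (q : Q) (v : V) (h : A.π v = A.t) : A.map q v = A.vy (A.ψ q ⟨v, h⟩) := by
  unfold map
  rw [dif_neg (by rw [h]; exact A.hst.symm), dif_pos h]

theorem map_o (q : Q) (v : V) (h : A.π v ≠ A.s) (h' : A.π v ≠ A.t) :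
    A.map q v = Sum.inr (q, ⟨v, h, h'⟩) := by
  unfold map
  rw [dif_neg h, dif_neg h']

theorem proj_map (q : Q) (v : V) : A.proj (A.map q v) = A.π v := by
  by_cases h : A.π v = A.s
  · rw [A.map_s q v h]; exact h.symm
  · by_cases h' : A.π v = A.t
    · rw [A.map_t q v h']; exact h'.symm
    · rw [A.map_o q v h h']; rfl

theorem map_inj (q : Q) : Function.Injective (A.map q) := by
  intro u v huv
  have hp : A.π u = A.π v := by rw [← A.proj_map q u, ← A.proj_map q v, huv]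
  by_cases h : A.π u = A.s
  · rw [A.map_s q u h, A.map_s q v (hp ▸ h)] at huv
    have := A.injφ q (Sum.inl.inj (Sum.inl.inj huv))
    exact congrArg Subtype.val this
  · by_cases h' : A.π u = A.t
    · rw [A.map_t q u h', A.map_t q v (hp ▸ h')] at huv
      have := A.injψ q (Sum.inr.inj (Sum.inl.inj huv))
      exact congrArg Subtype.val this
    · rw [A.map_o q u h h', A.map_o q v (hp ▸ h) (hp ▸ h')] at huv
      have := (Prod.mk.inj (Sum.inr.inj huv)).2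
      exact congrArg Subtype.val this

/-- If two different copies share a vertex then it is in `X'` or in `Y'`. -/
theorem map_eq {q q' : Q} {u u' : V} (h : A.map q u = A.map q' u') (hq : q ≠ q') :
    (∃ (h₁ : A.π u = A.s) (h₂ : A.π u' = A.s), A.φ q ⟨u, h₁⟩ = A.φ q' ⟨u', h₂⟩) ∨
    (∃ (h₁ : A.π u = A.t) (h₂ : A.π u' = A.t), A.ψ q ⟨u, h₁⟩ = A.ψ q' ⟨u', h₂⟩) := by
  have hp : A.π u = A.π u' := by rw [← A.proj_map q u, ← A.proj_map q' u', h]
  by_cases h1 : A.π u = A.s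
  · left
    refine ⟨h1, hp ▸ h1, ?_⟩
    rw [A.map_s q u h1, A.map_s q' u' (hp ▸ h1)] at h
    exact Sum.inl.inj (Sum.inl.inj h)
  · by_cases h2 : A.π u = A.t
    · right
      refine ⟨h2, hp ▸ h2, ?_⟩
      rw [A.map_t q u h2, A.map_t q' u' (hp ▸ h2)] at h
      exact Sum.inr.inj (Sum.inl.inj h)
    · exfalso
      rw [A.map_o q u h1 h2, A.map_o q' u' (hp ▸ h1) (hp ▸ h2)] at h
      exact hq (Prod.mk.inj (Sum.inr.inj h)).1

theorem map_eq_vx {q : Q} {u : V} {x' : X'} (h : A.map q u = A.vx x') :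
    ∃ h₁ : A.π u = A.s, A.φ q ⟨u, h₁⟩ = x' := by
  have hp : A.π u = A.s := by rw [← A.proj_map q u, h]; rfl
  refine ⟨hp, ?_⟩
  rw [A.map_s q u hp] at h
  exact Sum.inl.inj (Sum.inl.inj h)

theorem map_eq_vy {q : Q} {u : V} {y' : Y'} (h : A.map q u = A.vy y') :
    ∃ h₁ : A.π u = A.t, A.ψ q ⟨u, h₁⟩ = y' := by
  have hp : A.π u = A.t := by rw [← A.proj_map q u, h]; rfl
  refine ⟨hp, ?_⟩
  rw [A.map_t q u hp] at h
  exact Sum.inr.inj (Sum.inl.inj h)

theorem map_eq_inr {q q' : Q} {u : V} {v : {v : V // A.π v ≠ A.s ∧ A.π v ≠ A.t}}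
    (h : A.map q u = Sum.inr (q', v)) : q = q' ∧ u = v.1 := by
  have hp : A.π u = A.π v.1 := by rw [← A.proj_map q u, h]; rfl
  rw [A.map_o q u (hp ▸ v.2.1) (hp ▸ v.2.2)] at h
  have := Prod.mk.inj (Sum.inr.inj h)
  exact ⟨this.1, congrArg Subtype.val this.2⟩

theorem map_self (q : Q) (v : {v : V // A.π v ≠ A.s ∧ A.π v ≠ A.t}) :
    A.map q v.1 = Sum.inr (q, v) := A.map_o q v.1 v.2.1 v.2.2

/-- copies are induced -/
theorem adj_map (q : Q) (u v : V) : A.graph.Adj (A.map q u) (A.map q v) ↔ A.G.Adj u v := by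
  constructor
  · rintro ⟨-, h | ⟨q', u', v', huv, hu, hv⟩⟩
    · obtain ⟨x', y', hI, ⟨h1, h2⟩ | ⟨h1, h2⟩⟩ := h
      · obtain ⟨p1, e1⟩ := A.map_eq_vx h1
        obtain ⟨p2, e2⟩ := A.map_eq_vy h2
        rw [← e1, ← e2] at hI
        exact (A.ind q _ _).1 hI
      · obtain ⟨p1, e1⟩ := A.map_eq_vy h1
        obtain ⟨p2, e2⟩ := A.map_eq_vx h2
        rw [← e1, ← e2] at hI
        exact ((A.ind q _ _).1 hI).symm
    · by_cases hq : q' = q
      · subst hq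
        rw [A.map_inj q' hu, A.map_inj q' hv] at huv
        exact huv
      · have hne := A.hG _ _ huv
        rcases A.map_eq hu hq with ⟨a1, a2, e1⟩ | ⟨a1, a2, e1⟩
        · rcases A.map_eq hv hq with ⟨b1, b2, e2⟩ | ⟨b1, b2, e2⟩
          · exact absurd (a1.trans b1.symm) hne
          · have := (A.ind q' ⟨u', a1⟩ ⟨v', b1⟩).2 huv
            rw [e1, e2] at this
            exact (A.ind q _ _).1 this
        · rcases A.map_eq hv hq with ⟨b1, b2, e2⟩ | ⟨b1, b2, e2⟩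
          · have := (A.ind q' ⟨v', b1⟩ ⟨u', a1⟩).2 huv.symm
            rw [e1, e2] at this
            exact ((A.ind q _ _).1 this).symm
          · exact absurd (a1.trans b1.symm) hne
  · intro h
    exact ⟨fun he => h.ne (A.map_inj q he), Or.inr ⟨q, u, v, h, rfl, rfl⟩⟩

theorem adj_xy (x' : X') (y' : Y') : A.graph.Adj (A.vx x') (A.vy y') ↔ A.I' x' y' := by
  constructor
  · rintro ⟨-, h | ⟨q, u, v, huv, hu, hv⟩⟩
    · obtain ⟨x, y, hI, ⟨h1, h2⟩ | ⟨h1, h2⟩⟩ := h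
      · rw [Sum.inl.inj (Sum.inl.inj h1), Sum.inr.inj (Sum.inl.inj h2)]; exact hI
      · exact absurd (Sum.inl.inj h1) (by simp)
    · obtain ⟨p1, e1⟩ := A.map_eq_vx hu
      obtain ⟨p2, e2⟩ := A.map_eq_vy hv
      rw [← e1, ← e2]
      exact (A.ind q _ _).2 huv
  · intro h
    exact ⟨by simp [vx, vy], Or.inl ⟨x', y', h, Or.inl ⟨rfl, rfl⟩⟩⟩

/-- adjacent vertices lie in different parts -/
theorem proj_ne {a b : A.Vert} (h : A.graph.Adj a b) : A.proj a ≠ A.proj b := by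
  obtain ⟨-, h | ⟨q, u, v, huv, hu, hv⟩⟩ := h
  · obtain ⟨x, y, hI, ⟨h1, h2⟩ | ⟨h1, h2⟩⟩ := h
    · rw [h1, h2]; exact A.hst
    · rw [h1, h2]; exact A.hst.symm
  · rw [← hu, ← hv, A.proj_map, A.proj_map]
    exact A.hG _ _ huv

/-- a neighbour of an inner vertex of the copy `q` is in the copy `q` -/
theorem adj_inr {q : Q} {v : {v : V // A.π v ≠ A.s ∧ A.π v ≠ A.t}} {b : A.Vert}
    (h : A.graph.Adj (Sum.inr (q, v)) b) : ∃ u, A.G.Adj v.1 u ∧ A.map q u = b := by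
  obtain ⟨-, h | ⟨q', u, w, huw, hu, hw⟩⟩ := h
  · obtain ⟨x, y, hI, ⟨h1, h2⟩ | ⟨h1, h2⟩⟩ := h
    · exact absurd h1 (by simp [vx])
    · exact absurd h1 (by simp [vy])
  · obtain ⟨rfl, rfl⟩ := A.map_eq_inr hu
    exact ⟨w, huw, hw⟩

/-- trichotomy -/
theorem cases (a : A.Vert) : (∃ x', a = A.vx x') ∨ (∃ y', a = A.vy y') ∨
    ∃ q v, a = (Sum.inr (q, v) : A.Vert) := by
  rcases a with (x | y) | ⟨q, v⟩
  · exact Or.inl ⟨x, rfl⟩
  · exact Or.inr (Or.inl ⟨y, rfl⟩)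
  · exact Or.inr (Or.inr ⟨q, v, rfl⟩)

end Amal

end Pool.Agent.PUG
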