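import Pool.Agent.PUG.Defs

set_option autoImplicit false

namespace Pool.Agent.PUG

/-- Without crossing 4-cycles, the block graph of a `K_{3,3}`-free block is `K_{3,3}`-free. -/
theorem blockGraph_k33 {V κ : Type} {b : ℕ} (B : SimpleGraph (Fin b)) (hB : K33Free B)
    (f : κ → Fin b → V) (𝒢 : Set κ) (hinj : ∀ k ∈ 𝒢, Function.Injective (f k))
    (hcross : ∀ p : Fin 4 → κ × Fin b × Fin b, (∀ i, (p i).1 ∈ 𝒢) → ¬ Cross B f p) :
    K33Free (blockGraph B f 𝒢) := by
  intro a a' ha ha' h
  have h2 : ∀ i j, ∃ k ∈ 𝒢, ∃ v w, B.Adj v w ∧ f k v = a i ∧ f k w = a' j := fun i j => (h i j).2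
  have hne : ∀ i j, a i ≠ a' j := fun i j => (h i j).1
  choose k hk v w hvw hfv hfw using h2
  have hsq : ∀ i i' j j', i ≠ i' → j ≠ j' →
      k i j = k i' j ∧ k i j = k i' j' ∧ k i j = k i j' := by
    intro i i' j j' hi hj
    by_contra hcon
    let p : Fin 4 → κ × Fin b × Fin b :=
      ![(k i j, v i j, w i j), (k i' j, w i' j, v i' j), (k i' j', v i' j', w i' j'),
        (k i j', w i j', v i j')]
    have hp0 : p 0 = (k i j, v i j, w i j) := rfl
    have hp1 : p 1 = (k i' j, w i' j, v i' j) := rfl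
    have hp2 : p 2 = (k i' j', v i' j', w i' j') := rfl
    have hp3 : p 3 = (k i j', w i j', v i j') := rfl
    have e01 : (0 : Fin 4) + 1 = 1 := rfl
    have e12 : (1 : Fin 4) + 1 = 2 := rfl
    have e23 : (2 : Fin 4) + 1 = 3 := rfl
    have e30 : (3 : Fin 4) + 1 = 0 := rfl
    have hall : ∀ (P : Fin 4 → Prop), P 0 → P 1 → P 2 → P 3 → ∀ x, P x := by
      intro P h0 h1 h2 h3 x
      fin_cases x
      · exact h0
      · exact h1
      · exact h2
      · exact h3
    refine hcross p ?_ ⟨?_, ?_, ?_, ?_⟩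
    · refine hall _ ?_ ?_ ?_ ?_
      · rw [hp0]; exact hk i j
      · rw [hp1]; exact hk i' j
      · rw [hp2]; exact hk i' j'
      · rw [hp3]; exact hk i j'
    · refine hall _ ?_ ?_ ?_ ?_
      · rw [hp0]; exact hvw i j
      · rw [hp1]; exact (hvw i' j).symm
      · rw [hp2]; exact hvw i' j'
      · rw [hp3]; exact (hvw i j').symm
    · refine hall _ ?_ ?_ ?_ ?_
      · rw [e01, hp0, hp1]
        show f (k i j) (w i j) = f (k i' j) (w i' j)
        rw [hfw, hfw]
      · rw [e12, hp1, hp2]
        show f (k i' j) (v i' j) = f (k i' j') (v i' j')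
        rw [hfv, hfv]
      · rw [e23, hp2, hp3]
        show f (k i' j') (w i' j') = f (k i j') (w i j')
        rw [hfw, hfw]
      · rw [e30, hp3, hp0]
        show f (k i j') (v i j') = f (k i j) (v i j)
        rw [hfv, hfv]
    · have q0 : f (p 0).1 (p 0).2.1 = a i := hfv i j
      have q1 : f (p 1).1 (p 1).2.1 = a' j := hfw i' j
      have q2 : f (p 2).1 (p 2).2.1 = a i' := hfv i' j'
      have q3 : f (p 3).1 (p 3).2.1 = a' j' := hfw i j'
      have n02 : a i ≠ a i' := fun e => hi (ha e)
      have n13 : a' j ≠ a' j' := fun e => hj (ha' e)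
      have n01 := hne i j
      have n03 := hne i j'
      have n21 := hne i' j
      have n23 := hne i' j'
      have hcases : ∀ (F : Fin 4 → V), F 0 ≠ F 1 → F 0 ≠ F 2 → F 0 ≠ F 3 → F 1 ≠ F 2 →
          F 1 ≠ F 3 → F 2 ≠ F 3 → Function.Injective F := by
        intro F h01 h02 h03 h12 h13 h23 x y hxy
        fin_cases x <;> fin_cases y
        · rfl
        · exact absurd hxy h01
        · exact absurd hxy h02
        · exact absurd hxy h03
        · exact absurd hxy h01.symm
        · rfl
        · exact absurd hxy h12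
        · exact absurd hxy h13
        · exact absurd hxy h02.symm
        · exact absurd hxy h12.symm
        · rfl
        · exact absurd hxy h23
        · exact absurd hxy h03.symm
        · exact absurd hxy h13.symm
        · exact absurd hxy h23.symm
        · rfl
      apply hcases
      · show f (p 0).1 (p 0).2.1 ≠ f (p 1).1 (p 1).2.1
        rw [q0, q1]; exact n01
      · show f (p 0).1 (p 0).2.1 ≠ f (p 2).1 (p 2).2.1
        rw [q0, q2]; exact n02
      · show f (p 0).1 (p 0).2.1 ≠ f (p 3).1 (p 3).2.1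
        rw [q0, q3]; exact n03
      · show f (p 1).1 (p 1).2.1 ≠ f (p 2).1 (p 2).2.1
        rw [q1, q2]; exact n21.symm
      · show f (p 1).1 (p 1).2.1 ≠ f (p 3).1 (p 3).2.1
        rw [q1, q3]; exact n13
      · show f (p 2).1 (p 2).2.1 ≠ f (p 3).1 (p 3).2.1
        rw [q2, q3]; exact n23
    · intro hE
      exact hcon ⟨hE 0 1, hE 0 2, hE 0 3⟩
  have hK : ∀ i j, k i j = k 0 0 := by
    intro i j
    by_cases hi : i = 0
    · by_cases hj : j = 0
      · rw [hi, hj]
      · rw [hi]
        have := (hsq 0 1 j 0 (by decide) hj).2.2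
        exact this
    · by_cases hj : j = 0
      · rw [hj]
        exact (hsq i 0 0 1 hi (by decide)).1
      · exact (hsq i 0 j 0 hi hj).2.1
  have hI := hinj (k 0 0) (hk 0 0)
  have hv : ∀ i j, f (k 0 0) (v i j) = a i := by
    intro i j
    have := hfv i j
    rw [hK i j] at this
    exact this
  have hw : ∀ i j, f (k 0 0) (w i j) = a' j := by
    intro i j
    have := hfw i j
    rw [hK i j] at this
    exact this
  refine hB (fun i => v i 0) (fun j => w 0 j) ?_ ?_ ?_
  · intro x y hxy
    apply ha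
    rw [← hv x 0, ← hv y 0]
    exact congrArg _ hxy
  · intro x y hxy
    apply ha'
    rw [← hw 0 x, ← hw 0 y]
    exact congrArg _ hxy
  · intro i j
    have e1 : v i j = v i 0 := hI (by rw [hv, hv])
    have e2 : w i j = w 0 j := hI (by rw [hw, hw])
    have := hvw i j
    rw [e1, e2] at this
    exact this

end Pool.Agent.PUG
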