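import Pool.Agent.PUG.Defs

set_option autoImplicit false

namespace Pool.Agent.PUG

open Classical in
private noncomputable def clnR {V ι : Type} [Fintype ι] (Rd Rx : ι → ι → Finset V) : Finset V :=
  Finset.univ.biUnion fun c => Finset.univ.biUnion fun c' => Rd c c' ∪ Rx c c'

private theorem clnR_mem {V ι : Type} [Fintype ι] (Rd Rx : ι → ι → Finset V) (x : V) :
    x ∈ clnR Rd Rx ↔ ∃ c c', x ∈ Rd c c' ∨ x ∈ Rx c c' := by
  unfold clnR
  simp only [Finset.mem_biUnion, Finset.mem_univ, true_and, Finset.mem_union]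

open Classical in
private structure ClnGood {V ι : Type} [Fintype ι] (Q : ι → Finset V) (ν : V → V → ℕ) (D e s : ℕ)
    (Rd Rx : ι → ι → Finset V) : Prop where
  sd : ∀ c c', Rd c c' ⊆ Q c
  sx : ∀ c c', Rx c c' ⊆ Q c
  cd : ∀ c c', (Rd c c').card ≤ s
  cx : ∀ c c', (Rx c c').card ≤ 2 * s
  i1 : ∀ c c', e * ew ν (Rd c c') (Q c' \ clnR Rd Rx) ≤ D * (Rd c c').card
  i2 : ∀ c c', ((Q c' \ clnR Rd Rx).filter (fun y => ∃ x ∈ Rx c c', 0 < ν x y)).card ≤
    2 * (Rx c c').card

open Classical in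
private theorem clnR_card {V ι : Type} [Fintype ι] (Q : ι → Finset V) (ν : V → V → ℕ) (D e s : ℕ)
    (Rd Rx : ι → ι → Finset V) (h : ClnGood Q ν D e s Rd Rx) :
    (clnR Rd Rx).card ≤ 3 * (Fintype.card ι) ^ 2 * s := by
  unfold clnR
  calc (Finset.univ.biUnion fun c => Finset.univ.biUnion fun c' => Rd c c' ∪ Rx c c').card
      ≤ ∑ c : ι, (Finset.univ.biUnion fun c' => Rd c c' ∪ Rx c c').card := Finset.card_biUnion_le
    _ ≤ ∑ c : ι, ∑ c' : ι, (Rd c c' ∪ Rx c c').card :=
        Finset.sum_le_sum fun c _ => Finset.card_biUnion_le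
    _ ≤ ∑ _c : ι, ∑ _c' : ι, 3 * s := by
        refine Finset.sum_le_sum fun c _ => Finset.sum_le_sum fun c' _ => ?_
        have h1 := Finset.card_union_le (Rd c c') (Rx c c')
        have h2 := h.cd c c'
        have h3 := h.cx c c'
        omega
    _ = 3 * (Fintype.card ι) ^ 2 * s := by
        simp only [Finset.sum_const, Finset.card_univ, smul_eq_mul]
        ring

private theorem cln_ew_mono {V : Type} (ν : V → V → ℕ) {A C C' : Finset V} (h : C ⊆ C') :
    ew ν A C ≤ ew ν A C' :=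
  Finset.sum_le_sum fun _ _ => Finset.sum_le_sum_of_subset h

open Classical in
private theorem cln_add_d {V ι : Type} [Fintype ι] (Q : ι → Finset V) (ν : V → V → ℕ) (D e s : ℕ)
    (Rd Rx : ι → ι → Finset V) (h : ClnGood Q ν D e s Rd Rx) (a a' : ι) (x : V)
    (hx : x ∈ Q a \ clnR Rd Rx) (hD : e * ew ν {x} (Q a' \ clnR Rd Rx) < D)
    (hs : (Rd a a').card < s) :
    ∃ Rd' Rx' : ι → ι → Finset V, ClnGood Q ν D e s Rd' Rx' ∧
      (clnR Rd Rx).card < (clnR Rd' Rx').card := by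
  rw [Finset.mem_sdiff] at hx
  obtain ⟨hxQ, hxR⟩ := hx
  set Rd' : ι → ι → Finset V := fun c c' => if c = a ∧ c' = a' then insert x (Rd c c') else Rd c c'
    with hRd'
  have hsub : clnR Rd Rx ⊆ clnR Rd' Rx := by
    intro z hz
    rw [clnR_mem] at hz ⊢
    obtain ⟨c, c', hz⟩ := hz
    refine ⟨c, c', hz.imp (fun hz => ?_) id⟩
    rw [hRd']
    dsimp only
    split_ifs
    · exact Finset.mem_insert_of_mem hz
    · exact hz
  have hxm : x ∈ clnR Rd' Rx := by
    rw [clnR_mem]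
    refine ⟨a, a', Or.inl ?_⟩
    rw [hRd']
    simp
  have hsd : ∀ c', Q c' \ clnR Rd' Rx ⊆ Q c' \ clnR Rd Rx := fun c' =>
    Finset.sdiff_subset_sdiff (Finset.Subset.refl _) hsub
  refine ⟨Rd', Rx, ?_, Finset.card_lt_card (Finset.ssubset_iff_of_subset hsub |>.2 ⟨x, hxm, hxR⟩)⟩
  constructor
  · intro c c'
    rw [hRd']
    dsimp only
    split_ifs with hc
    · rw [Finset.insert_subset_iff]
      exact ⟨hc.1 ▸ hxQ, h.sd c c'⟩
    · exact h.sd c c'
  · exact h.sx
  · intro c c'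
    rw [hRd']
    dsimp only
    split_ifs with hc
    · obtain ⟨rfl, rfl⟩ := hc
      have := Finset.card_insert_le x (Rd c c')
      omega
    · exact h.cd c c'
  · exact h.cx
  · intro c c'
    refine (Nat.mul_le_mul_left e (cln_ew_mono ν (hsd c'))).trans ?_
    rw [hRd']
    dsimp only
    split_ifs with hc
    · obtain ⟨rfl, rfl⟩ := hc
      have hxn : x ∉ Rd c c' := fun hm => hxR ((clnR_mem _ _ _).2 ⟨c, c', Or.inl hm⟩)
      have h1 := h.i1 c c'
      rw [Finset.card_insert_of_notMem hxn]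
      have h2 : ew ν (insert x (Rd c c')) (Q c' \ clnR Rd Rx) =
          ew ν {x} (Q c' \ clnR Rd Rx) + ew ν (Rd c c') (Q c' \ clnR Rd Rx) := by
        unfold ew
        rw [Finset.sum_insert hxn, Finset.sum_singleton]
      rw [h2, Nat.mul_add, Nat.mul_add, Nat.mul_one]
      omega
    · exact h.i1 c c'
  · intro c c'
    refine le_trans (Finset.card_le_card ?_) (h.i2 c c')
    exact Finset.filter_subset_filter _ (hsd c')

open Classical in
private theorem cln_add_x {V ι : Type} [Fintype ι] (Q : ι → Finset V) (ν : V → V → ℕ) (D e s : ℕ)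
    (Rd Rx : ι → ι → Finset V) (h : ClnGood Q ν D e s Rd Rx) (a a' : ι) (Z : Finset V)
    (hZ : Z ⊆ Q a \ clnR Rd Rx)
    (hD : ((Q a' \ clnR Rd Rx).filter (fun y => ∃ x ∈ Z, 0 < ν x y)).card < 2 * Z.card)
    (hZs : Z.card ≤ s) (hs : (Rx a a').card < s) :
    ∃ Rd' Rx' : ι → ι → Finset V, ClnGood Q ν D e s Rd' Rx' ∧
      (clnR Rd Rx).card < (clnR Rd' Rx').card := by
  set Rx' : ι → ι → Finset V := fun c c' => if c = a ∧ c' = a' then Rx c c' ∪ Z else Rx c c'
    with hRx'
  have hsub : clnR Rd Rx ⊆ clnR Rd Rx' := by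
    intro z hz
    rw [clnR_mem] at hz ⊢
    obtain ⟨c, c', hz⟩ := hz
    refine ⟨c, c', hz.imp id (fun hz => ?_)⟩
    rw [hRx']
    dsimp only
    split_ifs
    · exact Finset.mem_union_left _ hz
    · exact hz
  have hne : Z.Nonempty := by
    rw [← Finset.card_pos]
    omega
  obtain ⟨x, hxZ⟩ := hne
  have hxR := (Finset.mem_sdiff.1 (hZ hxZ)).2
  have hxm : x ∈ clnR Rd Rx' := by
    rw [clnR_mem]
    refine ⟨a, a', Or.inr ?_⟩
    rw [hRx']
    simp [hxZ]
  have hsd : ∀ c', Q c' \ clnR Rd Rx' ⊆ Q c' \ clnR Rd Rx := fun c' =>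
    Finset.sdiff_subset_sdiff (Finset.Subset.refl _) hsub
  refine ⟨Rd, Rx', ?_, Finset.card_lt_card (Finset.ssubset_iff_of_subset hsub |>.2 ⟨x, hxm, hxR⟩)⟩
  constructor
  · exact h.sd
  · intro c c'
    rw [hRx']
    dsimp only
    split_ifs with hc
    · refine Finset.union_subset (h.sx c c') fun z hz => ?_
      rw [hc.1]
      exact (Finset.mem_sdiff.1 (hZ hz)).1
    · exact h.sx c c'
  · exact h.cd
  · intro c c'
    rw [hRx']
    dsimp only
    split_ifs with hc
    · obtain ⟨rfl, rfl⟩ := hc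
      have := Finset.card_union_le (Rx c c') Z
      omega
    · exact h.cx c c'
  · intro c c'
    exact (Nat.mul_le_mul_left e (cln_ew_mono ν (hsd c'))).trans (h.i1 c c')
  · intro c c'
    refine le_trans (Finset.card_le_card (Finset.filter_subset_filter _ (hsd c'))) ?_
    rw [hRx']
    dsimp only
    split_ifs with hc
    · obtain ⟨rfl, rfl⟩ := hc
      have hdis : Disjoint (Rx c c') Z := by
        rw [Finset.disjoint_left]
        intro z hz hzZ
        exact (Finset.mem_sdiff.1 (hZ hzZ)).2 ((clnR_mem _ _ _).2 ⟨c, c', Or.inr hz⟩)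
      rw [Finset.card_union_of_disjoint hdis]
      have h1 := h.i2 c c'
      have h2 : ((Q c' \ clnR Rd Rx).filter (fun y => ∃ x ∈ Rx c c' ∪ Z, 0 < ν x y)) ⊆
          ((Q c' \ clnR Rd Rx).filter (fun y => ∃ x ∈ Rx c c', 0 < ν x y)) ∪
          ((Q c' \ clnR Rd Rx).filter (fun y => ∃ x ∈ Z, 0 < ν x y)) := by
        intro y hy
        rw [Finset.mem_filter] at hy
        obtain ⟨hy1, z, hz, hzy⟩ := hy
        rw [Finset.mem_union, Finset.mem_filter, Finset.mem_filter]
        rcases Finset.mem_union.1 hz with hz | hz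
        · exact Or.inl ⟨hy1, z, hz, hzy⟩
        · exact Or.inr ⟨hy1, z, hz, hzy⟩
      have h3 := (Finset.card_le_card h2).trans (Finset.card_union_le _ _)
      omega
    · exact h.i2 c c'

open Classical in
/-- Cleaning: pass to large subsets `Q' c ⊆ Q c` with minimum degree and doubling. -/
theorem cleaning {V ι : Type} [Fintype ι] (adj : ι → ι → Prop) (Q : ι → Finset V)
    (hQ : ∀ c c', c ≠ c' → Disjoint (Q c) (Q c')) (ν : V → V → ℕ) (D e s w N : ℕ)
    (hs : s ≤ N) (hw : (3 * (Fintype.card ι) ^ 2 + 5) * s ≤ w) (hQw : ∀ c, w ≤ (Q c).card)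
    (H2 : ∀ c c', adj c c' → ∀ X Y : Finset V, X ⊆ Q c → Y ⊆ Q c' → s ≤ X.card → s ≤ Y.card →
      D * N < e * ew ν X Y) :
    ∃ Q' : ι → Finset V, (∀ c, Q' c ⊆ Q c) ∧
      (∑ c, (Q c \ Q' c).card ≤ 3 * (Fintype.card ι) ^ 2 * s) ∧
      (∀ c c', adj c c' → ∀ x ∈ Q' c, D ≤ e * ew ν {x} (Q' c')) ∧
      (∀ c c', adj c c' → ∀ Z : Finset V, Z ⊆ Q' c → Z.card ≤ s →
        2 * Z.card ≤ ((Q' c').filter (fun y => ∃ x ∈ Z, 0 < ν x y)).card) := by
  set S : Set ℕ := {m | ∃ Rd Rx : ι → ι → Finset V, ClnGood Q ν D e s Rd Rx ∧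
    (clnR Rd Rx).card = m} with hS
  have hbd : BddAbove S := ⟨3 * (Fintype.card ι) ^ 2 * s, by
    rintro m ⟨Rd, Rx, hg, rfl⟩
    exact clnR_card Q ν D e s Rd Rx hg⟩
  have hne : S.Nonempty := by
    refine ⟨_, fun _ _ => ∅, fun _ _ => ∅, ?_, rfl⟩
    constructor
    · intro c c'
      exact Finset.empty_subset _
    · intro c c'
      exact Finset.empty_subset _
    · intro c c'
      simp
    · intro c c'
      simp
    · intro c c'
      simp [ew]
    · intro c c'
      simp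
  obtain ⟨Rd, Rx, hg, hmax⟩ := Nat.sSup_mem hne hbd
  have hmax' : ∀ Rd' Rx' : ι → ι → Finset V, ClnGood Q ν D e s Rd' Rx' →
      (clnR Rd' Rx').card ≤ (clnR Rd Rx).card := fun Rd' Rx' h' => by
    rw [hmax]
    exact le_csSup hbd ⟨Rd', Rx', h', rfl⟩
  have hR := clnR_card Q ν D e s Rd Rx hg
  set R := clnR Rd Rx with hRdef
  have hw' : 3 * (Fintype.card ι) ^ 2 * s + 5 * s ≤ w := by
    rw [← Nat.add_mul]
    exact hw
  have hbig : ∀ c, 5 * s ≤ (Q c \ R).card := fun c => by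
    have h1 := Finset.le_card_sdiff R (Q c)
    have h2 := hQw c
    omega
  refine ⟨fun c => Q c \ R, fun c => Finset.sdiff_subset, ?_, ?_, ?_⟩
  · have h1 : ∀ c, Q c \ (Q c \ R) = Q c ∩ R := fun c => by
      rw [Finset.sdiff_sdiff_self_left]
    simp only [h1]
    rw [← Finset.card_biUnion]
    · refine le_trans (Finset.card_le_card ?_) hR
      intro z hz
      rw [Finset.mem_biUnion] at hz
      obtain ⟨c, _, hz⟩ := hz
      exact (Finset.mem_inter.1 hz).2
    · intro c _ c' _ hcc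
      exact (hQ c c' hcc).mono Finset.inter_subset_left Finset.inter_subset_left
  · intro c c' hcc x hx
    by_contra hlt
    push Not at hlt
    by_cases hc : (Rd c c').card < s
    · obtain ⟨Rd', Rx', h1, h2⟩ := cln_add_d Q ν D e s Rd Rx hg c c' x hx hlt hc
      exact absurd (hmax' Rd' Rx' h1) (not_le.2 h2)
    · push Not at hc
      have h1 := H2 c c' hcc (Rd c c') (Q c' \ R) (hg.sd c c') Finset.sdiff_subset hc
        (by have := hbig c'; omega)
      have h2 := hg.i1 c c'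
      rw [← hRdef] at h2
      have h3 : D * (Rd c c').card ≤ D * N := Nat.mul_le_mul_left D ((hg.cd c c').trans hs)
      omega
  · intro c c' hcc Z hZ hZs
    by_contra hlt
    push Not at hlt
    by_cases hc : (Rx c c').card < s
    · obtain ⟨Rd', Rx', h1, h2⟩ := cln_add_x Q ν D e s Rd Rx hg c c' Z hZ hlt hZs hc
      exact absurd (hmax' Rd' Rx' h1) (not_le.2 h2)
    · push Not at hc
      set Nb := (Q c' \ R).filter (fun y => ∃ x ∈ Rx c c', 0 < ν x y) with hNb
      have h0 : Nb.card ≤ 2 * (Rx c c').card := hg.i2 c c'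
      have hcx := hg.cx c c'
      have h1 := Finset.le_card_sdiff Nb (Q c' \ R)
      have h2 := hbig c'
      have h3 := H2 c c' hcc (Rx c c') ((Q c' \ R) \ Nb) (hg.sx c c')
        (Finset.sdiff_subset.trans Finset.sdiff_subset) hc (by omega)
      have h4 : ew ν (Rx c c') ((Q c' \ R) \ Nb) = 0 := by
        unfold ew
        refine Finset.sum_eq_zero fun x hx => Finset.sum_eq_zero fun y hy => ?_
        rw [Finset.mem_sdiff] at hy
        by_contra hne
        exact hy.2 (Finset.mem_filter.2 ⟨hy.1, x, hx, Nat.pos_of_ne_zero hne⟩)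
      rw [h4] at h3
      omega

end Pool.Agent.PUG
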