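import Pool.Agent.PUG.Defs

set_option autoImplicit false

namespace Pool.Agent.PUG

open Classical in
private theorem fun_count {V κ ι : Type} [Fintype V] [Fintype κ] {b : ℕ} (U : Finset ι)
    (P Q : ι → κ × Fin b) (hQ : ∀ i ∈ U, ∀ j ∈ U, Q i = Q j → i = j)
    (hPQ : ∀ i ∈ U, ∀ j ∈ U, P i ≠ Q j) (T : Finset (κ → Fin b → V))
    (hT : ∀ f ∈ T, ∀ i ∈ U, f (P i).1 (P i).2 = f (Q i).1 (Q i).2) :
    (Fintype.card V) ^ U.card * T.card ≤ Fintype.card (κ → Fin b → V) := by
  let F : (U → V) × T → (κ → Fin b → V) := fun z k v =>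
    if hx : ∃ i : U, Q i = (k, v) then z.1 hx.choose else z.2.1 k v
  have e1 : ∀ z (i : U), F z (Q i).1 (Q i).2 = z.1 i := by
    intro z i
    have hx : ∃ j : U, Q j = ((Q i).1, (Q i).2) := ⟨i, rfl⟩
    have hc : hx.choose = i := Subtype.ext (hQ _ hx.choose.2 _ i.2 hx.choose_spec)
    simp only [F]
    rw [dif_pos hx, hc]
  have e2 : ∀ z k v, (¬ ∃ i : U, Q i = (k, v)) → F z k v = z.2.1 k v := by
    intro z k v hx
    simp only [F]
    rw [dif_neg hx]
  have hF : Function.Injective F := by
    intro z z' he
    have h1 : z.1 = z'.1 := by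
      funext i
      rw [← e1 z i, ← e1 z' i, he]
    have h2 : ∀ k v, (¬ ∃ i : U, Q i = (k, v)) → z.2.1 k v = z'.2.1 k v := by
      intro k v hx
      rw [← e2 z k v hx, ← e2 z' k v hx, he]
    refine Prod.ext h1 (Subtype.ext ?_)
    funext k v
    by_cases hx : ∃ i : U, Q i = (k, v)
    · obtain ⟨i, hi⟩ := hx
      have hn : ¬ ∃ j : U, Q j = ((P i).1, (P i).2) := by
        rintro ⟨j, hj⟩
        exact hPQ i i.2 j j.2 hj.symm
      have h3 := h2 _ _ hn
      rw [hT _ z.2.2 i i.2, hT _ z'.2.2 i i.2, hi] at h3
      exact h3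
    · exact h2 k v hx
  have h := Fintype.card_le_of_injective F hF
  rw [Fintype.card_prod, Fintype.card_fun, Fintype.card_coe, Fintype.card_coe] at h
  exact h

private theorem fin4_all (S : Fin 4 → Prop) (i : Fin 4) (hi : S i) (h : ∀ j, S (j + 1) → S j) :
    ∀ j, S j := by
  have h0 : S 1 → S 0 := h 0
  have h1 : S 2 → S 1 := h 1
  have h2 : S 3 → S 2 := h 2
  have h3 : S 0 → S 3 := h 3
  have hh : S 0 ∨ S 1 ∨ S 2 ∨ S 3 := by
    fin_cases i
    · exact Or.inl hi
    · exact Or.inr (Or.inl hi)
    · exact Or.inr (Or.inr (Or.inl hi))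
    · exact Or.inr (Or.inr (Or.inr hi))
  have a0 : S 0 := by tauto
  have a3 : S 3 := h3 a0
  have a2 : S 2 := h2 a3
  have a1 : S 1 := h1 a2
  intro j
  fin_cases j
  · exact a0
  · exact a1
  · exact a2
  · exact a3

open Classical in
private noncomputable def us {κ β : Type} (p : Fin 4 → κ × β × β) : Finset (Fin 4) :=
  Finset.univ.filter fun i => (p (i + 1)).1 ≠ (p i).1

private theorem mem_us {κ β : Type} {p : Fin 4 → κ × β × β} {i : Fin 4} :
    i ∈ us p ↔ (p (i + 1)).1 ≠ (p i).1 := by
  simp [us]

open Classical in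
private theorem us_count {κ β : Type} [Fintype κ] [Fintype β] (U : Finset (Fin 4))
    (hU : U.Nonempty) :
    (Finset.univ.filter (fun p : Fin 4 → κ × β × β => us p = U)).card ≤
      (Fintype.card β) ^ 8 * (Fintype.card κ) ^ U.card := by
  let F : {p : Fin 4 → κ × β × β // us p = U} → (U → κ) × (Fin 4 → β × β) :=
    fun p => (fun i => (p.1 i).1, fun i => (p.1 i).2)
  have hF : Function.Injective F := by
    rintro ⟨p, hp⟩ ⟨p', hp'⟩ he
    have h1 : ∀ i ∈ U, (p i).1 = (p' i).1 := by
      intro i hi
      exact congrFun (congrArg Prod.fst he) ⟨i, hi⟩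
    have h2 : ∀ i, (p i).2 = (p' i).2 := by
      intro i
      exact congrFun (congrArg Prod.snd he) i
    obtain ⟨i₀, hi₀⟩ := hU
    have h3 : ∀ j, (p j).1 = (p' j).1 := by
      refine fin4_all (fun j => (p j).1 = (p' j).1) i₀ (h1 i₀ hi₀) fun j hj => ?_
      by_cases hjU : j ∈ U
      · exact h1 j hjU
      · have e1 : (p (j + 1)).1 = (p j).1 := by
          by_contra hne
          exact hjU (hp ▸ mem_us.2 hne)
        have e2 : (p' (j + 1)).1 = (p' j).1 := by
          by_contra hne
          exact hjU (hp' ▸ mem_us.2 hne)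
        rw [← e1, ← e2]
        exact hj
    apply Subtype.ext
    funext j
    exact Prod.ext (h3 j) (h2 j)
  have h := Fintype.card_le_of_injective F hF
  rw [Fintype.card_prod, Fintype.card_fun, Fintype.card_fun, Fintype.card_coe, Fintype.card_prod,
    Fintype.card_fin, Fintype.card_subtype] at h
  calc _ ≤ _ := h
    _ = _ := by ring

open Classical in
private theorem cross_fix {V κ : Type} [Fintype V] [Fintype κ] {b : ℕ} (B : SimpleGraph (Fin b))
    (p : Fin 4 → κ × Fin b × Fin b) :
    (Fintype.card V) ^ 4 * (Finset.univ.filter (fun f : κ → Fin b → V => Cross B f p)).card ≤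
      if (us p).Nonempty then
        (Fintype.card V) ^ (4 - (us p).card) * Fintype.card (κ → Fin b → V) else 0 := by
  by_cases hex : ∃ f : κ → Fin b → V, Cross B f p
  · obtain ⟨f, hf⟩ := hex
    have hUne : (us p).Nonempty := by
      by_contra hne
      rw [Finset.not_nonempty_iff_eq_empty] at hne
      apply hf.2.2.2
      have h1 : ∀ j, (p (j + 1)).1 = (p j).1 := by
        intro j
        by_contra hj
        have := mem_us.2 hj
        rw [hne] at this
        exact absurd this (Finset.notMem_empty _)
      have h2 : ∀ j, (p j).1 = (p 0).1 := by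
        refine fin4_all (fun j => (p j).1 = (p 0).1) 0 rfl fun j hj => ?_
        rw [← h1 j]
        exact hj
      intro i j
      rw [h2 i, h2 j]
    rw [if_pos hUne]
    have hcard : (us p).card ≤ 4 := by
      have := Finset.card_le_univ (us p)
      simpa using this
    have hQ : ∀ i ∈ us p, ∀ j ∈ us p,
        (((p (i + 1)).1, (p (i + 1)).2.1) : κ × Fin b) = ((p (j + 1)).1, (p (j + 1)).2.1) →
          i = j := by
      intro i _ j _ hij
      have h1 := congrArg Prod.fst hij
      have h2 := congrArg Prod.snd hij
      simp only at h1 h2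
      have h3 : i + 1 = j + 1 := hf.2.2.1 (by
        simp only
        rw [h1, h2])
      exact add_right_cancel h3
    have hPQ : ∀ i ∈ us p, ∀ j ∈ us p,
        (((p i).1, (p i).2.2) : κ × Fin b) ≠ ((p (j + 1)).1, (p (j + 1)).2.1) := by
      intro i hi j _ hij
      have h1 := congrArg Prod.fst hij
      have h2 := congrArg Prod.snd hij
      simp only at h1 h2
      have h3 := hf.2.1 i
      rw [h1, h2] at h3
      have h4 : j + 1 = i + 1 := hf.2.2.1 h3
      have h5 : j = i := add_right_cancel h4
      rw [h5] at h1
      exact mem_us.1 hi h1.symm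
    have h := fun_count (V := V) (us p) (fun i => ((p i).1, (p i).2.2))
      (fun i => ((p (i + 1)).1, (p (i + 1)).2.1)) hQ hPQ
      (Finset.univ.filter (fun f : κ → Fin b → V => Cross B f p))
      (fun g hg i _ => (Finset.mem_filter.1 hg).2.2.1 i)
    calc (Fintype.card V) ^ 4 *
          (Finset.univ.filter (fun f : κ → Fin b → V => Cross B f p)).card
        = (Fintype.card V) ^ (4 - (us p).card) * ((Fintype.card V) ^ (us p).card *
          (Finset.univ.filter (fun f : κ → Fin b → V => Cross B f p)).card) := by
          rw [← mul_assoc, ← pow_add, Nat.sub_add_cancel hcard]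
      _ ≤ _ := Nat.mul_le_mul_left _ h
  · have h0 : (Finset.univ.filter (fun f : κ → Fin b → V => Cross B f p)) = ∅ := by
      rw [Finset.filter_eq_empty_iff]
      intro f _ hf
      exact hex ⟨f, hf⟩
    rw [h0, Finset.card_empty, mul_zero]
    exact Nat.zero_le _

open Classical in
/-- Expected number of crossing 4-cycles. -/
theorem cross_count {V κ : Type} [Fintype V] [Fintype κ] {b : ℕ} (B : SimpleGraph (Fin b))
    (hle : Fintype.card V ≤ Fintype.card κ) :
    (Fintype.card V) ^ 4 *
      ∑ f : κ → Fin b → V,
        (Finset.univ.filter (fun p : Fin 4 → κ × Fin b × Fin b => Cross B f p)).card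
      ≤ 16 * b ^ 8 * (Fintype.card κ) ^ 4 * Fintype.card (κ → Fin b → V) := by
  have swap : ∑ f : κ → Fin b → V,
        (Finset.univ.filter (fun p : Fin 4 → κ × Fin b × Fin b => Cross B f p)).card =
      ∑ p : Fin 4 → κ × Fin b × Fin b,
        (Finset.univ.filter (fun f : κ → Fin b → V => Cross B f p)).card := by
    simp_rw [Finset.card_filter]
    exact Finset.sum_comm
  rw [swap, Finset.mul_sum]
  calc ∑ p : Fin 4 → κ × Fin b × Fin b, (Fintype.card V) ^ 4 *
          (Finset.univ.filter (fun f : κ → Fin b → V => Cross B f p)).card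
      ≤ ∑ p : Fin 4 → κ × Fin b × Fin b, (if (us p).Nonempty then
        (Fintype.card V) ^ (4 - (us p).card) * Fintype.card (κ → Fin b → V) else 0) :=
        Finset.sum_le_sum fun p _ => cross_fix B p
    _ = ∑ U : Finset (Fin 4), ∑ p ∈ Finset.univ.filter
          (fun p : Fin 4 → κ × Fin b × Fin b => us p = U), (if (us p).Nonempty then
        (Fintype.card V) ^ (4 - (us p).card) * Fintype.card (κ → Fin b → V) else 0) :=
        (Finset.sum_fiberwise Finset.univ us _).symm
    _ ≤ ∑ _U : Finset (Fin 4), b ^ 8 * (Fintype.card κ) ^ 4 *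
          Fintype.card (κ → Fin b → V) := by
        refine Finset.sum_le_sum fun U _ => ?_
        have h1 : ∑ p ∈ Finset.univ.filter
            (fun p : Fin 4 → κ × Fin b × Fin b => us p = U), (if (us p).Nonempty then
              (Fintype.card V) ^ (4 - (us p).card) * Fintype.card (κ → Fin b → V) else 0) =
            (Finset.univ.filter (fun p : Fin 4 → κ × Fin b × Fin b => us p = U)).card *
              (if U.Nonempty then
              (Fintype.card V) ^ (4 - U.card) * Fintype.card (κ → Fin b → V) else 0) := by
          rw [← smul_eq_mul, ← Finset.sum_const]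
          refine Finset.sum_congr rfl fun p hp => ?_
          rw [(Finset.mem_filter.1 hp).2]
        rw [h1]
        by_cases hU : U.Nonempty
        · rw [if_pos hU]
          have hcard : U.card ≤ 4 := by
            have := Finset.card_le_univ U
            simpa using this
          have h2 := us_count (κ := κ) (β := Fin b) U hU
          rw [Fintype.card_fin] at h2
          calc _ ≤ (b ^ 8 * (Fintype.card κ) ^ U.card) *
                ((Fintype.card V) ^ (4 - U.card) * Fintype.card (κ → Fin b → V)) :=
                Nat.mul_le_mul_right _ h2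
            _ ≤ (b ^ 8 * (Fintype.card κ) ^ U.card) *
                ((Fintype.card κ) ^ (4 - U.card) * Fintype.card (κ → Fin b → V)) :=
                Nat.mul_le_mul_left _ (Nat.mul_le_mul_right _ (Nat.pow_le_pow_left hle _))
            _ = b ^ 8 * ((Fintype.card κ) ^ U.card * (Fintype.card κ) ^ (4 - U.card)) *
                Fintype.card (κ → Fin b → V) := by ring
            _ = _ := by
                rw [← pow_add, Nat.add_sub_cancel' hcard]
        · rw [if_neg hU, mul_zero]
          exact Nat.zero_le _
    _ = _ := by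
        rw [Finset.sum_const, Finset.card_univ, Fintype.card_finset, Fintype.card_fin,
          smul_eq_mul]
        ring

open Classical in
/-- Expected number of non-injective blocks. -/
theorem noninj_count {V κ : Type} [Fintype V] [Fintype κ] {b : ℕ} :
    Fintype.card V *
      ∑ f : κ → Fin b → V, (Finset.univ.filter (fun k => ¬ Function.Injective (f k))).card
      ≤ b ^ 2 * Fintype.card κ * Fintype.card (κ → Fin b → V) := by
  have swap : ∑ f : κ → Fin b → V,
        (Finset.univ.filter (fun k => ¬ Function.Injective (f k))).card =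
      ∑ k : κ, (Finset.univ.filter (fun f : κ → Fin b → V => ¬ Function.Injective (f k))).card := by
    simp_rw [Finset.card_filter]
    exact Finset.sum_comm
  rw [swap, Finset.mul_sum]
  have hfix : ∀ (k : κ) (z : Fin b × Fin b), Fintype.card V *
      (if z.1 ≠ z.2 then (Finset.univ.filter (fun f : κ → Fin b → V => f k z.1 = f k z.2)).card
        else 0) ≤ Fintype.card (κ → Fin b → V) := by
    intro k z
    by_cases hz : z.1 ≠ z.2
    · rw [if_pos hz]
      have h := fun_count (V := V) (κ := κ) (b := b) (Finset.univ : Finset (Fin 1))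
        (fun _ => (k, z.1)) (fun _ => (k, z.2)) (fun i _ j _ _ => Subsingleton.elim i j)
        (fun i _ j _ h => hz (congrArg Prod.snd h))
        (Finset.univ.filter (fun f : κ → Fin b → V => f k z.1 = f k z.2))
        (fun f hf _ _ => (Finset.mem_filter.1 hf).2)
      rw [Finset.card_univ, Fintype.card_fin, pow_one] at h
      exact h
    · rw [if_neg hz, mul_zero]
      exact Nat.zero_le _
  have hk : ∀ k : κ, Fintype.card V *
      (Finset.univ.filter (fun f : κ → Fin b → V => ¬ Function.Injective (f k))).card ≤
        b ^ 2 * Fintype.card (κ → Fin b → V) := by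
    intro k
    have hsub : (Finset.univ.filter (fun f : κ → Fin b → V => ¬ Function.Injective (f k))) ⊆
        (Finset.univ : Finset (Fin b × Fin b)).biUnion (fun z =>
          if z.1 ≠ z.2 then Finset.univ.filter (fun f : κ → Fin b → V => f k z.1 = f k z.2)
          else ∅) := by
      intro f hf
      rw [Finset.mem_filter] at hf
      have h1 := hf.2
      unfold Function.Injective at h1
      push Not at h1
      obtain ⟨v, w, hvw, hne⟩ := h1
      rw [Finset.mem_biUnion]
      refine ⟨(v, w), Finset.mem_univ _, ?_⟩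
      rw [if_pos hne, Finset.mem_filter]
      exact ⟨Finset.mem_univ _, hvw⟩
    have h2 : (Finset.univ.filter (fun f : κ → Fin b → V => ¬ Function.Injective (f k))).card ≤
        ∑ z : Fin b × Fin b, (if z.1 ≠ z.2 then
          (Finset.univ.filter (fun f : κ → Fin b → V => f k z.1 = f k z.2)).card else 0) := by
      refine le_trans (Finset.card_le_card hsub) (le_trans Finset.card_biUnion_le ?_)
      refine Finset.sum_le_sum fun z _ => ?_
      by_cases hz : z.1 ≠ z.2
      · rw [if_pos hz, if_pos hz]
      · rw [if_neg hz, if_neg hz, Finset.card_empty]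
    calc _ ≤ Fintype.card V * _ := Nat.mul_le_mul_left _ h2
      _ ≤ ∑ _z : Fin b × Fin b, Fintype.card (κ → Fin b → V) := by
          rw [Finset.mul_sum]
          exact Finset.sum_le_sum fun z _ => hfix k z
      _ = _ := by
          rw [Finset.sum_const, Finset.card_univ, Fintype.card_prod, Fintype.card_fin,
            smul_eq_mul]
          ring
  calc _ ≤ ∑ _k : κ, b ^ 2 * Fintype.card (κ → Fin b → V) :=
        Finset.sum_le_sum fun k _ => hk k
    _ = _ := by
        rw [Finset.sum_const, Finset.card_univ, smul_eq_mul]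
        ring

end Pool.Agent.PUG
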