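import Pool.Agent.PUG.Defs

set_option autoImplicit false

namespace Pool.Agent.PUG

/-- invariant of the depth first search -/
private structure DFS_Inv {V : Type} [DecidableEq V] (A : Finset V) (adj : V → V → Prop)
    (S : Finset V) (p : List V) (T : Finset V) : Prop where
  hS : S ⊆ A
  hT : T ⊆ A
  hp : ∀ z ∈ p, z ∈ A
  st : Disjoint S T
  ps : ∀ z ∈ p, z ∉ S
  pt : ∀ z ∈ p, z ∉ T
  nd : p.Nodup
  ch : List.IsChain adj p
  ne : ∀ u ∈ S, ∀ v ∈ T, ¬ adj u v
  card : S.card + p.length + T.card = A.card

private theorem DFS_step {V : Type} [DecidableEq V] {A : Finset V} {adj : V → V → Prop}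
    (hsymm : ∀ u v, adj u v → adj v u) {S T : Finset V} {p : List V}
    (h : DFS_Inv A adj S p T) (hT : T.Nonempty) :
    ∃ S' p' T', DFS_Inv A adj S' p' T' ∧ T'.card + 1 + S.card = T.card + S'.card := by
  cases p with
  | nil =>
    obtain ⟨t, ht⟩ := hT
    refine ⟨S, [t], T.erase t, ⟨h.hS, (Finset.erase_subset _ _).trans h.hT, ?_, ?_, ?_, ?_,
      by simp, by simp, ?_, ?_⟩, ?_⟩
    · intro z hz
      rw [List.mem_singleton] at hz
      exact hz ▸ h.hT ht
    · exact h.st.mono_right (Finset.erase_subset _ _)
    · intro z hz hzS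
      rw [List.mem_singleton] at hz
      exact Finset.disjoint_left.1 h.st hzS (hz ▸ ht)
    · intro z hz
      rw [List.mem_singleton] at hz
      rw [hz]
      exact Finset.notMem_erase t T
    · intro u hu v hv
      exact h.ne u hu v (Finset.mem_of_mem_erase hv)
    · have h1 := Finset.card_erase_add_one ht
      have h2 := h.card
      simp only [List.length_nil, List.length_cons] at h2 ⊢
      omega
    · have h1 := Finset.card_erase_add_one ht
      omega
  | cons a p =>
    by_cases hex : ∃ t ∈ T, adj t a
    · obtain ⟨t, ht, hta⟩ := hex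
      refine ⟨S, t :: a :: p, T.erase t, ⟨h.hS, (Finset.erase_subset _ _).trans h.hT, ?_, ?_, ?_,
        ?_, ?_, ?_, ?_, ?_⟩, ?_⟩
      · intro z hz
        rcases List.mem_cons.1 hz with hz | hz
        · exact hz ▸ h.hT ht
        · exact h.hp z hz
      · exact h.st.mono_right (Finset.erase_subset _ _)
      · intro z hz hzS
        rcases List.mem_cons.1 hz with hz | hz
        · exact Finset.disjoint_left.1 h.st hzS (hz ▸ ht)
        · exact h.ps z hz hzS
      · intro z hz hzT
        rcases List.mem_cons.1 hz with hz | hz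
        · rw [hz] at hzT
          exact Finset.notMem_erase t T hzT
        · exact h.pt z hz (Finset.mem_of_mem_erase hzT)
      · refine List.nodup_cons.2 ⟨?_, h.nd⟩
        intro hmem
        exact h.pt t hmem ht
      · exact List.isChain_cons_cons.2 ⟨hta, h.ch⟩
      · intro u hu v hv
        exact h.ne u hu v (Finset.mem_of_mem_erase hv)
      · have h1 := Finset.card_erase_add_one ht
        have h2 := h.card
        simp only [List.length_cons] at h2 ⊢
        omega
      · have h1 := Finset.card_erase_add_one ht
        omega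
    · have ha : a ∈ a :: p := List.mem_cons_self
      have haS : a ∉ S := h.ps a ha
      have haT : a ∉ T := h.pt a ha
      have hnd := List.nodup_cons.1 h.nd
      refine ⟨insert a S, p, T, ⟨?_, h.hT, ?_, ?_, ?_, ?_, hnd.2, ?_, ?_, ?_⟩, ?_⟩
      · intro z hz
        rcases Finset.mem_insert.1 hz with hz | hz
        · exact hz ▸ h.hp a ha
        · exact h.hS hz
      · intro z hz
        exact h.hp z (List.mem_cons_of_mem _ hz)
      · rw [Finset.disjoint_insert_left]
        exact ⟨haT, h.st⟩
      · intro z hz hzS
        rcases Finset.mem_insert.1 hzS with hz' | hz'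
        · exact hnd.1 (hz' ▸ hz)
        · exact h.ps z (List.mem_cons_of_mem _ hz) hz'
      · intro z hz
        exact h.pt z (List.mem_cons_of_mem _ hz)
      · exact h.ch.tail
      · intro u hu v hv hadj
        rcases Finset.mem_insert.1 hu with hu | hu
        · exact hex ⟨v, hv, hsymm _ _ (hu ▸ hadj)⟩
        · exact h.ne u hu v hv hadj
      · have h2 := h.card
        rw [Finset.card_insert_of_notMem haS]
        simp only [List.length_cons] at h2
        omega
      · rw [Finset.card_insert_of_notMem haS]
        omega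

/-- Depth first search: without large bipartite holes there is a long path. -/
theorem dfs_path {V : Type} [DecidableEq V] (A : Finset V) (adj : V → V → Prop)
    (hsymm : ∀ u v, adj u v → adj v u) (x : ℕ)
    (hole : ∀ X Y : Finset V, X ⊆ A → Y ⊆ A → Disjoint X Y → x ≤ X.card → x ≤ Y.card →
      ∃ u ∈ X, ∃ v ∈ Y, adj u v) :
    ∃ l : List V, l.Nodup ∧ List.IsChain adj l ∧ (∀ z ∈ l, z ∈ A) ∧ A.card ≤ l.length + 2 * x := by
  have key : ∀ j, j ≤ A.card → ∃ S p T, DFS_Inv A adj S p T ∧ T.card + j = S.card + A.card := by
    intro j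
    induction j with
    | zero =>
      intro _
      exact ⟨∅, [], A, ⟨Finset.empty_subset _, Finset.Subset.refl _, by simp, by simp, by simp,
        by simp, List.nodup_nil, by simp, by simp, by simp⟩, by simp⟩
    | succ j ih =>
      intro hj
      obtain ⟨S, p, T, hI, hc⟩ := ih (Nat.le_of_succ_le hj)
      have hT : T.Nonempty := by
        rw [← Finset.card_pos]
        omega
      obtain ⟨S', p', T', hI', hc'⟩ := DFS_step hsymm hI hT
      exact ⟨S', p', T', hI', by omega⟩
  obtain ⟨S, p, T, hI, hc⟩ := key A.card le_rfl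
  refine ⟨p, hI.nd, hI.ch, hI.hp, ?_⟩
  have hcard := hI.card
  by_cases hx : x ≤ S.card
  · obtain ⟨u, hu, v, hv, huv⟩ := hole S T hI.hS hI.hT hI.st hx (by omega)
    exact absurd huv (hI.ne u hu v hv)
  · omega

end Pool.Agent.PUG
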