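import Pool.Agent.PUG.Defs

set_option autoImplicit false

namespace Pool.Agent.PUG

open Classical in
/-- The sets reachable from `x` in exactly `j` steps along the pieces. -/
noncomputable def expZ {V ι : Type} (Q : ι → Finset V) (ν : V → V → ℕ) (c : ℕ → ι) (x : V) :
    ℕ → Finset V
  | 0 => {x}
  | j + 1 => (Q (c (j + 1))).filter (fun y => ∃ x' ∈ expZ Q ν c x j, 0 < ν x' y)

theorem expZ_sub {V ι : Type} (Q : ι → Finset V) (ν : V → V → ℕ) (c : ℕ → ι) (x : V)
    (hx : x ∈ Q (c 0)) : ∀ j, expZ Q ν c x j ⊆ Q (c j)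
  | 0 => by
      intro y hy
      rw [expZ, Finset.mem_singleton] at hy
      rw [hy]; exact hx
  | j + 1 => by
      intro y hy
      rw [expZ, Finset.mem_filter] at hy
      exact hy.1

theorem expZ_path {V ι : Type} (Q : ι → Finset V) (ν : V → V → ℕ) (c : ℕ → ι) (x : V)
    (hx : x ∈ Q (c 0)) : ∀ j, ∀ z ∈ expZ Q ν c x j, ∃ p : ℕ → V, p 0 = x ∧ p j = z ∧
      (∀ i ≤ j, p i ∈ Q (c i)) ∧ ∀ i < j, 0 < ν (p i) (p (i + 1))
  | 0 => by
      intro z hz
      rw [expZ, Finset.mem_singleton] at hz
      refine ⟨fun _ => x, rfl, hz.symm, ?_, ?_⟩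
      · intro i hi
        have : i = 0 := by omega
        subst this; exact hx
      · intro i hi; omega
  | j + 1 => by
      intro z hz
      rw [expZ, Finset.mem_filter] at hz
      obtain ⟨hzQ, x', hx', hν⟩ := hz
      obtain ⟨p, hp0, hpj, hpQ, hpν⟩ := expZ_path Q ν c x hx j x' hx'
      refine ⟨fun i => if i ≤ j then p i else z, ?_, ?_, ?_, ?_⟩
      · simp [hp0]
      · simp
      · intro i hi
        by_cases h : i ≤ j
        · simp only [h, if_true]; exact hpQ i h
        · have : i = j + 1 := by omega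
          subst this
          simpa using hzQ
      · intro i hi
        by_cases h : i < j
        · have h1 : i ≤ j := by omega
          have h2 : i + 1 ≤ j := by omega
          simp only [h1, h2, if_true]
          exact hpν i h
        · have : i = j := by omega
          subst this
          simp [hpj, hν]

open Classical in
/-- Expansion of a single vertex along a sequence of pieces, in exactly `t` steps. -/
theorem expand {V ι : Type} (adj : ι → ι → Prop) (Q : ι → Finset V) (ν : V → V → ℕ)
    (h e q0 s t : ℕ) (hq0 : 1 ≤ q0) (ht : 8 ≤ t) (hqt : q0 ≤ 2 ^ (t - 8)) (hs : s ≤ h ^ 8)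
    (hs' : h ^ 8 ≤ q0 * s)
    (H1 : ∀ A C : Finset V, A.Nonempty → C.card ≤ h * A.card → q0 * C.card ≤ h ^ 8 →
      e * ew ν A C < h ^ 2 * A.card)
    (G1 : ∀ c c', adj c c' → ∀ x ∈ Q c, h ^ 2 ≤ e * ew ν {x} (Q c'))
    (G2 : ∀ c c', adj c c' → ∀ Z : Finset V, Z ⊆ Q c → Z.card ≤ s →
      2 * Z.card ≤ ((Q c').filter (fun y => ∃ x ∈ Z, 0 < ν x y)).card)
    (c : ℕ → ι) (hc : ∀ j < t, adj (c j) (c (j + 1))) (x : V) (hx : x ∈ Q (c 0)) :
    ∃ Z : Finset V, Z ⊆ Q (c t) ∧ s ≤ Z.card ∧ ∀ z ∈ Z, ∃ p : ℕ → V, p 0 = x ∧ p t = z ∧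
      (∀ j ≤ t, p j ∈ Q (c j)) ∧ ∀ j < t, 0 < ν (p j) (p (j + 1)) := by
  by_cases hs0 : s = 0
  · exact ⟨∅, by simp, by simp [hs0], by simp⟩
  have hh : 1 ≤ h := by
    rcases Nat.eq_zero_or_pos h with h0 | h0
    · subst h0
      simp at hs; exact absurd hs hs0
    · exact h0
  set Z : ℕ → Finset V := expZ Q ν c x with hZ
  have hZ0 : Z 0 = {x} := rfl
  have hZs : ∀ j, Z (j + 1) = (Q (c (j + 1))).filter (fun y => ∃ x' ∈ Z j, 0 < ν x' y) :=
    fun j => rfl
  have hZQ : ∀ j, Z j ⊆ Q (c j) := expZ_sub Q ν c x hx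
  -- doubling
  have hD : ∀ j < t, 2 * min (Z j).card s ≤ (Z (j + 1)).card := by
    intro j hj
    obtain ⟨Y, hY, hYc⟩ := Finset.exists_subset_card_eq (Nat.min_le_left (Z j).card s)
    have h1 := G2 _ _ (hc j hj) Y (hY.trans (hZQ j)) (by rw [hYc]; exact Nat.min_le_right _ _)
    rw [hYc] at h1
    refine h1.trans (Finset.card_le_card ?_)
    rw [hZs]
    intro y hy
    rw [Finset.mem_filter] at hy ⊢
    obtain ⟨hyQ, x', hx', hν⟩ := hy
    exact ⟨hyQ, x', hY hx', hν⟩
  have hA : ∀ j ≤ 8, h ^ j ≤ (Z j).card ∨ h ^ 8 ≤ q0 * (Z j).card := by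
    intro j
    induction j with
    | zero => intro _; left; simp [hZ0]
    | succ j ih =>
      intro hj
      have hjt : j < t := by omega
      by_cases hb : h ^ 8 ≤ q0 * (Z j).card
      · right
        have h1 := hD j hjt
        rcases le_total (Z j).card s with hle | hle
        · rw [min_eq_left hle] at h1
          calc h ^ 8 ≤ q0 * (Z j).card := hb
            _ ≤ q0 * (Z (j + 1)).card := Nat.mul_le_mul_left _ (by omega)
        · rw [min_eq_right hle] at h1
          calc h ^ 8 ≤ q0 * s := hs'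
            _ ≤ q0 * (Z (j + 1)).card := Nat.mul_le_mul_left _ (by omega)
      · have h1 : h ^ j ≤ (Z j).card := by
          rcases ih (by omega) with h1 | h1
          · exact h1
          · exact absurd h1 hb
        have hne : (Z j).Nonempty := by
          rw [← Finset.card_pos]
          exact lt_of_lt_of_le (Nat.pow_pos hh) h1
        have hlow : h ^ 2 * (Z j).card ≤ e * ew ν (Z j) (Z (j + 1)) := by
          have h2 : ∀ y ∈ Z j, h ^ 2 ≤ e * ∑ z ∈ Z (j + 1), ν y z := by
            intro y hy
            have h3 := G1 _ _ (hc j hjt) y (hZQ j hy)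
            have h4 : ew ν {y} (Q (c (j + 1))) = ∑ z ∈ Z (j + 1), ν y z := by
              rw [ew, Finset.sum_singleton, hZs]
              rw [Finset.sum_filter]
              refine Finset.sum_congr rfl ?_
              intro z _
              split_ifs with h5
              · rfl
              · by_contra h6
                exact h5 ⟨y, hy, Nat.pos_of_ne_zero h6⟩
            rw [h4] at h3
            exact h3
          rw [ew, Finset.mul_sum]
          calc h ^ 2 * (Z j).card = ∑ y ∈ Z j, h ^ 2 := by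
                rw [Finset.sum_const, smul_eq_mul, mul_comm]
            _ ≤ _ := Finset.sum_le_sum h2
        by_cases h5 : (Z (j + 1)).card ≤ h * (Z j).card
        · by_cases h6 : q0 * (Z (j + 1)).card ≤ h ^ 8
          · exact absurd (H1 _ _ hne h5 h6) (by omega)
          · right; omega
        · left
          calc h ^ (j + 1) = h * h ^ j := by rw [pow_succ, mul_comm]
            _ ≤ h * (Z j).card := Nat.mul_le_mul_left _ h1
            _ ≤ _ := by omega
  have hB : ∀ i, 8 + i ≤ t → s ≤ (Z (8 + i)).card ∨ 2 ^ i * h ^ 8 ≤ q0 * (Z (8 + i)).card := by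
    intro i
    induction i with
    | zero =>
      intro _
      rcases hA 8 le_rfl with h1 | h1
      · left; exact hs.trans h1
      · right; simpa using h1
    | succ i ih =>
      intro hi
      have hjt : 8 + i < t := by omega
      have h1 := hD (8 + i) hjt
      have e1 : 8 + (i + 1) = 8 + i + 1 := by omega
      rw [e1]
      rcases le_total s (Z (8 + i)).card with hle | hle
      · left
        rw [min_eq_right hle] at h1
        omega
      · rw [min_eq_left hle] at h1
        rcases ih (by omega) with h2 | h2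
        · left; omega
        · right
          calc 2 ^ (i + 1) * h ^ 8 = 2 * (2 ^ i * h ^ 8) := by ring
            _ ≤ 2 * (q0 * (Z (8 + i)).card) := Nat.mul_le_mul_left _ h2
            _ = q0 * (2 * (Z (8 + i)).card) := by ring
            _ ≤ _ := Nat.mul_le_mul_left _ h1
  refine ⟨Z t, hZQ t, ?_, expZ_path Q ν c x hx t⟩
  have h8 := hB (t - 8) (by omega)
  have e2 : 8 + (t - 8) = t := by omega
  rw [e2] at h8
  rcases h8 with h8 | h8
  · exact h8
  · have h9 : q0 * h ^ 8 ≤ q0 * (Z t).card := (Nat.mul_le_mul_right _ hqt).trans h8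
    exact hs.trans (Nat.le_of_mul_le_mul_left h9 hq0)

end Pool.Agent.PUG
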