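import Pool.Agent.PUG.CLN
import Pool.Agent.PUG.EXP
import Pool.Agent.PUG.DFS

set_option autoImplicit false

namespace Pool.Agent.PUG

private theorem CYC_split {V : Type} (W : Finset V) (k w : ℕ) (h : k * w ≤ W.card) :
    ∃ Q : Fin k → Finset V, (∀ j, Q j ⊆ W) ∧ (∀ j, (Q j).card = w) ∧
      ∀ j j', j ≠ j' → Disjoint (Q j) (Q j') := by
  classical
  have h1 : Fintype.card (Fin k × Fin w) ≤ Fintype.card {x // x ∈ W} := by
    simpa using h
  obtain ⟨g⟩ := Function.Embedding.nonempty_of_card_le h1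
  refine ⟨fun j => Finset.univ.image (fun i => (g (j, i)).1), ?_, ?_, ?_⟩
  · intro j x hx
    obtain ⟨i, _, rfl⟩ := Finset.mem_image.1 hx
    exact (g (j, i)).2
  · intro j
    rw [Finset.card_image_of_injective _ ?_, Finset.card_univ, Fintype.card_fin]
    intro i i' hii
    have h2 := g.injective (Subtype.ext hii)
    exact (Prod.mk.inj h2).2
  · intro j j' hjj
    rw [Finset.disjoint_left]
    intro x hx hx'
    obtain ⟨i, _, rfl⟩ := Finset.mem_image.1 hx
    obtain ⟨i', _, hi'⟩ := Finset.mem_image.1 hx'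
    have h2 := g.injective (Subtype.ext hi')
    exact hjj (Prod.mk.inj h2).1.symm

private theorem CYC_walk (t : ℕ) (ht : 2 ≤ t) (α : Fin 3) :
    ∀ γ : Fin 3, ∃ p : ℕ → Fin 3, p 0 = α ∧ p t = γ ∧ ∀ j < t, p j ≠ p (j + 1) := by
  induction t, ht using Nat.le_induction with
  | base =>
    intro γ
    obtain ⟨δ, h1, h2⟩ : ∃ δ : Fin 3, δ ≠ α ∧ δ ≠ γ := by
      revert α γ
      decide
    refine ⟨fun j => if j = 0 then α else if j = 1 then δ else γ, by simp, by simp, ?_⟩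
    intro j hj
    interval_cases j
    · simpa using h1.symm
    · simpa using h2
  | succ t ht ih =>
    intro γ
    obtain ⟨δ, h1⟩ : ∃ δ : Fin 3, δ ≠ γ := by
      revert γ
      decide
    obtain ⟨p, h0, hp, hc⟩ := ih δ
    refine ⟨fun j => if j = t + 1 then γ else p j, ?_, ?_, ?_⟩
    · simpa using h0
    · simp
    · intro j hj
      have h3 : j ≠ t + 1 := by omega
      simp only [h3, if_false]
      by_cases h4 : j = t
      · subst h4
        simpa [hp] using h1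
      · have h5 : j + 1 ≠ t + 1 := by omega
        simp only [h5, if_false]
        exact hc j (by omega)

private theorem CYC_edge {V : Type} (ν : V → V → ℕ) (X Y : Finset V) (n e : ℕ)
    (h : n < e * ew ν X Y) : ∃ x ∈ X, ∃ y ∈ Y, 0 < ν x y := by
  by_contra hcon
  have h0 : ew ν X Y = 0 := by
    unfold ew
    refine Finset.sum_eq_zero fun x hx => Finset.sum_eq_zero fun y hy => ?_
    by_contra hne
    exact hcon ⟨x, hx, y, hy, Nat.pos_of_ne_zero hne⟩
  rw [h0] at h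
  simp at h

open Classical in
private theorem CYC_hole {V : Type} (adj : V → V → Prop) (B : Fin 3 → Finset V) (s w : ℕ)
    (hsw : 2 * s ≤ w) (hB : ∀ a a', a ≠ a' → Disjoint (B a) (B a')) (hc : ∀ a, (B a).card ≤ w)
    (hE : ∀ a a', a ≠ a' → ∀ X Y : Finset V, X ⊆ B a → Y ⊆ B a' → s ≤ X.card → s ≤ Y.card →
      ∃ x ∈ X, ∃ y ∈ Y, adj x y)
    (X Y : Finset V) (hX : X ⊆ Finset.univ.biUnion B) (hY : Y ⊆ Finset.univ.biUnion B)
    (hXY : Disjoint X Y) (hXc : w / 2 + 2 * s + 1 ≤ X.card) (hYc : w / 2 + 2 * s + 1 ≤ Y.card) :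
    ∃ u ∈ X, ∃ v ∈ Y, adj u v := by
  by_contra hcon
  have hsum : ∀ Z : Finset V, Z ⊆ Finset.univ.biUnion B →
      Z.card = (Z ∩ B 0).card + (Z ∩ B 1).card + (Z ∩ B 2).card := by
    intro Z hZ
    have h1 : Z = Finset.univ.biUnion (fun a => Z ∩ B a) := by
      ext z
      simp only [Finset.mem_biUnion, Finset.mem_univ, true_and, Finset.mem_inter]
      constructor
      · intro hz
        obtain ⟨a, _, ha⟩ := Finset.mem_biUnion.1 (hZ hz)
        exact ⟨a, hz, ha⟩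
      · rintro ⟨a, hz, _⟩
        exact hz
    calc Z.card = (Finset.univ.biUnion (fun a => Z ∩ B a)).card := congrArg Finset.card h1
      _ = ∑ a : Fin 3, (Z ∩ B a).card :=
        Finset.card_biUnion (fun a _ a' _ haa =>
          (hB a a' haa).mono Finset.inter_subset_right Finset.inter_subset_right)
      _ = _ := Fin.sum_univ_three _
  have hk : ∀ a a', a ≠ a' → ¬ (s ≤ (X ∩ B a).card ∧ s ≤ (Y ∩ B a').card) := by
    intro a a' haa hh
    obtain ⟨x, hx, y, hy, hxy⟩ := hE a a' haa (X ∩ B a) (Y ∩ B a') Finset.inter_subset_right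
      Finset.inter_subset_right hh.1 hh.2
    exact hcon ⟨x, (Finset.mem_inter.1 hx).1, y, (Finset.mem_inter.1 hy).1, hxy⟩
  have hd : ∀ a, (X ∩ B a).card + (Y ∩ B a).card ≤ w := by
    intro a
    rw [← Finset.card_union_of_disjoint
      (hXY.mono Finset.inter_subset_left Finset.inter_subset_left)]
    exact (Finset.card_le_card
      (Finset.union_subset Finset.inter_subset_right Finset.inter_subset_right)).trans (hc a)
  have h01 := hk 0 1 (by decide)
  have h02 := hk 0 2 (by decide)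
  have h10 := hk 1 0 (by decide)
  have h12 := hk 1 2 (by decide)
  have h20 := hk 2 0 (by decide)
  have h21 := hk 2 1 (by decide)
  have hx := hsum X hX
  have hy := hsum Y hY
  have d0 := hd 0
  have d1 := hd 1
  have d2 := hd 2
  generalize (X ∩ B 0).card = x0 at *
  generalize (X ∩ B 1).card = x1 at *
  generalize (X ∩ B 2).card = x2 at *
  generalize (Y ∩ B 0).card = y0 at *
  generalize (Y ∩ B 1).card = y1 at *
  generalize (Y ∩ B 2).card = y2 at *
  generalize X.card = nx at *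
  generalize Y.card = ny at *
  clear hcon hsum hk hd hX hY hXY
  omega

private theorem CYC_glue {V : Type} (adj : V → V → Prop) (hsymm : ∀ x y, adj x y → adj y x)
    (lev : V → ℕ → Prop) (hlev : ∀ x j j', lev x j → lev x j' → j = j') (t : ℕ) (ht : 1 ≤ t)
    (P : List V) (hP : P ≠ []) (hnd : P.Nodup) (hch : List.IsChain adj P)
    (hP0 : ∀ x ∈ P, lev x 0) (pu pv : ℕ → V) (hu0 : pu 0 = P.head hP) (hv0 : pv 0 = P.getLast hP)
    (hu : ∀ j < t, adj (pu j) (pu (j + 1))) (hv : ∀ j < t, adj (pv j) (pv (j + 1)))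
    (hul : ∀ j, 1 ≤ j → j ≤ t → lev (pu j) j) (hvl : ∀ j, 1 ≤ j → j ≤ t → lev (pv j) (t + j))
    (hz : adj (pu t) (pv t)) :
    ∃ l : List V, l.length = P.length + 2 * t ∧ IsCyc adj l ∧
      ∀ x ∈ l, x ∈ P ∨ ∃ j, 1 ≤ j ∧ j ≤ t ∧ (x = pu j ∨ x = pv j) := by
  have hlA : ∀ x ∈ (List.range t).map (fun i => pu (t - i)), ∃ j, 1 ≤ j ∧ j ≤ t ∧ x = pu j := by
    intro x hx
    obtain ⟨i, hi, rfl⟩ := List.mem_map.1 hx
    rw [List.mem_range] at hi
    exact ⟨t - i, by omega, by omega, rfl⟩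
  have hlB : ∀ x ∈ (List.range t).map (fun i => pv (i + 1)), ∃ j, 1 ≤ j ∧ j ≤ t ∧ x = pv j := by
    intro x hx
    obtain ⟨i, hi, rfl⟩ := List.mem_map.1 hx
    rw [List.mem_range] at hi
    exact ⟨i + 1, by omega, by omega, rfl⟩
  refine ⟨(List.range t).map (fun i => pu (t - i)) ++
    (P ++ (List.range t).map (fun i => pv (i + 1))), ?_, ⟨?_, ?_, ?_⟩, ?_⟩
  · simp only [List.length_append, List.length_map, List.length_range]
    omega
  · rw [List.nodup_append, List.nodup_append]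
    refine ⟨?_, ⟨hnd, ?_, ?_⟩, ?_⟩
    · refine List.Nodup.map_on ?_ List.nodup_range
      intro i hi j hj hij
      rw [List.mem_range] at hi hj
      have h1 := hul (t - i) (by omega) (by omega)
      have h2 := hul (t - j) (by omega) (by omega)
      rw [hij] at h1
      have := hlev _ _ _ h1 h2
      omega
    · refine List.Nodup.map_on ?_ List.nodup_range
      intro i hi j hj hij
      rw [List.mem_range] at hi hj
      have h1 := hvl (i + 1) (by omega) (by omega)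
      have h2 := hvl (j + 1) (by omega) (by omega)
      rw [hij] at h1
      have := hlev _ _ _ h1 h2
      omega
    · intro a ha b hb hab
      obtain ⟨j, h1, h2, rfl⟩ := hlB b hb
      rw [hab] at ha
      have := hlev _ _ _ (hP0 _ ha) (hvl j h1 h2)
      omega
    · intro a ha b hb hab
      obtain ⟨j, h1, h2, rfl⟩ := hlA a ha
      rcases List.mem_append.1 hb with hb | hb
      · rw [← hab] at hb
        have := hlev _ _ _ (hP0 _ hb) (hul j h1 h2)
        omega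
      · obtain ⟨j', h1', h2', rfl⟩ := hlB b hb
        have h3 := hul j h1 h2
        rw [hab] at h3
        have := hlev _ _ _ h3 (hvl j' h1' h2')
        omega
  · rw [List.isChain_append, List.isChain_append]
    refine ⟨?_, ⟨hch, ?_, ?_⟩, ?_⟩
    · rw [List.isChain_map, List.isChain_range]
      intro m hm
      have h1 := hu (t - (m + 1)) (by omega)
      have h2 : t - (m + 1) + 1 = t - m := by omega
      rw [h2] at h1
      exact hsymm _ _ h1
    · rw [List.isChain_map, List.isChain_range]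
      intro m hm
      exact hv (m + 1) (by omega)
    · intro x hx y hy
      rw [List.getLast?_eq_getLast_of_ne_nil hP] at hx
      rw [List.head?_map, List.head?_range] at hy
      have ht0 : t ≠ 0 := by omega
      simp only [ht0, if_false, Option.map_some, Option.mem_def, Option.some.injEq] at hx hy
      subst hx
      subst hy
      rw [← hv0]
      exact hv 0 (by omega)
    · intro x hx y hy
      rw [List.getLast?_map, List.getLast?_range] at hx
      have h3 : (P ++ (List.range t).map (fun i => pv (i + 1))).head? = some (P.head hP) := by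
        rw [List.head?_append, List.head?_eq_some_head hP]
        rfl
      rw [h3] at hy
      have ht0 : t ≠ 0 := by omega
      simp only [ht0, if_false, Option.map_some, Option.mem_def, Option.some.injEq] at hx hy
      subst hx
      subst hy
      rw [← hu0]
      have h2 : t - (t - 1) = 0 + 1 := by omega
      rw [h2]
      exact hsymm _ _ (hu 0 (by omega))
  · intro x hx y hy
    have ht0 : t ≠ 0 := by omega
    have hne : (List.range t).map (fun i => pv (i + 1)) ≠ [] := by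
      simp [ht0]
    have h3 : ((List.range t).map (fun i => pu (t - i)) ++
        (P ++ (List.range t).map (fun i => pv (i + 1)))).getLast? = some (pv t) := by
      rw [← List.append_assoc, List.getLast?_append, List.getLast?_map, List.getLast?_range]
      simp only [ht0, if_false, Option.map_some, Option.some_or]
      congr 2
      omega
    have h4 : ((List.range t).map (fun i => pu (t - i)) ++
        (P ++ (List.range t).map (fun i => pv (i + 1)))).head? = some (pu t) := by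
      rw [List.head?_append, List.head?_map, List.head?_range]
      simp [ht0]
    rw [h3] at hx
    rw [h4] at hy
    simp only [Option.mem_def, Option.some.injEq] at hx hy
    subst hx
    subst hy
    exact hsymm _ _ hz
  · intro x hx
    rcases List.mem_append.1 hx with hx | hx
    · obtain ⟨j, h1, h2, h3⟩ := hlA x hx
      exact Or.inr ⟨j, h1, h2, Or.inl h3⟩
    · rcases List.mem_append.1 hx with hx | hx
      · exact Or.inl hx
      · obtain ⟨j, h1, h2, h3⟩ := hlB x hx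
        exact Or.inr ⟨j, h1, h2, Or.inr h3⟩

open Classical in
private theorem CYC_main {V : Type} [Fintype V] (ν : V → V → ℕ)
    (hν : ∀ x y, ν x y = ν y x) (h e q0 q1 q2 t : ℕ)
    (hq0 : 1 ≤ q0) (hq10 : q1 ≤ q0) (ht : 10 ≤ t) (hqt : q0 ≤ 2 ^ (t - 8)) (hq2 : 1 ≤ q2)
    (hq1 : 200 * (2 * t + 1) ^ 3 * q2 ≤ q1) (hq1N : q1 ≤ h ^ 8)
    (H1 : ∀ A C : Finset V, A.Nonempty → C.card ≤ h * A.card → q0 * C.card ≤ h ^ 8 →
      e * ew ν A C < h ^ 2 * A.card)
    (W : Fin 3 → Finset V) (hW : ∀ a a', a ≠ a' → Disjoint (W a) (W a'))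
    (hWc : ∀ a, h ^ 8 ≤ q2 * (W a).card)
    (H2 : ∀ a a', a ≠ a' → ∀ X Y : Finset V, X ⊆ W a → Y ⊆ W a' → h ^ 8 ≤ q1 * X.card →
      h ^ 8 ≤ q1 * Y.card → h ^ 10 < e * ew ν X Y)
    (ℓ : ℕ) (hl1 : 2 * t + 1 ≤ ℓ) (hl2 : 2 * (2 * t + 1) * q2 * ℓ ≤ h ^ 8) :
      ∃ l : List V, l.length = ℓ ∧ IsCyc (fun x y => 0 < ν x y) l ∧ ∀ x ∈ l, ∃ a, x ∈ W a := by
  obtain ⟨M, hM⟩ : ∃ M, M = h ^ 8 := ⟨_, rfl⟩
  have hq1pos : 2 ≤ q1 := by
    refine le_trans ?_ hq1
    have h1 : 1 ≤ (2 * t + 1) ^ 3 := Nat.one_le_pow _ _ (by omega)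
    calc 2 ≤ 200 * 1 * 1 := by norm_num
      _ ≤ 200 * (2 * t + 1) ^ 3 * q2 := Nat.mul_le_mul (Nat.mul_le_mul le_rfl h1) hq2
  have hq2T : 0 < q2 * (2 * t + 1) := Nat.mul_pos (by omega) (by omega)
  obtain ⟨s, hs⟩ : ∃ s, s = M / q1 + 1 := ⟨_, rfl⟩
  obtain ⟨w, hwd⟩ : ∃ w, w = M / (q2 * (2 * t + 1)) := ⟨_, rfl⟩
  have hMs : M ≤ q1 * s := by
    rw [hs]
    exact (Nat.lt_mul_div_succ M (by omega)).le
  have hsM2 : q1 * s ≤ 2 * M := by
    rw [hs, Nat.mul_add, Nat.mul_one]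
    have h1 := Nat.mul_div_le M q1
    have h2 : q1 ≤ M := hM ▸ hq1N
    omega
  have hsM : s ≤ M := by
    have h1 : 2 * s ≤ q1 * s := Nat.mul_le_mul_right s hq1pos
    omega
  have hs1 : 1 ≤ s := by
    rw [hs]
    exact Nat.le_add_left 1 _
  have hwM : q2 * (2 * t + 1) * w ≤ M := by
    rw [hwd]
    exact Nat.mul_div_le _ _
  have hMw : M < q2 * (2 * t + 1) * (w + 1) := by
    rw [hwd]
    exact Nat.lt_mul_div_succ M hq2T
  have hsw : 100 * (2 * t + 1) ^ 2 * s ≤ w := by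
    by_contra hcon
    have h1 : w + 1 ≤ 100 * (2 * t + 1) ^ 2 * s := by omega
    have h2 : q2 * (2 * t + 1) * (w + 1) ≤ q2 * (2 * t + 1) * (100 * (2 * t + 1) ^ 2 * s) :=
      Nat.mul_le_mul_left _ h1
    have h3 : 2 * (q2 * (2 * t + 1) * (100 * (2 * t + 1) ^ 2 * s)) =
        200 * (2 * t + 1) ^ 3 * q2 * s := by ring
    have h4 : 200 * (2 * t + 1) ^ 3 * q2 * s ≤ q1 * s := Nat.mul_le_mul_right s hq1
    omega
  have hT2 : 1 ≤ (2 * t + 1) ^ 2 := Nat.one_le_pow _ _ (by omega)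
  have hTs : s ≤ (2 * t + 1) ^ 2 * s := Nat.le_mul_of_pos_left s hT2
  have hsw' : 100 * ((2 * t + 1) ^ 2 * s) ≤ w := by
    rw [← mul_assoc]
    exact hsw
  -- the pieces
  have hWw : ∀ a, (2 * t + 1) * w ≤ (W a).card := by
    intro a
    have h1 := hWc a
    rw [← hM] at h1
    have h2 : q2 * ((2 * t + 1) * w) ≤ q2 * (W a).card := by
      rw [← mul_assoc]
      omega
    exact Nat.le_of_mul_le_mul_left h2 (by omega)
  choose Q hQW hQc hQd using fun a => CYC_split (W a) (2 * t + 1) w (hWw a)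
  have hQdis : ∀ c c' : Fin 3 × Fin (2 * t + 1), c ≠ c' → Disjoint (Q c.1 c.2) (Q c'.1 c'.2) := by
    rintro ⟨a, j⟩ ⟨a', j'⟩ hne
    by_cases haa : a = a'
    · subst haa
      refine hQd a j j' ?_
      rintro rfl
      exact hne rfl
    · exact (hW a a' haa).mono (hQW a j) (hQW a' j')
  have hcard : Fintype.card (Fin 3 × Fin (2 * t + 1)) = 3 * (2 * t + 1) := by simp
  have h27 : 3 * (3 * (2 * t + 1)) ^ 2 = 27 * (2 * t + 1) ^ 2 := by ring
  obtain ⟨Q', hsub, hloss, G1, G2⟩ := cleaning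
    (fun c c' : Fin 3 × Fin (2 * t + 1) => c.1 ≠ c'.1) (fun c => Q c.1 c.2) hQdis ν (h ^ 2) e s w
    (h ^ 8) (hM ▸ hsM) (by
      rw [hcard, h27, Nat.add_mul, mul_assoc]
      omega) (fun c => (hQc c.1 c.2).ge) (by
      intro c c' hcc X Y hX hY hXs hYs
      have h1 : h ^ 2 * h ^ 8 = h ^ 10 := by ring
      rw [h1]
      refine H2 c.1 c'.1 hcc X Y (hX.trans (hQW _ _)) (hY.trans (hQW _ _)) ?_ ?_
      · rw [← hM]
        exact hMs.trans (Nat.mul_le_mul_left _ hXs)
      · rw [← hM]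
        exact hMs.trans (Nat.mul_le_mul_left _ hYs))
  rw [hcard, h27, mul_assoc] at hloss
  have hsubW : ∀ c : Fin 3 × Fin (2 * t + 1), Q' c ⊆ W c.1 := fun c =>
    (hsub c).trans (hQW _ _)
  have hQ'c : ∀ c, (Q' c).card ≤ w := fun c =>
    (Finset.card_le_card (hsub c)).trans (hQc c.1 c.2).le
  have hQ'dis : ∀ c c' : Fin 3 × Fin (2 * t + 1), c ≠ c' → Disjoint (Q' c) (Q' c') :=
    fun c c' hne => (hQdis c c' hne).mono (hsub c) (hsub c')
  have hE : ∀ c c' : Fin 3 × Fin (2 * t + 1), c.1 ≠ c'.1 → ∀ X Y : Finset V, X ⊆ Q' c →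
      Y ⊆ Q' c' → s ≤ X.card → s ≤ Y.card → ∃ x ∈ X, ∃ y ∈ Y, 0 < ν x y := by
    intro c c' hcc X Y hX hY hXs hYs
    refine CYC_edge ν X Y (h ^ 10) e (H2 c.1 c'.1 hcc X Y (hX.trans (hsubW c))
      (hY.trans (hsubW c')) ?_ ?_)
    · rw [← hM]
      exact hMs.trans (Nat.mul_le_mul_left _ hXs)
    · rw [← hM]
      exact hMs.trans (Nat.mul_le_mul_left _ hYs)
  -- the long path
  obtain ⟨z0, hz0⟩ : ∃ z0 : Fin (2 * t + 1), z0.val = 0 := ⟨⟨0, by omega⟩, rfl⟩
  have hB : ∀ a a' : Fin 3, a ≠ a' → Disjoint (Q' (a, z0)) (Q' (a', z0)) := by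
    intro a a' haa
    exact hQ'dis _ _ (fun hh => haa (Prod.mk.inj hh).1)
  obtain ⟨P0, hPnd, hPch, hPA, hPlen⟩ := dfs_path (Finset.univ.biUnion (fun a => Q' (a, z0)))
    (fun x y => 0 < ν x y) (fun u v huv => by rw [hν]; exact huv) (w / 2 + 2 * s + 1)
    (fun X Y hX hY hXY hXc hYc => CYC_hole (fun x y => 0 < ν x y) (fun a => Q' (a, z0)) s w
      (by omega) hB (fun a => hQ'c _)
      (fun a a' haa X' Y' hX' hY' => hE (a, z0) (a', z0) haa X' Y' hX' hY') X Y hX hY hXY hXc hYc)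
  have hAc : 3 * w ≤ (Finset.univ.biUnion (fun a => Q' (a, z0))).card +
      27 * ((2 * t + 1) ^ 2 * s) := by
    rw [Finset.card_biUnion (fun a _ a' _ haa => hB a a' haa), Fin.sum_univ_three]
    have h1 : ∀ a, w = (Q' (a, z0)).card + (Q a z0 \ Q' (a, z0)).card := by
      intro a
      have h2 := Finset.card_sdiff_add_card_eq_card (hsub (a, z0))
      have h3 := hQc a z0
      simp only at h2
      omega
    have h2 : ∑ a : Fin 3, (Q a z0 \ Q' (a, z0)).card ≤ 27 * ((2 * t + 1) ^ 2 * s) := by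
      refine le_trans ?_ hloss
      rw [Fintype.sum_prod_type]
      refine Finset.sum_le_sum fun a _ => ?_
      exact Finset.single_le_sum (f := fun j => (Q a j \ Q' (a, j)).card)
        (fun j _ => Nat.zero_le _) (Finset.mem_univ z0)
    rw [Fin.sum_univ_three] at h2
    have e0 := h1 0
    have e1 := h1 1
    have e2 := h1 2
    omega
  have hlw : ℓ ≤ w := by
    by_contra hcon
    have h1 : w + 1 ≤ ℓ := by omega
    have h2 : q2 * (2 * t + 1) * (w + 1) ≤ q2 * (2 * t + 1) * ℓ := Nat.mul_le_mul_left _ h1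
    have h3 : 2 * (2 * t + 1) * q2 * ℓ = 2 * (q2 * (2 * t + 1) * ℓ) := by ring
    rw [← hM] at hl2
    omega
  have hPlen' : ℓ ≤ P0.length := by omega
  obtain ⟨P, hPdef⟩ : ∃ P, P = P0.take (ℓ - 2 * t) := ⟨_, rfl⟩
  have hPl : P.length = ℓ - 2 * t := by
    rw [hPdef, List.length_take]
    omega
  have hPne : P ≠ [] := by
    intro hh
    rw [hh] at hPl
    simp only [List.length_nil] at hPl
    omega
  have hPnd' : P.Nodup := by
    rw [hPdef]
    exact hPnd.sublist (List.take_sublist _ _)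
  have hPch' : List.IsChain (fun x y => 0 < ν x y) P := by
    rw [hPdef]
    exact hPch.take _
  have hPmem : ∀ x ∈ P, ∃ a, x ∈ Q' (a, z0) := by
    intro x hx
    rw [hPdef] at hx
    have h1 := hPA x (List.mem_of_mem_take hx)
    obtain ⟨a, _, ha⟩ := Finset.mem_biUnion.1 h1
    exact ⟨a, ha⟩
  obtain ⟨α, hα⟩ := hPmem _ (List.head_mem hPne)
  obtain ⟨β, hβ⟩ := hPmem _ (List.getLast_mem hPne)
  obtain ⟨cu, hcu0, hcut, hcu⟩ := CYC_walk t (by omega) α 0
  obtain ⟨cv, hcv0, hcvt, hcv⟩ := CYC_walk t (by omega) β 1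
  have hqs : h ^ 8 ≤ q0 * s := by
    rw [← hM]
    exact hMs.trans (Nat.mul_le_mul_right s hq10)
  let lu : ℕ → Fin (2 * t + 1) := fun j => ⟨min j (2 * t), by omega⟩
  let lv : ℕ → Fin (2 * t + 1) := fun j => if j = 0 then z0 else ⟨min (t + j) (2 * t), by omega⟩
  have hlu : ∀ j ≤ t, (lu j).val = j := by
    intro j hj
    simp only [lu]
    omega
  have hlv : ∀ j, 1 ≤ j → j ≤ t → (lv j).val = t + j := by
    intro j hj1 hj
    have h1 : j ≠ 0 := by omega
    simp only [lv, h1, if_false]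
    omega
  have hlu0 : lu 0 = z0 := by
    apply Fin.ext
    rw [hlu 0 (by omega), hz0]
  have hlv0 : lv 0 = z0 := by
    simp [lv]
  obtain ⟨Zu, hZu, hZus, hZup⟩ := expand (fun c c' : Fin 3 × Fin (2 * t + 1) => c.1 ≠ c'.1) Q' ν
    h e q0 s t hq0 (by omega) hqt (hM ▸ hsM) hqs H1 G1 G2 (fun j => (cu j, lu j))
    (fun j hj => hcu j hj) (P.head hPne) (by
      simp only [hcu0, hlu0]
      exact hα)
  obtain ⟨Zv, hZv, hZvs, hZvp⟩ := expand (fun c c' : Fin 3 × Fin (2 * t + 1) => c.1 ≠ c'.1) Q' ν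
    h e q0 s t hq0 (by omega) hqt (hM ▸ hsM) hqs H1 G1 G2 (fun j => (cv j, lv j))
    (fun j hj => hcv j hj) (P.getLast hPne) (by
      simp only [hcv0, hlv0]
      exact hβ)
  obtain ⟨z, hz, z', hz', hzz⟩ := hE (cu t, lu t) (cv t, lv t) (by
    simp only [hcut, hcvt]
    decide) Zu Zv hZu hZv hZus hZvs
  obtain ⟨pu, hpu0, hput, hpuQ, hpue⟩ := hZup z hz
  obtain ⟨pv, hpv0, hpvt, hpvQ, hpve⟩ := hZvp z' hz'
  obtain ⟨l, hll, hlc, hlm⟩ := CYC_glue (fun x y => 0 < ν x y)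
    (fun u v huv => by rw [hν]; exact huv)
    (fun x j => ∃ a, ∃ i : Fin (2 * t + 1), i.val = j ∧ x ∈ Q' (a, i)) (by
      rintro x j j' ⟨a, i, rfl, hx⟩ ⟨a', i', rfl, hx'⟩
      by_contra hne
      refine Finset.disjoint_left.1 (hQ'dis (a, i) (a', i') ?_) hx hx'
      intro hh
      exact hne (congrArg Fin.val (Prod.mk.inj hh).2)) t (by omega) P hPne hPnd' hPch'
    (fun x hx => by
      obtain ⟨a, ha⟩ := hPmem x hx
      exact ⟨a, z0, hz0, ha⟩) pu pv hpu0 hpv0 hpue hpve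
    (fun j h1 h2 => ⟨cu j, lu j, hlu j h2, hpuQ j h2⟩)
    (fun j h1 h2 => ⟨cv j, lv j, hlv j h1 h2, hpvQ j h2⟩) (by
      rw [hput, hpvt]
      exact hzz)
  refine ⟨l, by omega, hlc, ?_⟩
  intro x hx
  rcases hlm x hx with hx | ⟨j, h1, h2, hx | hx⟩
  · obtain ⟨a, ha⟩ := hPmem x hx
    exact ⟨a, hsubW _ ha⟩
  · rw [hx]
    exact ⟨cu j, hsubW _ (hpuQ j h2)⟩
  · rw [hx]
    exact ⟨cv j, hsubW _ (hpvQ j h2)⟩

/-- Cycles of all lengths from `2 t + 1` up to a small multiple of `h ^ 8`, inside three sets between which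
`ν` is dense. -/
theorem cycles {V : Type} [Fintype V] [DecidableEq V] (ν : V → V → ℕ)
    (hν : ∀ x y, ν x y = ν y x) (h e q0 q1 q2 t : ℕ) (hN : Fintype.card V = h ^ 8)
    (hq0 : 1 ≤ q0) (hq10 : q1 ≤ q0) (ht : 10 ≤ t) (hqt : q0 ≤ 2 ^ (t - 8)) (hq2 : 1 ≤ q2)
    (hq1 : 200 * (2 * t + 1) ^ 3 * q2 ≤ q1) (hq1N : q1 ≤ h ^ 8)
    (H1 : ∀ A C : Finset V, A.Nonempty → C.card ≤ h * A.card → q0 * C.card ≤ h ^ 8 →
      e * ew ν A C < h ^ 2 * A.card)
    (W : Fin 3 → Finset V) (hW : ∀ a a', a ≠ a' → Disjoint (W a) (W a'))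
    (hWc : ∀ a, h ^ 8 ≤ q2 * (W a).card)
    (H2 : ∀ a a', a ≠ a' → ∀ X Y : Finset V, X ⊆ W a → Y ⊆ W a' → h ^ 8 ≤ q1 * X.card →
      h ^ 8 ≤ q1 * Y.card → h ^ 10 < e * ew ν X Y) :
    ∀ ℓ, 2 * t + 1 ≤ ℓ → 2 * (2 * t + 1) * q2 * ℓ ≤ h ^ 8 →
      ∃ l : List V, l.length = ℓ ∧ IsCyc (fun x y => 0 < ν x y) l ∧ ∀ x ∈ l, ∃ a, x ∈ W a := by
  intro ℓ hl1 hl2
  exact CYC_main ν hν h e q0 q1 q2 t hq0 hq10 ht hqt hq2 hq1 hq1N H1 W hW hWc H2 ℓ hl1 hl2

end Pool.Agent.PUG
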