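import Mathlib

set_option autoImplicit false

/-!
Project PUG (MP_e72c4a, case `Δ = 2`): `K_{3,3}`-free graphs on `O(n)` vertices that are `r`-partition
universal for the graphs on `n` vertices of maximum degree at most two.
-/

namespace Pool.Agent.PUG

/-- Two distinct `x`'s never have two distinct common `y`'s. -/
def C4Free {X Y : Type} (I : X → Y → Prop) : Prop :=
  ∀ x₁ x₂ y₁ y₂, x₁ ≠ x₂ → y₁ ≠ y₂ → I x₁ y₁ → I x₁ y₂ → I x₂ y₁ → I x₂ y₂ → False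

/-- `K_{3,3}`-free, in elementary form. -/
def K33Free {V : Type} (G : SimpleGraph V) : Prop :=
  ∀ a a' : Fin 3 → V, Function.Injective a → Function.Injective a' → ¬ ∀ i j, G.Adj (a i) (a' j)

/-- First partite lemma (conclusion): a `C₄`-free bipartite relation `I'` with a family of induced copies of
`I`, indexed by `Q`, such that every colouring has a monochromatic copy in the family, with closure and
intersection properties. -/
structure PLFlag {X Y : Type} (I : X → Y → Prop) (r : ℕ) (X' Y' Q : Type) (I' : X' → Y' → Prop)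
    (φ : Q → X → X') (ψ : Q → Y → Y') : Prop where
  c4 : C4Free I'
  injφ : ∀ q, Function.Injective (φ q)
  injψ : ∀ q, Function.Injective (ψ q)
  ind : ∀ q x y, I' (φ q x) (ψ q y) ↔ I x y
  ramsey : ∀ c : X' → Y' → Fin r, ∃ q k, ∀ x y, I x y → c (φ q x) (ψ q y) = k
  cl1 : ∀ q y₁ y₂ x', y₁ ≠ y₂ → I' x' (ψ q y₁) → I' x' (ψ q y₂) → ∃ x, φ q x = x'
  cl2 : ∀ q x₁ x₂ y', x₁ ≠ x₂ → I' (φ q x₁) y' → I' (φ q x₂) y' → ∃ y, ψ q y = y'
  int1 : ∀ q q' y₁ y₂ y₁' y₂', q ≠ q' → ψ q y₁ = ψ q' y₁' → ψ q y₂ = ψ q' y₂' → y₁ = y₂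
  int2 : ∀ q q' x₁ x₂ x₁' x₂', q ≠ q' → x₁ ≠ x₂ → φ q x₁ = φ q' x₁' → φ q x₂ = φ q' x₂' →
      ∃ y y', ψ q y = ψ q' y' ∧ I x₁ y ∧ I x₂ y
  int3 : ∀ q q' x x₁ y y₁, q ≠ q' → φ q x = φ q' x₁ → ψ q y = ψ q' y₁ → I x y

/-- Second partite lemma (conclusion): copies share at most one vertex on each side, and an outside vertex
has at most one neighbour in a copy. -/
structure PLStar {X Y : Type} (I : X → Y → Prop) (r : ℕ) (X' Y' Q : Type) (I' : X' → Y' → Prop)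
    (φ : Q → X → X') (ψ : Q → Y → Y') : Prop where
  c4 : C4Free I'
  injφ : ∀ q, Function.Injective (φ q)
  injψ : ∀ q, Function.Injective (ψ q)
  ind : ∀ q x y, I' (φ q x) (ψ q y) ↔ I x y
  ramsey : ∀ c : X' → Y' → Fin r, ∃ q k, ∀ x y, I x y → c (φ q x) (ψ q y) = k
  intX : ∀ q q' x₁ x₂ x₁' x₂', q ≠ q' → φ q x₁ = φ q' x₁' → φ q x₂ = φ q' x₂' → x₁ = x₂
  intY : ∀ q q' y₁ y₂ y₁' y₂', q ≠ q' → ψ q y₁ = ψ q' y₁' → ψ q y₂ = ψ q' y₂' → y₁ = y₂
  outX : ∀ q x' y₁ y₂, (∀ x, φ q x ≠ x') → I' x' (ψ q y₁) → I' x' (ψ q y₂) → y₁ = y₂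
  outY : ∀ q y' x₁ x₂, (∀ y, ψ q y ≠ y') → I' (φ q x₁) y' → I' (φ q x₂) y' → x₁ = x₂

/-- Total weight between two finsets. -/
def ew {V : Type} (ν : V → V → ℕ) (A C : Finset V) : ℕ := ∑ x ∈ A, ∑ y ∈ C, ν x y

/-- A list that is a cycle for the relation `A`: no repetitions, consecutive entries related, and the last
entry related to the first. -/
def IsCyc {V : Type} (A : V → V → Prop) (l : List V) : Prop :=
  l.Nodup ∧ List.IsChain A l ∧ ∀ x ∈ l.getLast?, ∀ y ∈ l.head?, A x y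

/-- The graph spanned by the blocks `f k`, `k ∈ 𝒢` (copies of `B`). -/
def blockGraph {κ V : Type} {b : ℕ} (B : SimpleGraph (Fin b)) (f : κ → Fin b → V) (𝒢 : Set κ) :
    SimpleGraph V where
  Adj x y := x ≠ y ∧ ∃ k ∈ 𝒢, ∃ v w, B.Adj v w ∧ f k v = x ∧ f k w = y
  symm := ⟨by
    rintro x y ⟨hne, k, hk, v, w, hvw, hx, hy⟩
    exact ⟨hne.symm, k, hk, w, v, hvw.symm, hy, hx⟩⟩
  loopless := ⟨fun x h => h.1 rfl⟩

/-- A crossing 4-cycle: four darts `(k, v, w)` of blocks, consecutive ones sharing a vertex, with four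
distinct vertices, and not all from the same block. -/
def Cross {κ V : Type} {b : ℕ} (B : SimpleGraph (Fin b)) (f : κ → Fin b → V)
    (p : Fin 4 → κ × Fin b × Fin b) : Prop :=
  (∀ i, B.Adj (p i).2.1 (p i).2.2) ∧ (∀ i, f (p i).1 (p i).2.2 = f (p (i + 1)).1 (p (i + 1)).2.1) ∧
    Function.Injective (fun i => f (p i).1 (p i).2.1) ∧ ¬ ∀ i j, (p i).1 = (p j).1

end Pool.Agent.PUG
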