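import Pool.Agent.PUG.Defs

set_option autoImplicit false

namespace Pool.Agent.PUG

private def Good {V : Type} {n : ℕ} (Γ : SimpleGraph V) (H : SimpleGraph (Fin n))
    (S : Finset (Fin n)) : Prop :=
  (∀ u ∈ S, ∀ v, H.Adj u v → v ∈ S) ∧
    ∃ f : Fin n → V, (∀ u ∈ S, ∀ v ∈ S, f u = f v → u = v) ∧
      ∀ u ∈ S, ∀ v ∈ S, H.Adj u v → Γ.Adj (f u) (f v)

private def PathIn {n : ℕ} (H : SimpleGraph (Fin n)) (S : Finset (Fin n)) (p : List (Fin n)) : Prop :=
  p ≠ [] ∧ p.Nodup ∧ p.IsChain H.Adj ∧ ∀ v ∈ p, v ∉ S

private lemma exists_longest {n : ℕ} (H : SimpleGraph (Fin n)) (S : Finset (Fin n)) (x : Fin n)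
    (hx : x ∉ S) : ∃ p, PathIn H S p ∧ ∀ q, PathIn H S q → q.length ≤ p.length := by
  by_contra hcon
  push Not at hcon
  have key : ∀ k : ℕ, ∃ p, PathIn H S p ∧ k ≤ p.length := by
    intro k
    induction k with
    | zero => exact ⟨[x], ⟨by simp, by simp, by simp, by simpa using hx⟩, by simp⟩
    | succ k ih =>
      obtain ⟨p, hp, hk⟩ := ih
      obtain ⟨q, hq, hlt⟩ := hcon p hp
      exact ⟨q, hq, by omega⟩
  obtain ⟨p, hp, hk⟩ := key (n + 1)
  have h1 : p.length ≤ n := by
    have := hp.2.1.length_le_card
    simpa using this
  omega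

/-- A graph of maximum degree at most two embeds wherever cycles of all lengths can be found outside any
set of at most `n` vertices. -/
theorem embed_deg2 {V : Type} [Fintype V] (Γ : SimpleGraph V) (n : ℕ)
    (hcyc : ∀ Z : Finset V, Z.card ≤ n → ∀ ℓ, 3 ≤ ℓ → ℓ ≤ max n 3 →
      ∃ l : List V, l.length = ℓ ∧ IsCyc Γ.Adj l ∧ ∀ x ∈ l, x ∉ Z)
    (H : SimpleGraph (Fin n)) (hH : ∀ v : Fin n, (H.neighborSet v).ncard ≤ 2) :
    H.IsContained Γ := by
  classical
  -- reduce to a good set which is everything
  have hV : Nonempty V := by
    obtain ⟨l, hl, -, -⟩ := hcyc ∅ (by simp) 3 le_rfl (le_max_right _ _)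
    exact ⟨l[0]'(by omega)⟩
  obtain ⟨v₀⟩ := hV
  have h0 : Good Γ H ∅ := ⟨by simp, fun _ => v₀, by simp, by simp⟩
  obtain ⟨S, hS, hmax⟩ := Finset.exists_max_image
    (Finset.univ.filter (fun S : Finset (Fin n) => Good Γ H S)) Finset.card ⟨∅, by simpa using h0⟩
  have hS' : Good Γ H S := by simpa using hS
  have hmax' : ∀ T, Good Γ H T → T.card ≤ S.card := fun T hT => hmax T (by simpa using hT)
  obtain ⟨hcl, f, hfinj, hfadj⟩ := hS'
  by_cases hall : ∀ x, x ∈ S
  · exact ⟨⟨⟨f, fun {a b} hab => hfadj a (hall a) b (hall b) hab⟩,
      fun a b hab => hfinj a (hall a) b (hall b) hab⟩⟩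
  exfalso
  push Not at hall
  obtain ⟨x, hx⟩ := hall
  obtain ⟨p, ⟨hpne, hpnd, hpch, hpS⟩, hlong⟩ := exists_longest H S x hx
  have hmpos : 0 < p.length := List.length_pos_iff.mpr hpne
  have hch : ∀ i (h : i + 1 < p.length), H.Adj (p[i]'(by omega)) p[i+1] := by
    intro i h
    exact List.isChain_iff_getElem.mp hpch i h
  have hinj : ∀ i j (hi : i < p.length) (hj : j < p.length), p[i] = p[j] → i = j := by
    intro i j hi hj h
    exact (hpnd.getElem_inj_iff).mp h
  -- neighbours of a middle vertex
  have hmid : ∀ i (h0 : 0 < i) (h : i + 1 < p.length) (w : Fin n), H.Adj (p[i]'(by omega)) w →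
      w = p[i-1]'(by omega) ∨ w = p[i+1] := by
    intro i h0 h w hw
    have hsub : ({p[i-1]'(by omega), p[i+1]} : Set (Fin n)) ⊆ H.neighborSet (p[i]'(by omega)) := by
      intro y hy
      rcases hy with rfl | hy
      · have := hch (i-1) (by omega)
        have h2 : i - 1 + 1 = i := by omega
        simp only [h2] at this
        exact this.symm
      · rw [Set.mem_singleton_iff] at hy
        subst hy
        exact hch i h
    have hne : (p[i-1]'(by omega)) ≠ p[i+1] := by
      intro h'
      have := hinj _ _ _ _ h'
      omega
    have hc : ({p[i-1]'(by omega), p[i+1]} : Set (Fin n)).ncard = 2 := Set.ncard_pair hne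
    have heq := Set.eq_of_subset_of_ncard_le hsub (by rw [hc]; exact hH _) (Set.toFinite _)
    have : w ∈ ({p[i-1]'(by omega), p[i+1]} : Set (Fin n)) := by
      rw [heq]; exact hw
    simpa using this
  -- closure
  have hclos : ∀ u ∈ p, ∀ w, H.Adj u w → w ∈ p := by
    intro u hu w hw
    obtain ⟨i, hi, rfl⟩ := List.mem_iff_getElem.mp hu
    by_contra hwp
    have hwS : w ∉ S := fun hwS => hpS _ hu (hcl w hwS _ hw.symm)
    by_cases hi0 : i = 0
    · subst hi0
      have hP : PathIn H S (w :: p) := by
        refine ⟨by simp, List.nodup_cons.mpr ⟨hwp, hpnd⟩, ?_, ?_⟩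
        · rw [List.isChain_cons]
          refine ⟨?_, hpch⟩
          intro y hy
          have : p[0] = y := by
            rw [List.head?_eq_getElem?] at hy
            simpa [hmpos] using hy
          rw [← this]
          exact hw.symm
        · intro v hv
          rcases List.mem_cons.mp hv with rfl | hv
          · exact hwS
          · exact hpS v hv
      have := hlong _ hP
      simp at this
    by_cases him : i + 1 < p.length
    · rcases hmid i (by omega) him w hw with h | h
      · exact hwp (h ▸ List.getElem_mem _)
      · exact hwp (h ▸ List.getElem_mem _)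
    · have hP : PathIn H S (p ++ [w]) := by
        refine ⟨by simp, ?_, ?_, ?_⟩
        · rw [List.nodup_append]
          refine ⟨hpnd, by simp, ?_⟩
          intro a ha b hb hab
          simp only [List.mem_singleton] at hb
          subst hb
          subst hab
          exact hwp ha
        · rw [List.isChain_append]
          refine ⟨hpch, by simp, ?_⟩
          intro y hy z hz
          have h1 : p[i] = y := by
            rw [List.getLast?_eq_getElem?] at hy
            have h2 : p.length - 1 = i := by omega
            rw [h2] at hy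
            simpa [hi] using hy
          have h2 : w = z := by simpa using hz
          rw [← h1, ← h2]
          exact hw
        · intro v hv
          rcases List.mem_append.mp hv with hv | hv
          · exact hpS v hv
          · simp only [List.mem_singleton] at hv
            subst hv
            exact hwS
      have := hlong _ hP
      simp at this
  -- indices of adjacent vertices
  have hidx : ∀ i j (hi : i < p.length) (hj : j < p.length), i < j → H.Adj p[i] p[j] →
      j = i + 1 ∨ (i = 0 ∧ j + 1 = p.length) := by
    intro i j hi hj hij hadj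
    by_cases hi0 : i = 0
    · subst hi0
      by_cases hjm : j + 1 < p.length
      · rcases hmid j (by omega) hjm _ hadj.symm with h | h
        · have := hinj _ _ _ _ h
          omega
        · have := hinj _ _ _ _ h
          omega
      · right; omega
    · rcases hmid i (by omega) (by omega) _ hadj with h | h
      · have := hinj _ _ _ _ h
        omega
      · have := hinj _ _ _ _ h
        omega
  have hpn : p.length ≤ n := by
    have := hpnd.length_le_card
    simpa using this
  obtain ⟨cy, hclen, ⟨hcnd, hcch, hcclose⟩, hcZ⟩ := hcyc (S.image f)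
    (le_trans Finset.card_image_le (le_trans (Finset.card_le_univ S) (by simp)))
    (max p.length 3) (le_max_right _ _) (max_le_max hpn le_rfl)
  have hcch' : ∀ i (h : i + 1 < cy.length), Γ.Adj (cy[i]'(by omega)) cy[i+1] := by
    intro i h
    exact List.isChain_iff_getElem.mp hcch i h
  have hlen : p.length ≤ cy.length := by rw [hclen]; exact le_max_left _ _
  have hc3 : 3 ≤ cy.length := by rw [hclen]; exact le_max_right _ _
  have hcinj : ∀ i j (hi : i < cy.length) (hj : j < cy.length), cy[i] = cy[j] → i = j := by
    intro i j hi hj h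
    exact (hcnd.getElem_inj_iff).mp h
  have hcl2 : Γ.Adj (cy[cy.length - 1]'(by omega)) (cy[0]'(by omega)) := by
    apply hcclose
    · rw [List.getLast?_eq_getElem?]
      simp [show cy.length - 1 < cy.length by omega]
    · rw [List.head?_eq_getElem?]
      simp [show 0 < cy.length by omega]
  let g : Fin n → V := fun v => if h : v ∈ p then cy[p.idxOf v]'(lt_of_lt_of_le (List.idxOf_lt_length_iff.mpr h) hlen) else f v
  have hg1 : ∀ i (hi : i < p.length), g p[i] = cy[i]'(by omega) := by
    intro i hi
    have h1 : p[i] ∈ p := List.getElem_mem _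
    have h2 : p.idxOf p[i] = i := hpnd.idxOf_getElem i hi
    simp only [g, h1, dif_pos, h2]
  have hg2 : ∀ v, v ∉ p → g v = f v := by
    intro v hv
    simp only [g, hv, dif_neg, not_false_eq_true]
  have hgood : Good Γ H (S ∪ p.toFinset) := by
    refine ⟨?_, g, ?_, ?_⟩
    · intro u hu v huv
      rw [Finset.mem_union, List.mem_toFinset] at hu ⊢
      rcases hu with hu | hu
      · exact Or.inl (hcl u hu v huv)
      · exact Or.inr (hclos u hu v huv)
    · intro u hu v hv huv
      rw [Finset.mem_union, List.mem_toFinset] at hu hv
      by_cases hup : u ∈ p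
      · obtain ⟨i, hi, rfl⟩ := List.mem_iff_getElem.mp hup
        rw [hg1 i hi] at huv
        by_cases hvp : v ∈ p
        · obtain ⟨j, hj, rfl⟩ := List.mem_iff_getElem.mp hvp
          rw [hg1 j hj] at huv
          have := hcinj _ _ _ _ huv
          subst this
          rfl
        · have hvS : v ∈ S := by tauto
          rw [hg2 v hvp] at huv
          exact absurd (Finset.mem_image.mpr ⟨v, hvS, huv.symm⟩) (hcZ _ (List.getElem_mem _))
      · have huS : u ∈ S := by tauto
        rw [hg2 u hup] at huv
        by_cases hvp : v ∈ p
        · obtain ⟨j, hj, rfl⟩ := List.mem_iff_getElem.mp hvp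
          rw [hg1 j hj] at huv
          exact absurd (Finset.mem_image.mpr ⟨u, huS, huv⟩) (hcZ _ (List.getElem_mem _))
        · have hvS : v ∈ S := by tauto
          rw [hg2 v hvp] at huv
          exact hfinj u huS v hvS huv
    · have hlt : ∀ i j (hi : i < p.length) (hj : j < p.length), i < j → H.Adj p[i] p[j] →
          Γ.Adj (cy[i]'(by omega)) (cy[j]'(by omega)) := by
        intro i j hi hj hij hadj
        by_cases h1 : j = i + 1
        · subst h1
          exact hcch' i (by omega)
        · rcases hidx i j hi hj hij hadj with h | ⟨h, h'⟩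
          · exact absurd h h1
          · subst h
            have h3 : cy.length - 1 = j := by
              rw [hclen, max_eq_left (by omega)]
              omega
            have := hcl2.symm
            simp only [h3] at this
            exact this
      intro u hu v hv huv
      rw [Finset.mem_union, List.mem_toFinset] at hu hv
      by_cases hup : u ∈ p
      · have hvp : v ∈ p := hclos u hup v huv
        obtain ⟨i, hi, rfl⟩ := List.mem_iff_getElem.mp hup
        obtain ⟨j, hj, rfl⟩ := List.mem_iff_getElem.mp hvp
        rw [hg1 i hi, hg1 j hj]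
        rcases lt_trichotomy i j with h | h | h
        · exact hlt i j hi hj h huv
        · subst h
          exact absurd huv (H.loopless.irrefl _)
        · exact (hlt j i hj hi h huv.symm).symm
      · have hvp : v ∉ p := fun hvp => hup (hclos v hvp u huv.symm)
        have huS : u ∈ S := by tauto
        have hvS : v ∈ S := by tauto
        rw [hg2 u hup, hg2 v hvp]
        exact hfadj u huS v hvS huv
  have h1 := hmax' _ hgood
  have h2 : S.card < (S ∪ p.toFinset).card := by
    apply Finset.card_lt_card
    rw [Finset.ssubset_iff_of_subset Finset.subset_union_left]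
    refine ⟨p[0], ?_, ?_⟩
    · rw [Finset.mem_union, List.mem_toFinset]
      exact Or.inr (List.getElem_mem _)
    · exact hpS _ (List.getElem_mem _)
  omega

end Pool.Agent.PUG
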