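import Pool.Agent.PUG.Defs

set_option autoImplicit false

namespace Pool.Agent.PUG

/-- the fan -/
private def fanG (L : ℕ) : SimpleGraph (Fin (L + 2)) where
  Adj x y := x ≠ y ∧ (x.val = 0 ∨ y.val = 0 ∨ x.val + 1 = y.val ∨ y.val + 1 = x.val)
  symm := ⟨by
    rintro x y ⟨h1, h2⟩
    refine ⟨h1.symm, ?_⟩
    omega⟩
  loopless := ⟨fun x h => h.1 rfl⟩

private lemma fan_three {L : ℕ} {x : Fin (L + 2)} (hx : x.val ≠ 0) {y : Fin 3 → Fin (L + 2)}
    (hy : ∀ i, (y i).val ≠ 0) (hinj : Function.Injective y) (h : ∀ i, (fanG L).Adj x (y i)) :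
    False := by
  have h0 := (h 0).2
  have h1 := (h 1).2
  have h2 := (h 2).2
  have n0 := hy 0
  have n1 := hy 1
  have n2 := hy 2
  have d01 : (y 0).val ≠ (y 1).val := fun e => by
    have := hinj (Fin.ext e)
    revert this; decide
  have d02 : (y 0).val ≠ (y 2).val := fun e => by
    have := hinj (Fin.ext e)
    revert this; decide
  have d12 : (y 1).val ≠ (y 2).val := fun e => by
    have := hinj (Fin.ext e)
    revert this; decide
  omega

private lemma fan_side {L : ℕ} {a a' : Fin 3 → Fin (L + 2)} (ha : Function.Injective a)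
    (ha' : Function.Injective a') (h : ∀ i j, (fanG L).Adj (a i) (a' j))
    (h0 : ∀ i, (a i).val ≠ 0) : False := by
  by_cases hj : (a' 0).val = 0
  · have h1 : (a' 1).val ≠ 0 := fun e => by
      have := ha' (Fin.ext (hj.trans e.symm))
      revert this; decide
    exact fan_three h1 h0 ha fun i => (h i 1).symm
  · exact fan_three hj h0 ha fun i => (h i 0).symm

/-- The fan: a `K_{3,3}`-free graph with cycles of all lengths in `[3, L)`. -/
theorem fan_exists (L : ℕ) :
    ∃ (f : ℕ) (F : SimpleGraph (Fin f)), K33Free F ∧ (∃ u v, F.Adj u v) ∧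
      ∀ ℓ, 3 ≤ ℓ → ℓ < L → ∃ l : List (Fin f), l.length = ℓ ∧ IsCyc F.Adj l := by
  refine ⟨L + 2, fanG L, ?_, ⟨⟨0, by omega⟩, ⟨1, by omega⟩, ?_, Or.inl rfl⟩, ?_⟩
  · intro a a' ha ha' h
    by_cases h0 : ∀ i, (a i).val ≠ 0
    · exact fan_side ha ha' h h0
    · push Not at h0
      obtain ⟨i, hi⟩ := h0
      refine fan_side ha' ha (fun j i => (h i j).symm) fun j hj => ?_
      exact (h i j).1 (Fin.ext (hi.trans hj.symm))
  · intro e
    have := congrArg Fin.val e
    simp at this
  · intro ℓ h3 hL
    refine ⟨List.ofFn (fun i : Fin ℓ => (⟨i.val, by omega⟩ : Fin (L + 2))), by simp, ?_, ?_, ?_⟩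
    · rw [List.nodup_ofFn]
      intro i j hij
      have h5 := congrArg Fin.val hij
      exact Fin.ext h5
    · rw [List.isChain_iff_getElem]
      intro i hi
      rw [List.getElem_ofFn, List.getElem_ofFn]
      refine ⟨?_, ?_⟩
      · intro e
        have := congrArg Fin.val e
        simp at this
      · simp
    · intro x hx y hy
      have hx' : x.val = ℓ - 1 := by
        rw [List.getLast?_eq_getElem?] at hx
        simp only [List.length_ofFn, Option.mem_def] at hx
        rw [List.getElem?_ofFn] at hx
        split_ifs at hx with h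
        simp only [Option.some.injEq] at hx
        rw [← hx]
      have hy' : y.val = 0 := by
        rw [List.head?_eq_getElem?] at hy
        simp only [Option.mem_def] at hy
        rw [List.getElem?_ofFn] at hy
        split_ifs at hy with h
        simp only [Option.some.injEq] at hy
        rw [← hy]
      refine ⟨?_, Or.inr (Or.inl hy')⟩
      intro e
      have := congrArg Fin.val e
      omega

end Pool.Agent.PUG
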