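import Pool.Agent.PUG.KEY
import Pool.Agent.PUG.EMB

set_option autoImplicit false

namespace Pool.Agent.PUG

theorem not_isContained_of_k33Free {V : Type} {G : SimpleGraph V} (h : K33Free G) :
    ¬ (completeBipartiteGraph (Fin (2 + 1)) (Fin (2 + 1))).IsContained G := by
  rintro ⟨f⟩
  apply h (fun i => f (Sum.inl i)) (fun j => f (Sum.inr j))
  · intro i i' hii
    exact Sum.inl.inj (f.injective hii)
  · intro i i' hii
    exact Sum.inr.inj (f.injective hii)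
  · intro i j
    apply f.toHom.map_adj
    simp [completeBipartiteGraph]

theorem exists_h (h0 A n : ℕ) (hn : 1 ≤ n) :
    ∃ h ≥ h0, A * n ≤ h ^ 8 ∧ h ^ 8 ≤ (h0 ^ 8 + 256 * A + 1) * n := by
  have hex : ∃ c : ℕ, A * n ≤ c ^ 8 := ⟨A * n, Nat.le_self_pow (by norm_num) _⟩
  classical
  set c := Nat.find hex with hc
  have h1 : A * n ≤ c ^ 8 := Nat.find_spec hex
  have h2 : c ^ 8 ≤ 256 * (A * n) + 1 := by
    rcases Nat.lt_or_ge c 2 with hlt | hge
    · have : c ^ 8 ≤ 1 := by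
        interval_cases c <;> simp
      omega
    · have h3 : ¬ A * n ≤ (c - 1) ^ 8 := Nat.find_min hex (by omega)
      have h4 : c ^ 8 ≤ (2 * (c - 1)) ^ 8 := Nat.pow_le_pow_left (by omega) 8
      rw [mul_pow] at h4
      norm_num at h4
      omega
  refine ⟨max h0 c, le_max_left _ _, le_trans h1 (Nat.pow_le_pow_left (le_max_right _ _) 8), ?_⟩
  have h5 : (max h0 c) ^ 8 ≤ h0 ^ 8 + c ^ 8 := by
    rcases le_total h0 c with h | h
    · rw [max_eq_right h]; omega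
    · rw [max_eq_left h]; omega
  calc (max h0 c) ^ 8 ≤ h0 ^ 8 + c ^ 8 := h5
    _ ≤ h0 ^ 8 + (256 * (A * n) + 1) := by omega
    _ ≤ h0 ^ 8 * n + (256 * (A * n) + n) := by
        have : h0 ^ 8 ≤ h0 ^ 8 * n := Nat.le_mul_of_pos_right _ hn
        omega
    _ = _ := by ring

theorem final (r : ℕ) (hr : 0 < r) :
    ∃ C : ℕ, ∀ n : ℕ, 1 ≤ n →
      ∃ N : ℕ, N ≤ C * n ∧
        ∃ G : SimpleGraph (Fin N),
          ¬ (completeBipartiteGraph (Fin (2 + 1)) (Fin (2 + 1))).IsContained G ∧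
          ∀ χ : Sym2 (Fin N) → Fin r, ∃ c : Fin r,
            ∀ H : SimpleGraph (Fin n),
              (∀ v : Fin n, (H.neighborSet v).ncard ≤ 2) →
                H.IsContained (SimpleGraph.fromEdgeSet {e | e ∈ G.edgeSet ∧ χ e = c}) := by
  classical
  obtain ⟨q, h0, hq, hkey⟩ := key r hr
  refine ⟨h0 ^ 8 + 256 * (q * (r + 3)) + 1, ?_⟩
  intro n hn
  obtain ⟨h, hh0, hA, hC⟩ := exists_h h0 (q * (r + 3)) n hn
  obtain ⟨G, hG, hcol⟩ := hkey h hh0
  refine ⟨h ^ 8, hC, G, not_isContained_of_k33Free hG, ?_⟩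
  intro χ
  by_contra hno
  push Not at hno
  have hbad : ∀ i : Fin r, ∃ (Z : Finset (Fin (h ^ 8))) (ℓ : ℕ), Z.card ≤ n ∧ 3 ≤ ℓ ∧ ℓ ≤ max n 3 ∧
      ¬ ∃ l : List (Fin (h ^ 8)), l.length = ℓ ∧
        IsCyc (SimpleGraph.fromEdgeSet {e | e ∈ G.edgeSet ∧ χ e = i}).Adj l ∧ ∀ x ∈ l, x ∉ Z := by
    intro i
    obtain ⟨H, hH, hnc⟩ := hno i
    by_contra hcon
    push Not at hcon
    have hcont : H.IsContained (SimpleGraph.fromEdgeSet {e | e ∈ G.edgeSet ∧ χ e = i}) := by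
      apply embed_deg2 _ n _ H hH
      intro Z hZ ℓ h3 hm
      exact hcon Z ℓ hZ h3 hm
    obtain ⟨cp⟩ := hcont
    exact hnc.false cp
  choose Z ℓ hZ h3 hm hnc using hbad
  have hZu : (Finset.univ.biUnion Z).card ≤ r * n := by
    refine le_trans Finset.card_biUnion_le ?_
    refine le_trans (Finset.sum_le_card_nsmul _ _ n (fun i _ => hZ i)) ?_
    simp
  obtain ⟨i, l, hl1, hl2, hl3⟩ := hcol χ (Finset.univ.biUnion Z)
    (by
      refine le_trans ?_ hA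
      calc q * (Finset.univ.biUnion Z).card ≤ q * (r * n) := Nat.mul_le_mul_left _ hZu
        _ ≤ q * (r + 3) * n := by nlinarith [Nat.zero_le (q * n)]) ℓ
    (by
      intro i
      refine ⟨h3 i, le_trans ?_ hA⟩
      have : ℓ i ≤ 3 * n := le_trans (hm i) (by omega)
      calc q * ℓ i ≤ q * (3 * n) := Nat.mul_le_mul_left _ this
        _ ≤ q * (r + 3) * n := by nlinarith [Nat.zero_le (q * r * n)])
  apply hnc i
  refine ⟨l, hl1, hl2.mono ?_, ?_⟩
  · rintro x _ y _ ⟨hxy, hc⟩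
    rw [SimpleGraph.fromEdgeSet_adj]
    exact ⟨⟨hxy, hc⟩, hxy.ne⟩
  · intro x hx hxZ
    exact hl3 x hx (Finset.mem_biUnion.2 ⟨i, Finset.mem_univ _, hxZ⟩)

end Pool.Agent.PUG
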