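import Pool.Agent.PUG.Defs

set_option autoImplicit false

namespace Pool.Agent.PUG

section FLG

variable {X Y P D : Type}

/-- an abbreviation for the alphabet -/
private abbrev FLGA (X Y P : Type) : Type := (X ↪ P) × Y

open Classical in
/-- the point code -/
private noncomputable def FLGlam (I : X → Y → Prop) (a : FLGA X Y P) (p : P) : (X ↪ P) × Option Y :=
  (a.1, if ∃ x, a.1 x = p ∧ I x a.2 then none else some a.2)

private theorem FLG_none {I : X → Y → Prop} {a : FLGA X Y P} {p : P} {i : X ↪ P} :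
    FLGlam I a p = (i, none) ↔ a.1 = i ∧ ∃ x, i x = p ∧ I x a.2 := by
  unfold FLGlam
  constructor
  · intro h
    have h1 : a.1 = i := congrArg Prod.fst h
    have h2 := congrArg Prod.snd h
    dsimp only at h2
    refine ⟨h1, ?_⟩
    by_cases hx : ∃ x, a.1 x = p ∧ I x a.2
    · rw [← h1]; exact hx
    · rw [if_neg hx] at h2
      exact absurd h2 (by simp)
  · rintro ⟨h1, hx⟩
    rw [← h1] at hx
    rw [if_pos hx, h1]

private theorem FLG_none' {I : X → Y → Prop} {a : FLGA X Y P} {x : X} {i : X ↪ P}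
    (h : (i, none) = FLGlam I a (i x)) : a = (i, a.2) ∧ I x a.2 := by
  obtain ⟨h1, x', hx', hI⟩ := FLG_none.1 h.symm
  have : x' = x := i.injective hx'
  subst this
  exact ⟨Prod.ext h1 rfl, hI⟩

private theorem FLG_linear {I : X → Y → Prop} (hI : C4Free I) {a b : FLGA X Y P} {p q : P}
    (hpq : p ≠ q) (h1 : FLGlam I a p = FLGlam I b p) (h2 : FLGlam I a q = FLGlam I b q) : a = b := by
  have hi : a.1 = b.1 := by
    have h3 := congrArg Prod.fst h1
    exact h3
  by_cases hy : a.2 = b.2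
  · exact Prod.ext hi hy
  exfalso
  have key : ∀ r : P, FLGlam I a r = FLGlam I b r → ∃ x, a.1 x = r ∧ I x a.2 ∧ I x b.2 := by
    intro r hr
    have h3 := congrArg Prod.snd hr
    unfold FLGlam at h3
    dsimp only at h3
    by_cases hx : ∃ x, a.1 x = r ∧ I x a.2
    · rw [if_pos hx] at h3
      by_cases hx' : ∃ x, b.1 x = r ∧ I x b.2
      · obtain ⟨x, hx1, hx2⟩ := hx
        obtain ⟨x', hx1', hx2'⟩ := hx'
        have : x = x' := by
          apply a.1.injective
          rw [hx1, hi, hx1']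
        subst this
        exact ⟨x, hx1, hx2, hx2'⟩
      · rw [if_neg hx'] at h3
        exact absurd h3 (by simp)
    · rw [if_neg hx] at h3
      by_cases hx' : ∃ x, b.1 x = r ∧ I x b.2
      · rw [if_pos hx'] at h3
        exact absurd h3 (by simp)
      · rw [if_neg hx'] at h3
        exact absurd (Option.some.inj h3) hy
  obtain ⟨x1, hx1, hx1a, hx1b⟩ := key p h1
  obtain ⟨x2, hx2, hx2a, hx2b⟩ := key q h2
  have hne : x1 ≠ x2 := by
    rintro rfl
    exact hpq (hx1.symm.trans hx2)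
  exact hI x1 x2 a.2 b.2 hne hy hx1a hx1b hx2a hx2b

/-- the `j`-th code of a line with embedding -/
private noncomputable def FLGcode (I : X → Y → Prop) (o : Option (FLGA X Y P)) (i : X ↪ P) (x : X) :
    (X ↪ P) × Option Y :=
  match o with
  | none => (i, none)
  | some f => FLGlam I f (i x)

/-- the copies of `X` -/
private noncomputable def FLGphi (I : X → Y → Prop)
    (q : Combinatorics.Line (FLGA X Y P) D × (X ↪ P)) (x : X) : P × (D → (X ↪ P) × Option Y) :=
  (q.2 x, fun j => FLGcode I (q.1.idxFun j) q.2 x)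

/-- the copies of `Y` -/
private def FLGpsi (q : Combinatorics.Line (FLGA X Y P) D × (X ↪ P)) (y : Y) : D → FLGA X Y P :=
  fun j => (q.1.idxFun j).getD (q.2, y)

/-- the relation -/
private def FLGrel (I : X → Y → Prop) (w : P × (D → (X ↪ P) × Option Y)) (a : D → FLGA X Y P) : Prop :=
  ∀ j, w.2 j = FLGlam I (a j) w.1

private theorem FLG_phi_none {I : X → Y → Prop} {q : Combinatorics.Line (FLGA X Y P) D × (X ↪ P)}
    {j : D} (h : q.1.idxFun j = none) (x : X) : (FLGphi I q x).2 j = (q.2, none) := by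
  simp [FLGphi, FLGcode, h]

private theorem FLG_phi_some {I : X → Y → Prop} {q : Combinatorics.Line (FLGA X Y P) D × (X ↪ P)}
    {j : D} {f : FLGA X Y P} (h : q.1.idxFun j = some f) (x : X) :
    (FLGphi I q x).2 j = FLGlam I f (q.2 x) := by
  simp [FLGphi, FLGcode, h]

private theorem FLG_psi_none {q : Combinatorics.Line (FLGA X Y P) D × (X ↪ P)}
    {j : D} (h : q.1.idxFun j = none) (y : Y) : FLGpsi q y j = (q.2, y) := by
  simp [FLGpsi, h]

private theorem FLG_psi_some {q : Combinatorics.Line (FLGA X Y P) D × (X ↪ P)}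
    {j : D} {f : FLGA X Y P} (h : q.1.idxFun j = some f) (y : Y) : FLGpsi q y j = f := by
  simp [FLGpsi, h]

private theorem FLG_injphi {I : X → Y → Prop} (q : Combinatorics.Line (FLGA X Y P) D × (X ↪ P)) :
    Function.Injective (FLGphi I q) := by
  intro x x' h
  exact q.2.injective (congrArg Prod.fst h)

private theorem FLG_injpsi (q : Combinatorics.Line (FLGA X Y P) D × (X ↪ P)) :
    Function.Injective (FLGpsi q) := by
  intro y y' h
  obtain ⟨j, hj⟩ := q.1.proper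
  have h1 := congrFun h j
  rw [FLG_psi_none hj, FLG_psi_none hj] at h1
  exact congrArg Prod.snd h1

private theorem FLG_ind {I : X → Y → Prop} (q : Combinatorics.Line (FLGA X Y P) D × (X ↪ P))
    (x : X) (y : Y) : FLGrel I (FLGphi I q x) (FLGpsi q y) ↔ I x y := by
  constructor
  · intro h
    obtain ⟨j, hj⟩ := q.1.proper
    have h1 := h j
    rw [FLG_phi_none hj, FLG_psi_none hj] at h1
    exact (FLG_none' (i := q.2) (x := x) h1).2
  · intro h j
    rcases hj : q.1.idxFun j with _ | f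
    · rw [FLG_phi_none hj, FLG_psi_none hj]
      exact (FLG_none (a := (q.2, y)).2 ⟨rfl, x, rfl, h⟩).symm
    · rw [FLG_phi_some hj, FLG_psi_some hj]
      rfl

private theorem FLG_c4 {I : X → Y → Prop} (hI : C4Free I) : C4Free (FLGrel (P := P) (D := D) I) := by
  intro w v a b hwv hab hwa hwb hva hvb
  have hp : w.1 ≠ v.1 := by
    intro hp
    apply hwv
    refine Prod.ext hp ?_
    funext j
    rw [hwa j, hva j, hp]
  apply hab
  funext j
  exact FLG_linear hI hp ((hwa j).symm.trans (hwb j)) ((hva j).symm.trans (hvb j))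

private theorem FLG_phi_eq {I : X → Y → Prop} (q : Combinatorics.Line (FLGA X Y P) D × (X ↪ P))
    {x : X} {y : Y} {w : P × (D → (X ↪ P) × Option Y)} (hI : I x y) (hw : FLGrel I w (FLGpsi q y))
    (hp : q.2 x = w.1) : FLGphi I q x = w := by
  refine Prod.ext hp ?_
  funext j
  rw [(FLG_ind q x y).2 hI j, hw j]
  have : (FLGphi I q x).1 = w.1 := hp
  rw [this]

private theorem FLG_cl1 {I : X → Y → Prop} (q : Combinatorics.Line (FLGA X Y P) D × (X ↪ P))
    (y₁ y₂ : Y) (w : P × (D → (X ↪ P) × Option Y)) (hy : y₁ ≠ y₂) (h1 : FLGrel I w (FLGpsi q y₁))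
    (h2 : FLGrel I w (FLGpsi q y₂)) : ∃ x, FLGphi I q x = w := by
  obtain ⟨j, hj⟩ := q.1.proper
  have h1j := h1 j
  have h2j := h2 j
  rw [FLG_psi_none hj] at h1j h2j
  rw [h1j] at h2j
  have h3 := congrArg Prod.snd h2j
  unfold FLGlam at h3
  dsimp only at h3
  by_cases hx : ∃ x, q.2 x = w.1 ∧ I x y₁
  · obtain ⟨x, hx1, hx2⟩ := hx
    exact ⟨x, FLG_phi_eq q hx2 h1 hx1⟩
  · rw [if_neg hx] at h3
    by_cases hx' : ∃ x, q.2 x = w.1 ∧ I x y₂
    · obtain ⟨x, hx1, hx2⟩ := hx'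
      exact ⟨x, FLG_phi_eq q hx2 h2 hx1⟩
    · rw [if_neg hx'] at h3
      exact absurd (Option.some.inj h3) hy

private theorem FLG_cl2 {I : X → Y → Prop} (hI : C4Free I)
    (q : Combinatorics.Line (FLGA X Y P) D × (X ↪ P))
    (x₁ x₂ : X) (a : D → FLGA X Y P) (hx : x₁ ≠ x₂) (h1 : FLGrel I (FLGphi I q x₁) a)
    (h2 : FLGrel I (FLGphi I q x₂) a) : ∃ y, FLGpsi q y = a := by
  have hne : q.2 x₁ ≠ q.2 x₂ := fun h => hx (q.2.injective h)
  have act : ∀ j, q.1.idxFun j = none → a j = (q.2, (a j).2) ∧ I x₁ (a j).2 ∧ I x₂ (a j).2 := by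
    intro j hj
    have h1j := h1 j
    have h2j := h2 j
    rw [FLG_phi_none hj] at h1j h2j
    have e1 := FLG_none' (i := q.2) (x := x₁) h1j
    have e2 := FLG_none' (i := q.2) (x := x₂) h2j
    exact ⟨e1.1, e1.2, e2.2⟩
  obtain ⟨j0, hj0⟩ := q.1.proper
  refine ⟨(a j0).2, ?_⟩
  funext j
  rcases hj : q.1.idxFun j with _ | f
  · rw [FLG_psi_none hj]
    obtain ⟨e, e1, e2⟩ := act j hj
    obtain ⟨-, e1', e2'⟩ := act j0 hj0
    by_cases hy : (a j0).2 = (a j).2
    · rw [hy]; exact e.symm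
    · exact (hI x₁ x₂ _ _ hx hy e1' e1 e2' e2).elim
  · rw [FLG_psi_some hj]
    have h1j := h1 j
    have h2j := h2 j
    rw [FLG_phi_some hj] at h1j h2j
    exact FLG_linear hI hne h1j h2j

private theorem FLG_qeq {q q' : Combinatorics.Line (FLGA X Y P) D × (X ↪ P)}
    (hi : q.2 = q'.2) (hl : ∀ j, q.1.idxFun j = q'.1.idxFun j) : q = q' := by
  obtain ⟨⟨f, hf⟩, i⟩ := q
  obtain ⟨⟨f', hf'⟩, i'⟩ := q'
  have hi' : i = i' := hi
  have hl' : f = f' := funext hl
  subst hi'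
  subst hl'
  rfl

private theorem FLG_int1 (q q' : Combinatorics.Line (FLGA X Y P) D × (X ↪ P)) (y₁ y₂ y₁' y₂' : Y)
    (hq : q ≠ q') (h1 : FLGpsi q y₁ = FLGpsi q' y₁') (h2 : FLGpsi q y₂ = FLGpsi q' y₂') : y₁ = y₂ := by
  by_contra hy
  have hy' : y₁' ≠ y₂' := by
    rintro rfl
    exact hy (FLG_injpsi q (h1.trans h2.symm))
  have key : ∀ (q q' : Combinatorics.Line (FLGA X Y P) D × (X ↪ P)) (y₁ y₂ y₁' y₂' : Y),
      y₁ ≠ y₂ → FLGpsi q y₁ = FLGpsi q' y₁' → FLGpsi q y₂ = FLGpsi q' y₂' →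
      ∀ j, q.1.idxFun j = none → q'.1.idxFun j = none ∧ q.2 = q'.2 := by
    intro q q' y₁ y₂ y₁' y₂' hy h1 h2 j hj
    have e1 := congrFun h1 j
    have e2 := congrFun h2 j
    rw [FLG_psi_none hj] at e1 e2
    rcases hj' : q'.1.idxFun j with _ | f
    · rw [FLG_psi_none hj'] at e1
      exact ⟨rfl, congrArg Prod.fst e1⟩
    · rw [FLG_psi_some hj'] at e1 e2
      exact absurd (congrArg Prod.snd (e1.trans e2.symm)) hy
  apply hq
  obtain ⟨j0, hj0⟩ := q.1.proper
  refine FLG_qeq (key q q' y₁ y₂ y₁' y₂' hy h1 h2 j0 hj0).2 ?_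
  intro j
  rcases hj : q.1.idxFun j with _ | f
  · exact (key q q' y₁ y₂ y₁' y₂' hy h1 h2 j hj).1.symm
  · rcases hj' : q'.1.idxFun j with _ | f'
    · have := (key q' q y₁' y₂' y₁ y₂ hy' h1.symm h2.symm j hj').1
      rw [hj] at this
      exact absurd this (by simp)
    · have e1 := congrFun h1 j
      rw [FLG_psi_some hj, FLG_psi_some hj'] at e1
      rw [e1]

private theorem FLG_int2 {I : X → Y → Prop} (hI : C4Free I)
    (q q' : Combinatorics.Line (FLGA X Y P) D × (X ↪ P)) (x₁ x₂ x₁' x₂' : X)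
    (hq : q ≠ q') (hx : x₁ ≠ x₂) (h1 : FLGphi I q x₁ = FLGphi I q' x₁')
    (h2 : FLGphi I q x₂ = FLGphi I q' x₂') :
    ∃ y y', FLGpsi q y = FLGpsi q' y' ∧ I x₁ y ∧ I x₂ y := by
  have hx' : x₁' ≠ x₂' := by
    rintro rfl
    exact hx (FLG_injphi q (h1.trans h2.symm))
  have suff : ∀ a : D → FLGA X Y P, FLGrel I (FLGphi I q x₁) a → FLGrel I (FLGphi I q x₂) a →
      ∃ y y', FLGpsi q y = FLGpsi q' y' ∧ I x₁ y ∧ I x₂ y := by
    intro a ha1 ha2
    obtain ⟨y, hy⟩ := FLG_cl2 hI q x₁ x₂ a hx ha1 ha2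
    have ha1' := ha1
    have ha2' := ha2
    rw [h1] at ha1'
    rw [h2] at ha2'
    obtain ⟨y', hy'⟩ := FLG_cl2 hI q' x₁' x₂' a hx' ha1' ha2'
    refine ⟨y, y', hy.trans hy'.symm, ?_, ?_⟩
    · rw [← hy] at ha1
      exact (FLG_ind q x₁ y).1 ha1
    · rw [← hy] at ha2
      exact (FLG_ind q x₂ y).1 ha2
  have p1 : q.2 x₁ = q'.2 x₁' := congrArg Prod.fst h1
  have p2 : q.2 x₂ = q'.2 x₂' := congrArg Prod.fst h2
  have s1 : ∀ j, (FLGphi I q x₁).2 j = (FLGphi I q' x₁').2 j := fun j => by rw [h1]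
  have s2 : ∀ j, (FLGphi I q x₂).2 j = (FLGphi I q' x₂').2 j := fun j => by rw [h2]
  by_cases hA : ∃ j, q.1.idxFun j = none ∧ q'.1.idxFun j ≠ none
  · obtain ⟨j, hj, hj'⟩ := hA
    obtain ⟨f, hf⟩ := Option.ne_none_iff_exists'.1 hj'
    have e1 := s1 j
    have e2 := s2 j
    rw [FLG_phi_none hj, FLG_phi_some hf] at e1 e2
    rw [← p1] at e1
    rw [← p2] at e2
    have g1 := FLG_none' e1
    have g2 := FLG_none' e2
    exact suff (FLGpsi q f.2) ((FLG_ind q x₁ f.2).2 g1.2) ((FLG_ind q x₂ f.2).2 g2.2)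
  by_cases hB : ∃ j, q'.1.idxFun j = none ∧ q.1.idxFun j ≠ none
  · obtain ⟨j, hj', hj⟩ := hB
    obtain ⟨f, hf⟩ := Option.ne_none_iff_exists'.1 hj
    have e1 := (s1 j).symm
    have e2 := (s2 j).symm
    rw [FLG_phi_none hj', FLG_phi_some hf] at e1 e2
    rw [p1] at e1
    rw [p2] at e2
    have g1 := FLG_none' e1
    have g2 := FLG_none' e2
    refine suff (FLGpsi q' f.2) ?_ ?_
    · rw [h1]; exact (FLG_ind q' x₁' f.2).2 g1.2
    · rw [h2]; exact (FLG_ind q' x₂' f.2).2 g2.2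
  exfalso
  apply hq
  push Not at hA hB
  obtain ⟨j0, hj0⟩ := q.1.proper
  have hi : q.2 = q'.2 := by
    have e1 := s1 j0
    rw [FLG_phi_none hj0, FLG_phi_none (hA j0 hj0)] at e1
    exact congrArg Prod.fst e1
  refine FLG_qeq hi ?_
  intro j
  rcases hj : q.1.idxFun j with _ | f
  · exact (hA j hj).symm
  · rcases hj' : q'.1.idxFun j with _ | f'
    · have := hB j hj'
      rw [hj] at this
      exact absurd this (by simp)
    · have e1 := s1 j
      have e2 := s2 j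
      rw [FLG_phi_some hj, FLG_phi_some hj'] at e1 e2
      rw [← p1] at e1
      rw [← p2] at e2
      have : f = f' := FLG_linear hI (fun h => hx (q.2.injective h)) e1 e2
      rw [this]

private theorem FLG_int3 {I : X → Y → Prop}
    (q q' : Combinatorics.Line (FLGA X Y P) D × (X ↪ P)) (x x₁ : X) (y y₁ : Y)
    (hq : q ≠ q') (h1 : FLGphi I q x = FLGphi I q' x₁) (h2 : FLGpsi q y = FLGpsi q' y₁) : I x y := by
  have p1 : q.2 x = q'.2 x₁ := congrArg Prod.fst h1
  have s1 : ∀ j, (FLGphi I q x).2 j = (FLGphi I q' x₁).2 j := fun j => by rw [h1]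
  have t1 : ∀ j, FLGpsi q y j = FLGpsi q' y₁ j := fun j => by rw [h2]
  by_cases hA : ∃ j, q.1.idxFun j = none ∧ q'.1.idxFun j ≠ none
  · obtain ⟨j, hj, hj'⟩ := hA
    obtain ⟨f, hf⟩ := Option.ne_none_iff_exists'.1 hj'
    have e1 := s1 j
    have e2 := t1 j
    rw [FLG_phi_none hj, FLG_phi_some hf, ← p1] at e1
    rw [FLG_psi_none hj, FLG_psi_some hf] at e2
    rw [← e2] at e1
    exact (FLG_none' e1).2
  by_cases hB : ∃ j, q'.1.idxFun j = none ∧ q.1.idxFun j ≠ none
  · obtain ⟨j, hj', hj⟩ := hB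
    obtain ⟨f, hf⟩ := Option.ne_none_iff_exists'.1 hj
    have e1 := (s1 j).symm
    have e2 := (t1 j).symm
    rw [FLG_phi_none hj', FLG_phi_some hf, p1] at e1
    rw [FLG_psi_none hj', FLG_psi_some hf] at e2
    rw [← e2] at e1
    have g := (FLG_ind q' x₁ y₁).2 (FLG_none' e1).2
    rw [← h1, ← h2] at g
    exact (FLG_ind q x y).1 g
  exfalso
  apply hq
  push Not at hA hB
  obtain ⟨j0, hj0⟩ := q.1.proper
  have hi : q.2 = q'.2 := by
    have e1 := s1 j0
    rw [FLG_phi_none hj0, FLG_phi_none (hA j0 hj0)] at e1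
    exact congrArg Prod.fst e1
  refine FLG_qeq hi ?_
  intro j
  rcases hj : q.1.idxFun j with _ | f
  · exact (hA j hj).symm
  · rcases hj' : q'.1.idxFun j with _ | f'
    · have := hB j hj'
      rw [hj] at this
      exact absurd this (by simp)
    · have e2 := t1 j
      rw [FLG_psi_some hj, FLG_psi_some hj'] at e2
      rw [e2]

end FLG

/-- First partite lemma (Hales–Jewett power of a linear hypergraph). -/
theorem flag_lemma (r : ℕ) (hr : 0 < r) {X Y : Type} [Finite X] [Finite Y] (I : X → Y → Prop)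
    (hI : C4Free I) :
    ∃ (X' Y' Q : Type) (_ : Finite X') (_ : Finite Y') (_ : Finite Q) (I' : X' → Y' → Prop)
      (φ : Q → X → X') (ψ : Q → Y → Y'), PLFlag I r X' Y' Q I' φ ψ := by
  classical
  have := Fintype.ofFinite X
  have : Nonempty (Fin r) := ⟨⟨0, hr⟩⟩
  let P : Type := Fin (r * Fintype.card X)
  obtain ⟨D, hD, hHJ⟩ :=
    Combinatorics.Line.exists_mono_in_high_dimension (FLGA X Y P) (P → Fin r)
  have : Finite (Combinatorics.Line (FLGA X Y P) D) := by
    refine Finite.of_injective (fun l => l.idxFun) ?_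
    rintro ⟨f, hf⟩ ⟨f', hf'⟩ h
    have h' : f = f' := h
    subst h'
    rfl
  refine ⟨P × (D → (X ↪ P) × Option Y), D → FLGA X Y P,
    Combinatorics.Line (FLGA X Y P) D × (X ↪ P), inferInstance, inferInstance, inferInstance,
    FLGrel I, FLGphi I, FLGpsi, ?_⟩
  refine ⟨FLG_c4 hI, FLG_injphi, FLG_injpsi, FLG_ind, ?_, FLG_cl1, FLG_cl2 hI, FLG_int1,
    FLG_int2 hI, FLG_int3⟩
  intro c
  obtain ⟨l, g, hg⟩ := hHJ (fun a p => c (p, fun j => FLGlam I (a j) p) a)
  obtain ⟨s, hs⟩ := Fintype.exists_le_card_fiber_of_mul_le_card g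
    (n := Fintype.card X) (by simp [P])
  obtain ⟨i⟩ : Nonempty (X ↪ {p : P // g p = s}) := by
    apply Function.Embedding.nonempty_of_card_le
    rw [Fintype.card_subtype]
    exact hs
  refine ⟨(l, i.trans (Function.Embedding.subtype _)), s, ?_⟩
  intro x y hxy
  set q : Combinatorics.Line (FLGA X Y P) D × (X ↪ P) :=
    (l, i.trans (Function.Embedding.subtype _)) with hq
  have e1 : FLGphi I q x = (q.2 x, fun j => FLGlam I (FLGpsi q y j) (q.2 x)) := by
    refine Prod.ext rfl ?_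
    funext j
    exact (FLG_ind q x y).2 hxy j
  have e2 : FLGpsi q y = l (q.2, y) := rfl
  have e3 := congrFun (hg (q.2, y)) (q.2 x)
  dsimp only at e3
  rw [e1, e2]
  refine e3.trans ?_
  exact (i x).2

end Pool.Agent.PUG
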