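import Pool.Agent.PUG.TAIL
import Pool.Agent.PUG.CRS
import Pool.Agent.PUG.BGK

set_option autoImplicit false

namespace Pool.Agent.PUG

open Classical in
private lemma small_sets (N m : ℕ) :
    ((Finset.univ : Finset (Finset (Fin N))).filter (fun C => C.card ≤ m)).card ≤ (N + 1) ^ m := by
  have h := Finset.card_le_card_of_injOn
    (s := (Finset.univ : Finset (Finset (Fin N))).filter (fun C => C.card ≤ m))
    (t := (Finset.univ : Finset (Fin m → Option (Fin N))))
    (fun C i => (C.sort (· ≤ ·))[i.1]?) (by intro C _; simp) (by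
      intro C hC D hD hCD
      have hC' : C.card ≤ m := by simpa using hC
      have hD' : D.card ≤ m := by simpa using hD
      have hl : C.sort (· ≤ ·) = D.sort (· ≤ ·) := by
        apply List.ext_getElem?
        intro i
        by_cases hi : i < m
        · exact congrFun hCD ⟨i, hi⟩
        · rw [List.getElem?_eq_none (by rw [Finset.length_sort]; omega),
            List.getElem?_eq_none (by rw [Finset.length_sort]; omega)]
      rw [← Finset.sort_toFinset (s := C) (r := (· ≤ ·)), hl, Finset.sort_toFinset])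
  refine h.trans ?_
  simp

open Classical in
private lemma exists_bound {Ω ι : Type*} [Fintype Ω] [Fintype ι] (P : ι → Ω → Prop) (β : ι → ℝ)
    {d1 : DecidablePred (fun f : Ω => ∃ i, P i f)}
    (h : ∀ i, ((Finset.filter (fun f : Ω => P i f) Finset.univ).card : ℝ) ≤ β i) :
    ((Finset.filter (fun f : Ω => ∃ i, P i f) Finset.univ).card : ℝ) ≤ ∑ i, β i := by
  have h0 : (Finset.univ.filter (fun f : Ω => ∃ i, P i f)) ⊆
      Finset.univ.biUnion (fun i => Finset.filter (fun f : Ω => P i f) Finset.univ) := by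
    intro f hf
    simpa using hf
  have h2 := (Finset.card_le_card h0).trans Finset.card_biUnion_le
  have h3 : ((Finset.filter (fun f : Ω => ∃ i, P i f) Finset.univ).card : ℝ) ≤
      ∑ i, ((Finset.filter (fun f : Ω => P i f) Finset.univ).card : ℝ) := by
    exact_mod_cast h2
  exact h3.trans (Finset.sum_le_sum (fun i _ => h i))

private lemma sum_pow_card (N : ℕ) (x : ℝ) :
    ∑ A : Finset (Fin N), x ^ A.card = (1 + x) ^ N := by
  have h := Fintype.sum_pow_mul_eq_add_pow (Fin N) x 1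
  simp only [one_pow, mul_one, Fintype.card_fin] at h
  rw [h, add_comm]

private lemma pow_sub_one_le (N : ℕ) (x : ℝ) (hx : 0 ≤ x) (hNx : (N : ℝ) * x ≤ 1) :
    (1 + x) ^ N - 1 ≤ 2 * (N * x) := by
  have h1 : (1 + x) ^ N ≤ Real.exp (N * x) := by
    rw [Real.exp_nat_mul]
    exact pow_le_pow_left₀ (by linarith) (by linarith [Real.add_one_le_exp x]) N
  have h0 : 0 ≤ (N : ℝ) * x := by positivity
  have h2 := Real.abs_exp_sub_one_le (x := (N : ℝ) * x) (by rw [abs_of_nonneg h0]; exact hNx)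
  rw [abs_of_nonneg (by linarith [Real.add_one_le_exp ((N : ℝ) * x)]), abs_of_nonneg h0] at h2
  linarith

open Classical in
/-- The density of a cylinder set through an injection. -/
private lemma cyl_low {b N m q : ℕ} (ι : Fin m → Fin b) (hι : Function.Injective ι)
    (X : Fin m → Finset (Fin N)) (hX : ∀ v, N ≤ q * (X v).card) :
    Fintype.card (Fin b → Fin N) ≤
      q ^ m * (Finset.univ.filter (fun y : Fin b → Fin N => ∀ v, y (ι v) ∈ X v)).card := by
  set S : Fin b → Finset (Fin N) := fun l =>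
    if h : ∃ v, ι v = l then X h.choose else Finset.univ with hS
  have hSι : ∀ v, S (ι v) = X v := by
    intro v
    have h : ∃ w, ι w = ι v := ⟨v, rfl⟩
    simp only [hS, dif_pos h]
    rw [hι h.choose_spec]
  have hSn : ∀ l, l ∉ Set.range ι → S l = Finset.univ := by
    intro l hl
    have h : ¬ ∃ w, ι w = l := fun ⟨w, hw⟩ => hl ⟨w, hw⟩
    simp only [hS, dif_neg h]
  have hT : (Finset.univ.filter (fun y : Fin b → Fin N => ∀ v, y (ι v) ∈ X v)) =
      Fintype.piFinset S := by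
    ext y
    simp only [Finset.mem_filter, Finset.mem_univ, true_and, Fintype.mem_piFinset]
    constructor
    · intro h l
      by_cases hl : l ∈ Set.range ι
      · obtain ⟨v, rfl⟩ := hl
        rw [hSι]; exact h v
      · rw [hSn l hl]; simp
    · intro h v
      rw [← hSι]; exact h _
  rw [hT, Fintype.card_piFinset]
  have hq : q ^ m = ∏ l : Fin b, (if l ∈ Set.range ι then q else 1) := by
    rw [← Fintype.prod_of_injective ι hι (fun _ => q) (fun l => if l ∈ Set.range ι then q else 1)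
      (by intro l hl; simp [hl]) (by intro v; simp)]
    simp
  rw [hq, ← Finset.prod_mul_distrib]
  rw [Fintype.card_pi]
  apply Finset.prod_le_prod' 
  intro l _
  by_cases hl : l ∈ Set.range ι
  · obtain ⟨v, rfl⟩ := hl
    rw [hSι]
    simpa using hX v
  · rw [hSn l hl]
    simp [hl]

open Classical in
/-- The density of a two-coordinate cylinder. -/
private lemma cyl_two {b N : ℕ} (i j : Fin b) (hij : i ≠ j) (A C : Finset (Fin N)) :
    (Finset.univ.filter (fun y : Fin b → Fin N => y i ∈ A ∧ y j ∈ C)).card * N ^ 2 =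
      A.card * C.card * Fintype.card (Fin b → Fin N) := by
  set S : Fin b → Finset (Fin N) := fun l => if l = i then A else if l = j then C else Finset.univ
    with hS
  have hT : (Finset.univ.filter (fun y : Fin b → Fin N => y i ∈ A ∧ y j ∈ C)) =
      Fintype.piFinset S := by
    ext y
    simp only [Finset.mem_filter, Finset.mem_univ, true_and, Fintype.mem_piFinset, hS]
    constructor
    · rintro ⟨h1, h2⟩ l
      by_cases hl : l = i
      · subst hl; simpa using h1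
      · by_cases hl2 : l = j
        · subst hl2; simpa [hl] using h2
        · simp [hl, hl2]
    · intro h
      have h1 := h i
      have h2 := h j
      simp only [if_true] at h1
      rw [if_neg (Ne.symm hij), if_pos rfl] at h2
      exact ⟨h1, h2⟩
  rw [hT, Fintype.card_piFinset, Fintype.card_pi]
  have e1 : (N : ℕ) ^ 2 = (∏ l : Fin b, if l = i then N else 1) * (∏ l : Fin b, if l = j then N else 1) := by
    simp [sq]
  have e2 : A.card * C.card = (∏ l : Fin b, if l = i then A.card else 1) *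
      (∏ l : Fin b, if l = j then C.card else 1) := by
    simp
  rw [e1, e2, ← Finset.prod_mul_distrib, ← Finset.prod_mul_distrib, ← Finset.prod_mul_distrib,
    ← Finset.prod_mul_distrib]
  apply Finset.prod_congr rfl
  intro l _
  by_cases hl : l = i
  · subst hl
    simp [hS, hij, mul_comm]
  · by_cases hl2 : l = j
    · subst hl2
      simp [hS, hl, mul_comm]
    · simp [hS, hl, hl2]


open Filter in
private lemma asymp1 (ρ m : ℕ) (hρ : 0 < ρ) (ε : ℝ) (hε : 0 < ε) :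
    ∀ᶠ h : ℕ in atTop, ((2 : ℝ) ^ (h ^ 8)) ^ m * Real.exp (-((h : ℝ) ^ 10) / (4 * ρ)) ≤ ε := by
  have h1 : ∀ᶠ h : ℕ in atTop, Real.exp (-(h : ℝ)) ≤ ε := by
    have ht : Tendsto (fun h : ℕ => Real.exp (-(h : ℝ))) atTop (nhds 0) :=
      Real.tendsto_exp_neg_atTop_nhds_zero.comp tendsto_natCast_atTop_atTop
    exact ht.eventually_le_const hε
  have h2 : ∀ᶠ h : ℕ in atTop, 4 * ρ * (m + 1) ≤ h := eventually_ge_atTop _
  filter_upwards [h1, h2] with h hh1 hh2
  refine le_trans ?_ hh1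
  have h2e : ((2 : ℝ) ^ (h ^ 8)) ^ m ≤ Real.exp ((h : ℝ) ^ 8 * m) := by
    rw [← pow_mul]
    have : (2 : ℝ) ≤ Real.exp 1 := by linarith [Real.add_one_le_exp (1 : ℝ)]
    calc (2 : ℝ) ^ (h ^ 8 * m) ≤ (Real.exp 1) ^ (h ^ 8 * m) := pow_le_pow_left₀ (by norm_num) this _
      _ = Real.exp ((h : ℝ) ^ 8 * m) := by
        rw [← Real.exp_nat_mul]; push_cast; ring_nf
  have hρ' : (0 : ℝ) < ρ := by exact_mod_cast hρ
  have hh2' : (4 * ρ * (m + 1) : ℝ) ≤ h := by exact_mod_cast hh2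
  have hge : (1 : ℝ) ≤ h := by
    have : 1 ≤ 4 * ρ * (m + 1) := Nat.one_le_iff_ne_zero.mpr (by positivity)
    exact_mod_cast this.trans hh2
  calc ((2 : ℝ) ^ (h ^ 8)) ^ m * Real.exp (-((h : ℝ) ^ 10) / (4 * ρ))
      ≤ Real.exp ((h : ℝ) ^ 8 * m) * Real.exp (-((h : ℝ) ^ 10) / (4 * ρ)) :=
        mul_le_mul_of_nonneg_right h2e (Real.exp_pos _).le
    _ = Real.exp ((h : ℝ) ^ 8 * m + -((h : ℝ) ^ 10) / (4 * ρ)) := by rw [Real.exp_add]
    _ ≤ Real.exp (-(h : ℝ)) := by
        apply Real.exp_le_exp.mpr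
        have h3 : (h : ℝ) ^ 8 * (m + 1) ≤ (h : ℝ) ^ 10 / (4 * ρ) := by
          rw [le_div_iff₀ (by positivity)]
          have : (h : ℝ) ^ 10 = h ^ 8 * (h * h) := by ring
          rw [this, mul_assoc]
          apply mul_le_mul_of_nonneg_left _ (by positivity)
          have : (4 * ρ * (m + 1) : ℝ) ≤ h * h := by nlinarith
          linarith
        have h4 : (h : ℝ) ≤ (h : ℝ) ^ 8 := by
          calc (h : ℝ) = h ^ 1 := (pow_one _).symm
            _ ≤ h ^ 8 := pow_le_pow_right₀ hge (by norm_num)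
        have h5 : -((h : ℝ) ^ 10) / (4 * ρ) = -((h : ℝ) ^ 10 / (4 * ρ)) := neg_div _ _
        rw [h5]
        linarith

open Filter in
private lemma asymp2 (c : ℝ) (hc : 0 < c) (ε : ℝ) (hε : 0 < ε) :
    ∀ᶠ h : ℕ in atTop,
      ((h ^ 8 : ℕ) : ℝ) * ((((h ^ 8 : ℕ) : ℝ) + 1) ^ h * Real.exp (-((h : ℝ) ^ 2) / c)) ≤ ε := by
  have h1 : ∀ᶠ h : ℕ in atTop, Real.exp (-((h : ℝ) / (2 * c))) ≤ ε := by
    have ht : Tendsto (fun h : ℕ => Real.exp (-((h : ℝ) / (2 * c)))) atTop (nhds 0) := by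
      apply Real.tendsto_exp_neg_atTop_nhds_zero.comp
      exact (tendsto_natCast_atTop_atTop).atTop_div_const (by positivity)
    exact ht.eventually_le_const hε
  have h2 : ∀ᶠ h : ℕ in atTop, Real.log (2 * (h : ℝ)) ≤ (h : ℝ) / (32 * c) := by
    have hlo := Real.isLittleO_log_id_atTop.bound (show (0 : ℝ) < 1 / (64 * c) by positivity)
    have ht : Tendsto (fun h : ℕ => 2 * (h : ℝ)) atTop atTop :=
      (tendsto_natCast_atTop_atTop).const_mul_atTop (by norm_num)
    filter_upwards [ht.eventually hlo, eventually_ge_atTop 1] with h hh hh1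
    have hpos : (0 : ℝ) ≤ 2 * (h : ℝ) := by positivity
    have hh' : Real.log (2 * (h : ℝ)) ≤ 1 / (64 * c) * (2 * (h : ℝ)) := by
      have h3 : |Real.log (2 * (h : ℝ))| ≤ 1 / (64 * c) * |2 * (h : ℝ)| := hh
      rw [abs_of_nonneg hpos] at h3
      exact (le_abs_self _).trans h3
    have e : (h : ℝ) / (32 * c) = 1 / (64 * c) * (2 * (h : ℝ)) := by
      field_simp; ring
    rw [e]
    exact hh'
  filter_upwards [h1, h2, eventually_ge_atTop 1] with h hh1 hh2 hh3
  refine le_trans ?_ hh1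
  have hge : (1 : ℝ) ≤ h := by exact_mod_cast hh3
  have hN : (((h ^ 8 : ℕ) : ℝ) + 1) ≤ (2 * (h : ℝ)) ^ 8 := by
    push_cast
    have h8 : (1 : ℝ) ≤ (h : ℝ) ^ 8 := one_le_pow₀ hge
    have : (2 * (h : ℝ)) ^ 8 = 256 * (h : ℝ) ^ 8 := by ring
    rw [this]; linarith
  have hN0 : (0 : ℝ) ≤ ((h ^ 8 : ℕ) : ℝ) := by positivity
  have hN1 : ((h ^ 8 : ℕ) : ℝ) ≤ (2 * (h : ℝ)) ^ 8 := by linarith
  have hpos : (0 : ℝ) < 2 * h := by positivity
  have hA : ((h ^ 8 : ℕ) : ℝ) * (((h ^ 8 : ℕ) : ℝ) + 1) ^ h ≤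
      Real.exp (8 * (h + 1) * Real.log (2 * h)) := by
    have e : Real.exp (8 * (h + 1) * Real.log (2 * h)) = (2 * (h : ℝ)) ^ 8 * ((2 * (h : ℝ)) ^ 8) ^ h := by
      rw [← pow_mul, ← pow_add]
      rw [show (8 * ((h : ℝ) + 1) * Real.log (2 * h)) = ((8 + 8 * h : ℕ) : ℝ) * Real.log (2 * h) by
        push_cast; ring]
      rw [Real.exp_nat_mul, Real.exp_log hpos]
    rw [e]
    gcongr
  rw [← mul_assoc]
  calc ((h ^ 8 : ℕ) : ℝ) * (((h ^ 8 : ℕ) : ℝ) + 1) ^ h * Real.exp (-((h : ℝ) ^ 2) / c)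
      ≤ Real.exp (8 * (h + 1) * Real.log (2 * h)) * Real.exp (-((h : ℝ) ^ 2) / c) :=
        mul_le_mul_of_nonneg_right hA (Real.exp_pos _).le
    _ = Real.exp (8 * (h + 1) * Real.log (2 * h) + -((h : ℝ) ^ 2) / c) := by rw [Real.exp_add]
    _ ≤ Real.exp (-((h : ℝ) / (2 * c))) := by
        apply Real.exp_le_exp.mpr
        have hL : 8 * ((h : ℝ) + 1) * Real.log (2 * h) ≤ 16 * h * (h / (32 * c)) := by
          have hlog : 0 ≤ Real.log (2 * (h : ℝ)) := Real.log_nonneg (by linarith)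
          calc 8 * ((h : ℝ) + 1) * Real.log (2 * h) ≤ 16 * h * Real.log (2 * h) := by
                apply mul_le_mul_of_nonneg_right _ hlog; linarith
            _ ≤ _ := by apply mul_le_mul_of_nonneg_left hh2; positivity
        have e2 : 16 * (h : ℝ) * (h / (32 * c)) = (h : ℝ) ^ 2 / c / 2 := by field_simp; ring
        have e3 : (h : ℝ) / (2 * c) ≤ (h : ℝ) ^ 2 / c / 2 := by
          have : (h : ℝ) / (2 * c) = h / c / 2 := by field_simp
          rw [this]
          have : (h : ℝ) / c ≤ (h : ℝ) ^ 2 / c := by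
            apply div_le_div_of_nonneg_right _ hc.le
            nlinarith
          linarith
        have e4 : -((h : ℝ) ^ 2) / c = -((h : ℝ) ^ 2 / c) := neg_div _ _
        rw [e4]
        rw [e2] at hL
        linarith


open Filter in
private lemma asymp3 (ρ b : ℕ) :
    ∀ᶠ h : ℕ in atTop, 8 * ρ * (4 * b ^ 2 * h ^ 2 + 256 * b ^ 8 * h ^ 8) ≤ h ^ 10 := by
  filter_upwards [eventually_ge_atTop (8 * ρ * (4 * b ^ 2 + 256 * b ^ 8) + 1)] with h hh
  have h1 : 1 ≤ h := le_trans (Nat.le_add_left _ _) hh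
  have h2 : 8 * ρ * (4 * b ^ 2 + 256 * b ^ 8) ≤ h ^ 2 := by nlinarith
  have h3 : h ^ 2 ≤ h ^ 8 := Nat.pow_le_pow_right h1 (by norm_num)
  calc 8 * ρ * (4 * b ^ 2 * h ^ 2 + 256 * b ^ 8 * h ^ 8)
      ≤ 8 * ρ * (4 * b ^ 2 * h ^ 8 + 256 * b ^ 8 * h ^ 8) := by gcongr
    _ = (8 * ρ * (4 * b ^ 2 + 256 * b ^ 8)) * h ^ 8 := by ring
    _ ≤ h ^ 2 * h ^ 8 := Nat.mul_le_mul_right _ h2
    _ = h ^ 10 := by ring

open Classical in
private lemma markov {Ω : Type*} [Fintype Ω] (g : Ω → ℕ) (t : ℕ)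
    (h : ∑ f, g f ≤ t * Fintype.card Ω) :
    4 * (Finset.univ.filter (fun f => 4 * t < g f)).card ≤ Fintype.card Ω := by
  have h1 : (Finset.univ.filter (fun f => 4 * t < g f)).card * (4 * t + 1) ≤ ∑ f, g f := by
    calc (Finset.univ.filter (fun f => 4 * t < g f)).card * (4 * t + 1)
        = ∑ f ∈ Finset.univ.filter (fun f => 4 * t < g f), (4 * t + 1) := by simp
      _ ≤ ∑ f ∈ Finset.univ.filter (fun f => 4 * t < g f), g f := by
          apply Finset.sum_le_sum
          intro f hf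
          simp only [Finset.mem_filter, Finset.mem_univ, true_and] at hf
          omega
      _ ≤ ∑ f, g f := Finset.sum_le_sum_of_subset (Finset.filter_subset _ _)
  rcases Nat.eq_zero_or_pos t with ht | ht
  · subst ht
    have : (Finset.univ.filter (fun f => 4 * 0 < g f)).card * (4 * 0 + 1) ≤ 0 := by
      simpa using h1.trans h
    omega
  · have h2 : t * (4 * (Finset.univ.filter (fun f => 4 * t < g f)).card) ≤ t * Fintype.card Ω := by
      refine le_trans ?_ (h1.trans h)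
      have : (Finset.univ.filter (fun f => 4 * t < g f)).card * (4 * t + 1) =
        t * (4 * (Finset.univ.filter (fun f => 4 * t < g f)).card) +
          (Finset.univ.filter (fun f => 4 * t < g f)).card := by ring
      rw [this]; exact Nat.le_add_right _ _
    exact Nat.le_of_mul_le_mul_left h2 ht

open Classical in
private lemma bad1_bound {b : ℕ} (h : ℕ) (m q : ℕ) (hq : 0 < q) (ι : Fin m → Fin b)
    (hι : Function.Injective ι) :
    ((Finset.univ.filter (fun f : Fin (h ^ 10) → Fin b → Fin (h ^ 8) =>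
      ∃ X : Fin m → Finset (Fin (h ^ 8)), (∀ v, h ^ 8 ≤ q * (X v).card) ∧
        4 * q ^ m * (Finset.univ.filter (fun k => ∀ v, f k (ι v) ∈ X v)).card < h ^ 10)).card : ℝ)
      ≤ ((2 : ℝ) ^ (h ^ 8)) ^ m * Real.exp (-((h : ℝ) ^ 10) / (4 * ((q ^ m : ℕ) : ℝ))) *
        (Fintype.card (Fin (h ^ 10) → Fin b → Fin (h ^ 8)) : ℝ) := by
  have key : ∀ X : Fin m → Finset (Fin (h ^ 8)),
      ((Finset.univ.filter (fun f : Fin (h ^ 10) → Fin b → Fin (h ^ 8) =>
        (∀ v, h ^ 8 ≤ q * (X v).card) ∧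
        4 * q ^ m * (Finset.univ.filter (fun k => ∀ v, f k (ι v) ∈ X v)).card < h ^ 10)).card : ℝ)
      ≤ Real.exp (-((h : ℝ) ^ 10) / (4 * ((q ^ m : ℕ) : ℝ))) *
        (Fintype.card (Fin (h ^ 10) → Fin b → Fin (h ^ 8)) : ℝ) := by
    intro X
    by_cases hX : ∀ v, h ^ 8 ≤ q * (X v).card
    · have ht := tail_low (κ := Fin (h ^ 10))
        (Finset.univ.filter (fun y : Fin b → Fin (h ^ 8) => ∀ v, y (ι v) ∈ X v)) (q ^ m)
        (by positivity) (cyl_low ι hι X hX)
      have e1 : (Fintype.card (Fin (h ^ 10) → Fin b → Fin (h ^ 8)) : ℝ) =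
          (Fintype.card (Fin b → Fin (h ^ 8)) : ℝ) ^ (Fintype.card (Fin (h ^ 10))) := by
        rw [Fintype.card_fun (α := Fin (h ^ 10))]; push_cast; rfl
      rw [e1]
      have e2 : ((Fintype.card (Fin (h ^ 10)) : ℕ) : ℝ) = (h : ℝ) ^ 10 := by simp
      rw [e2] at ht
      refine le_trans (le_of_eq ?_) ht
      congr 2
      ext f
      simp [hX]
    · have : (Finset.univ.filter (fun f : Fin (h ^ 10) → Fin b → Fin (h ^ 8) =>
        (∀ v, h ^ 8 ≤ q * (X v).card) ∧
        4 * q ^ m * (Finset.univ.filter (fun k => ∀ v, f k (ι v) ∈ X v)).card < h ^ 10)) = ∅ := by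
        ext f; simp [hX]
      rw [this]
      simp only [Finset.card_empty, Nat.cast_zero]
      positivity
  refine (exists_bound _ (fun _ : Fin m → Finset (Fin (h ^ 8)) =>
    Real.exp (-((h : ℝ) ^ 10) / (4 * ((q ^ m : ℕ) : ℝ))) *
        (Fintype.card (Fin (h ^ 10) → Fin b → Fin (h ^ 8)) : ℝ)) (fun X => ?_)).trans ?_
  · refine le_trans (le_of_eq ?_) (key X)
    congr 2
    ext f
    simp only [Finset.mem_filter]
  rw [Finset.sum_const, Finset.card_univ, nsmul_eq_mul]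
  rw [mul_assoc]
  apply le_of_eq
  congr 1
  rw [Fintype.card_fun, Fintype.card_finset]
  push_cast
  simp

open Classical in
private lemma T2_card {b N m : ℕ} (ι : Fin m → Fin b) (hι : Function.Injective ι)
    (G : SimpleGraph (Fin m)) (A C : Finset (Fin N)) :
    (Finset.univ.filter (fun y : Fin b → Fin N => ∃ p : Fin m × Fin m, G.Adj p.1 p.2 ∧
      y (ι p.1) ∈ A ∧ y (ι p.2) ∈ C)).card * N ^ 2 ≤
      m ^ 2 * (A.card * C.card * Fintype.card (Fin b → Fin N)) := by
  have h : (Finset.univ.filter (fun y : Fin b → Fin N => ∃ p : Fin m × Fin m, G.Adj p.1 p.2 ∧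
      y (ι p.1) ∈ A ∧ y (ι p.2) ∈ C)) ⊆
      Finset.univ.biUnion (fun p : Fin m × Fin m => Finset.univ.filter (fun y : Fin b → Fin N =>
        G.Adj p.1 p.2 ∧ y (ι p.1) ∈ A ∧ y (ι p.2) ∈ C)) := by
    intro f hf
    simpa using hf
  calc _ ≤ (∑ p : Fin m × Fin m, (Finset.univ.filter (fun y : Fin b → Fin N =>
        G.Adj p.1 p.2 ∧ y (ι p.1) ∈ A ∧ y (ι p.2) ∈ C)).card) * N ^ 2 :=
        Nat.mul_le_mul_right _ ((Finset.card_le_card h).trans Finset.card_biUnion_le)
    _ = ∑ p : Fin m × Fin m, (Finset.univ.filter (fun y : Fin b → Fin N =>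
        G.Adj p.1 p.2 ∧ y (ι p.1) ∈ A ∧ y (ι p.2) ∈ C)).card * N ^ 2 := by rw [Finset.sum_mul]
    _ ≤ ∑ p : Fin m × Fin m, A.card * C.card * Fintype.card (Fin b → Fin N) := by
        apply Finset.sum_le_sum
        rintro ⟨v, w⟩ _
        by_cases hvw : G.Adj v w
        · rw [← cyl_two (ι v) (ι w) (fun h => hvw.ne (hι h)) A C]
          apply Nat.mul_le_mul_right
          apply Finset.card_le_card
          intro y hy
          simp only [Finset.mem_filter, Finset.mem_univ, true_and] at hy ⊢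
          exact hy.2
        · have : (Finset.univ.filter (fun y : Fin b → Fin N =>
            G.Adj (v, w).1 (v, w).2 ∧ y (ι (v, w).1) ∈ A ∧ y (ι (v, w).2) ∈ C)) = ∅ := by
            ext y; simp [hvw]
          rw [this]; simp
    _ = m ^ 2 * (A.card * C.card * Fintype.card (Fin b → Fin N)) := by
        rw [Finset.sum_const, Finset.card_univ, Fintype.card_prod, Fintype.card_fin, smul_eq_mul, sq]

open Classical in
/-- Bound for one pair `(A, C)`. -/
private lemma bad2_one {b : ℕ} (h : ℕ) (hh : 0 < h) (m e q0 : ℕ) (he : 0 < e) (hm : 0 < m)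
    (hq0 : 8 * e * m ^ 4 ≤ q0) (ι : Fin m → Fin b) (hι : Function.Injective ι)
    (G : SimpleGraph (Fin m)) (A C : Finset (Fin (h ^ 8))) (hC : q0 * C.card ≤ h ^ 8) :
    ((Finset.univ.filter (fun f : Fin (h ^ 10) → Fin b → Fin (h ^ 8) =>
        h ^ 2 * A.card ≤ e * (Finset.univ.filter (fun p : Fin (h ^ 10) × Fin m × Fin m =>
          G.Adj p.2.1 p.2.2 ∧ f p.1 (ι p.2.1) ∈ A ∧ f p.1 (ι p.2.2) ∈ C)).card)).card : ℝ)
      ≤ Real.exp (-((h : ℝ) ^ 2) / ((e : ℝ) * (m : ℝ) ^ 2)) ^ A.card *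
        (Fintype.card (Fin (h ^ 10) → Fin b → Fin (h ^ 8)) : ℝ) := by
  set T : Finset (Fin b → Fin (h ^ 8)) := (Finset.univ.filter (fun y : Fin b → Fin (h ^ 8) =>
    ∃ p : Fin m × Fin m, G.Adj p.1 p.2 ∧ y (ι p.1) ∈ A ∧ y (ι p.2) ∈ C)) with hT
  have heR : (0 : ℝ) < e := by exact_mod_cast he
  have hmR : (0 : ℝ) < m := by exact_mod_cast hm
  have hhR : (0 : ℝ) < h := by exact_mod_cast hh
  set s : ℝ := (h : ℝ) ^ 2 * A.card / ((e : ℝ) * (m : ℝ) ^ 2) with hs
  have hTc := T2_card ι hι G A C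
  rw [← hT] at hTc
  have hs8 : 8 * (Fintype.card (Fin (h ^ 10)) : ℝ) * T.card ≤
      s * Fintype.card (Fin b → Fin (h ^ 8)) := by
    have h1 : ((T.card : ℝ) * ((h : ℝ) ^ 8) ^ 2) ≤
        (m : ℝ) ^ 2 * (A.card * C.card * (Fintype.card (Fin b → Fin (h ^ 8)) : ℝ)) := by
      exact_mod_cast hTc
    have h2 : 8 * (e : ℝ) * (m : ℝ) ^ 4 * C.card ≤ (h : ℝ) ^ 8 := by
      have : 8 * e * m ^ 4 * C.card ≤ h ^ 8 := (Nat.mul_le_mul_right _ hq0).trans hC
      exact_mod_cast this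
    rw [hs, Fintype.card_fin, div_mul_eq_mul_div, le_div_iff₀ (by positivity)]
    push_cast
    set Y : ℝ := (Fintype.card (Fin b → Fin (h ^ 8)) : ℝ) with hY
    have hY0 : 0 ≤ Y := by positivity
    have h16 : (0 : ℝ) < ((h : ℝ) ^ 8) ^ 2 := by positivity
    rw [← mul_le_mul_iff_left₀ h16]
    calc 8 * (h : ℝ) ^ 10 * T.card * (e * (m : ℝ) ^ 2) * ((h : ℝ) ^ 8) ^ 2
        = 8 * (h : ℝ) ^ 10 * (e * (m : ℝ) ^ 2) * (T.card * ((h : ℝ) ^ 8) ^ 2) := by ring
      _ ≤ 8 * (h : ℝ) ^ 10 * (e * (m : ℝ) ^ 2) * ((m : ℝ) ^ 2 * (A.card * C.card * Y)) := by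
          gcongr
      _ = (h : ℝ) ^ 10 * A.card * Y * (8 * e * (m : ℝ) ^ 4 * C.card) := by ring
      _ ≤ (h : ℝ) ^ 10 * A.card * Y * (h : ℝ) ^ 8 := by gcongr
      _ = (h : ℝ) ^ 2 * A.card * Y * ((h : ℝ) ^ 8) ^ 2 := by ring
  have ht := tail_up (κ := Fin (h ^ 10)) T s hs8
  have e1 : (Fintype.card (Fin (h ^ 10) → Fin b → Fin (h ^ 8)) : ℝ) =
      (Fintype.card (Fin b → Fin (h ^ 8)) : ℝ) ^ (Fintype.card (Fin (h ^ 10))) := by
    rw [Fintype.card_fun (α := Fin (h ^ 10))]; push_cast; rfl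
  have e3 : Real.exp (-s) = Real.exp (-((h : ℝ) ^ 2) / ((e : ℝ) * (m : ℝ) ^ 2)) ^ A.card := by
    rw [← Real.exp_nat_mul]
    congr 1
    rw [hs]; ring
  rw [e1, ← e3]
  refine le_trans ?_ ht
  norm_cast
  apply Finset.card_le_card
  intro f hf
  simp only [Finset.mem_filter, Finset.mem_univ, true_and] at hf ⊢
  have hcount : (Finset.univ.filter (fun p : Fin (h ^ 10) × Fin m × Fin m =>
          G.Adj p.2.1 p.2.2 ∧ f p.1 (ι p.2.1) ∈ A ∧ f p.1 (ι p.2.2) ∈ C)).card ≤
      (Finset.univ.filter (fun k => f k ∈ T)).card * (m * m) := by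
    have : (Finset.univ.filter (fun p : Fin (h ^ 10) × Fin m × Fin m =>
          G.Adj p.2.1 p.2.2 ∧ f p.1 (ι p.2.1) ∈ A ∧ f p.1 (ι p.2.2) ∈ C)) ⊆
        (Finset.univ.filter (fun k => f k ∈ T)) ×ˢ (Finset.univ : Finset (Fin m × Fin m)) := by
      rintro ⟨k, v, w⟩ hp
      simp only [Finset.mem_filter, Finset.mem_univ, true_and] at hp
      simp only [Finset.mem_product, Finset.mem_filter, Finset.mem_univ, true_and, and_true, hT]
      exact ⟨(v, w), hp⟩
    refine (Finset.card_le_card this).trans ?_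
    rw [Finset.card_product]
    simp
  rw [hs, div_le_iff₀ (by positivity)]
  have h5 : h ^ 2 * A.card ≤ (Finset.univ.filter (fun k => f k ∈ T)).card * (e * m ^ 2) := by
    calc h ^ 2 * A.card ≤ _ := hf
      _ ≤ e * ((Finset.univ.filter (fun k => f k ∈ T)).card * (m * m)) :=
          Nat.mul_le_mul_left _ hcount
      _ = _ := by ring
  have h6 : (h : ℝ) ^ 2 * A.card ≤
      ((Finset.univ.filter (fun k => f k ∈ T)).card : ℝ) * (e * m ^ 2) := by
    exact_mod_cast h5
  refine h6.trans (le_of_eq ?_)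
  congr 3
  ext f
  simp only [Finset.mem_filter]

open Classical in
private lemma bad2_bound {b : ℕ} (h : ℕ) (hh : 0 < h) (m e q0 : ℕ) (he : 0 < e) (hm : 0 < m)
    (hq0 : 8 * e * m ^ 4 ≤ q0) (ι : Fin m → Fin b) (hι : Function.Injective ι)
    (G : SimpleGraph (Fin m)) (ε : ℝ) (hε1 : ε ≤ 1)
    (hx : ((h ^ 8 : ℕ) : ℝ) * ((((h ^ 8 : ℕ) : ℝ) + 1) ^ h *
      Real.exp (-((h : ℝ) ^ 2) / ((e : ℝ) * (m : ℝ) ^ 2))) ≤ ε) :
    ((Finset.univ.filter (fun f : Fin (h ^ 10) → Fin b → Fin (h ^ 8) =>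
      ∃ A : Finset (Fin (h ^ 8)), ∃ C : Finset (Fin (h ^ 8)), A.Nonempty ∧ C.card ≤ h * A.card ∧
        q0 * C.card ≤ h ^ 8 ∧
        h ^ 2 * A.card ≤ e * (Finset.univ.filter (fun p : Fin (h ^ 10) × Fin m × Fin m =>
          G.Adj p.2.1 p.2.2 ∧ f p.1 (ι p.2.1) ∈ A ∧ f p.1 (ι p.2.2) ∈ C)).card)).card : ℝ)
      ≤ 2 * ε * (Fintype.card (Fin (h ^ 10) → Fin b → Fin (h ^ 8)) : ℝ) := by
  set W : ℝ := (Fintype.card (Fin (h ^ 10) → Fin b → Fin (h ^ 8)) : ℝ) with hW
  have hW0 : 0 ≤ W := by positivity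
  set β : ℝ := Real.exp (-((h : ℝ) ^ 2) / ((e : ℝ) * (m : ℝ) ^ 2)) with hβ
  have hβ0 : 0 < β := Real.exp_pos _
  set x : ℝ := (((h ^ 8 : ℕ) : ℝ) + 1) ^ h * β with hxdef
  have hx0 : 0 ≤ x := by positivity
  have key : ∀ A : Finset (Fin (h ^ 8)),
      ((Finset.univ.filter (fun f : Fin (h ^ 10) → Fin b → Fin (h ^ 8) =>
      ∃ C : Finset (Fin (h ^ 8)), A.Nonempty ∧ C.card ≤ h * A.card ∧
        q0 * C.card ≤ h ^ 8 ∧
        h ^ 2 * A.card ≤ e * (Finset.univ.filter (fun p : Fin (h ^ 10) × Fin m × Fin m =>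
          G.Adj p.2.1 p.2.2 ∧ f p.1 (ι p.2.1) ∈ A ∧ f p.1 (ι p.2.2) ∈ C)).card)).card : ℝ)
      ≤ (x ^ A.card - (if A = ∅ then 1 else 0)) * W := by
    intro A
    by_cases hA : A = ∅
    · have : (Finset.univ.filter (fun f : Fin (h ^ 10) → Fin b → Fin (h ^ 8) =>
        ∃ C : Finset (Fin (h ^ 8)), A.Nonempty ∧ C.card ≤ h * A.card ∧
        q0 * C.card ≤ h ^ 8 ∧
        h ^ 2 * A.card ≤ e * (Finset.univ.filter (fun p : Fin (h ^ 10) × Fin m × Fin m =>
          G.Adj p.2.1 p.2.2 ∧ f p.1 (ι p.2.1) ∈ A ∧ f p.1 (ι p.2.2) ∈ C)).card)) = ∅ := by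
        ext f; simp [hA]
      rw [this]
      simp [hA]
    · rw [if_neg hA, sub_zero]
      have hone : ∀ C : Finset (Fin (h ^ 8)),
          ((Finset.univ.filter (fun f : Fin (h ^ 10) → Fin b → Fin (h ^ 8) =>
            A.Nonempty ∧ C.card ≤ h * A.card ∧ q0 * C.card ≤ h ^ 8 ∧
            h ^ 2 * A.card ≤ e * (Finset.univ.filter (fun p : Fin (h ^ 10) × Fin m × Fin m =>
              G.Adj p.2.1 p.2.2 ∧ f p.1 (ι p.2.1) ∈ A ∧ f p.1 (ι p.2.2) ∈ C)).card)).card : ℝ)
          ≤ if C.card ≤ h * A.card then β ^ A.card * W else 0 := by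
        intro C
        by_cases h1 : C.card ≤ h * A.card
        · rw [if_pos h1]
          by_cases h2 : q0 * C.card ≤ h ^ 8
          · refine le_trans ?_ (bad2_one h hh m e q0 he hm hq0 ι hι G A C h2)
            norm_cast
            apply Finset.card_le_card
            intro f hf
            simp only [Finset.mem_filter, Finset.mem_univ, true_and] at hf ⊢
            exact hf.2.2.2
          · have : (Finset.univ.filter (fun f : Fin (h ^ 10) → Fin b → Fin (h ^ 8) =>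
              A.Nonempty ∧ C.card ≤ h * A.card ∧ q0 * C.card ≤ h ^ 8 ∧
              h ^ 2 * A.card ≤ e * (Finset.univ.filter (fun p : Fin (h ^ 10) × Fin m × Fin m =>
                G.Adj p.2.1 p.2.2 ∧ f p.1 (ι p.2.1) ∈ A ∧ f p.1 (ι p.2.2) ∈ C)).card)) = ∅ := by
              ext f; simp [h2]
            rw [this]
            simp only [Finset.card_empty, Nat.cast_zero]
            positivity
        · rw [if_neg h1]
          have : (Finset.univ.filter (fun f : Fin (h ^ 10) → Fin b → Fin (h ^ 8) =>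
              A.Nonempty ∧ C.card ≤ h * A.card ∧ q0 * C.card ≤ h ^ 8 ∧
              h ^ 2 * A.card ≤ e * (Finset.univ.filter (fun p : Fin (h ^ 10) × Fin m × Fin m =>
                G.Adj p.2.1 p.2.2 ∧ f p.1 (ι p.2.1) ∈ A ∧ f p.1 (ι p.2.2) ∈ C)).card)) = ∅ := by
              ext f; simp [h1]
          rw [this]; simp
      refine (exists_bound _ (fun C : Finset (Fin (h ^ 8)) =>
        if C.card ≤ h * A.card then β ^ A.card * W else 0) (fun C => ?_)).trans ?_
      · refine le_trans (le_of_eq ?_) (hone C)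
        congr 2
        ext f
        simp only [Finset.mem_filter]
      rw [← Finset.sum_filter, Finset.sum_const, nsmul_eq_mul, ← mul_assoc]
      apply mul_le_mul_of_nonneg_right _ hW0
      have hsm : (((Finset.univ : Finset (Finset (Fin (h ^ 8)))).filter
          (fun C => C.card ≤ h * A.card)).card : ℝ) ≤ ((((h ^ 8 : ℕ) : ℝ) + 1) ^ h) ^ A.card := by
        have := small_sets (h ^ 8) (h * A.card)
        rw [← pow_mul]
        exact_mod_cast this
      rw [hxdef, mul_pow]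
      exact mul_le_mul_of_nonneg_right hsm (by positivity)
  refine (exists_bound _ (fun A : Finset (Fin (h ^ 8)) =>
    (x ^ A.card - (if A = ∅ then 1 else 0)) * W) (fun A => ?_)).trans ?_
  · refine le_trans (le_of_eq ?_) (key A)
    congr 2
    ext f
    simp only [Finset.mem_filter]
  rw [← Finset.sum_mul, Finset.sum_sub_distrib, sum_pow_card]
  apply mul_le_mul_of_nonneg_right _ hW0
  have hone : (∑ A : Finset (Fin (h ^ 8)), (if A = ∅ then (1 : ℝ) else 0)) = 1 := by simp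
  rw [hone]
  have hNx : ((h ^ 8 : ℕ) : ℝ) * x ≤ ε := hx
  exact (pow_sub_one_le _ x hx0 (hNx.trans hε1)).trans (by linarith)


open Classical in
/-- Existence of the block system. -/
theorem exists_system {b : ℕ} (B : SimpleGraph (Fin b)) (hB : K33Free B) {J : ℕ} (bb : Fin J → ℕ)
    (hbb : ∀ j, 0 < bb j) (ι : ∀ j, Fin (bb j) → Fin b) (hι : ∀ j, Function.Injective (ι j))
    (Bj : ∀ j, SimpleGraph (Fin (bb j))) (e q0 qf : Fin J → ℕ) (he : ∀ j, 0 < e j)
    (hqf : ∀ j, 0 < qf j) (hq0 : ∀ j, 8 * e j * (bb j) ^ 4 ≤ q0 j) :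
    ∃ h0 : ℕ, ∀ h ≥ h0, ∃ (f : Fin (h ^ 10) → Fin b → Fin (h ^ 8)) (𝒢 : Finset (Fin (h ^ 10))),
      K33Free (blockGraph B f (𝒢 : Set (Fin (h ^ 10)))) ∧
      (∀ k ∈ 𝒢, Function.Injective (f k)) ∧
      (∀ j, ∀ X : Fin (bb j) → Finset (Fin (h ^ 8)), (∀ v, h ^ 8 ≤ qf j * (X v).card) →
        h ^ 10 ≤ 8 * (qf j) ^ (bb j) * (𝒢.filter (fun k => ∀ v, f k (ι j v) ∈ X v)).card) ∧
      (∀ j, ∀ A C : Finset (Fin (h ^ 8)), A.Nonempty → C.card ≤ h * A.card →
        q0 j * C.card ≤ h ^ 8 →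
        e j * (Finset.univ.filter (fun p : Fin (h ^ 10) × Fin (bb j) × Fin (bb j) =>
          (Bj j).Adj p.2.1 p.2.2 ∧ f p.1 (ι j p.2.1) ∈ A ∧ f p.1 (ι j p.2.2) ∈ C)).card
            < h ^ 2 * A.card) := by
  set δ : ℝ := 1 / (16 * ((J : ℝ) + 1)) with hδ
  have hJ0 : (0 : ℝ) < (J : ℝ) + 1 := by positivity
  have hδ0 : 0 < δ := by positivity
  have hδ1 : δ ≤ 1 := by
    rw [hδ, div_le_one (by positivity)]
    have : (0 : ℝ) ≤ J := by positivity
    linarith
  have ev1 : ∀ᶠ h : ℕ in Filter.atTop, ∀ j : Fin J,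
      ((2 : ℝ) ^ (h ^ 8)) ^ (bb j) * Real.exp (-((h : ℝ) ^ 10) / (4 * ((qf j ^ bb j : ℕ) : ℝ))) ≤ δ :=
    Filter.eventually_all.mpr (fun j => asymp1 (qf j ^ bb j) (bb j) (by
      have := hqf j; positivity) δ hδ0)
  have ev2 : ∀ᶠ h : ℕ in Filter.atTop, ∀ j : Fin J,
      ((h ^ 8 : ℕ) : ℝ) * ((((h ^ 8 : ℕ) : ℝ) + 1) ^ h *
        Real.exp (-((h : ℝ) ^ 2) / ((e j : ℝ) * (bb j : ℝ) ^ 2))) ≤ δ :=
    Filter.eventually_all.mpr (fun j => asymp2 _ (by
      have h1 : (0 : ℝ) < e j := by exact_mod_cast he j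
      have h2 : (0 : ℝ) < bb j := by exact_mod_cast hbb j
      positivity) δ hδ0)
  have ev3 : ∀ᶠ h : ℕ in Filter.atTop, ∀ j : Fin J,
      8 * (qf j ^ bb j) * (4 * b ^ 2 * h ^ 2 + 256 * b ^ 8 * h ^ 8) ≤ h ^ 10 :=
    Filter.eventually_all.mpr (fun j => asymp3 _ b)
  obtain ⟨h0, hh0⟩ := Filter.eventually_atTop.mp (ev1.and (ev2.and ev3))
  refine ⟨h0 + 1, fun h hh => ?_⟩
  obtain ⟨H1, H2, H3⟩ := hh0 h (by omega)
  have hpos : 0 < h := by omega
  set Ω := Fin (h ^ 10) → Fin b → Fin (h ^ 8) with hΩ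
  have : Nonempty (Fin (h ^ 8)) := ⟨⟨0, by positivity⟩⟩
  set W : ℝ := (Fintype.card (Fin (h ^ 10) → Fin b → Fin (h ^ 8)) : ℝ) with hW
  have hW0 : 0 < W := by
    rw [hW]
    exact_mod_cast Fintype.card_pos
  -- the four kinds of bad events
  set P1 : Fin J → (Fin (h ^ 10) → Fin b → Fin (h ^ 8)) → Prop := fun j f =>
    ∃ X : Fin (bb j) → Finset (Fin (h ^ 8)), (∀ v, h ^ 8 ≤ qf j * (X v).card) ∧
        4 * qf j ^ bb j * (Finset.univ.filter (fun k => ∀ v, f k (ι j v) ∈ X v)).card < h ^ 10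
    with hP1
  set P2 : Fin J → (Fin (h ^ 10) → Fin b → Fin (h ^ 8)) → Prop := fun j f =>
    ∃ A : Finset (Fin (h ^ 8)), ∃ C : Finset (Fin (h ^ 8)), A.Nonempty ∧ C.card ≤ h * A.card ∧
        q0 j * C.card ≤ h ^ 8 ∧
        h ^ 2 * A.card ≤ e j * (Finset.univ.filter (fun p : Fin (h ^ 10) × Fin (bb j) × Fin (bb j) =>
          (Bj j).Adj p.2.1 p.2.2 ∧ f p.1 (ι j p.2.1) ∈ A ∧ f p.1 (ι j p.2.2) ∈ C)).card
    with hP2
  set cr : (Fin (h ^ 10) → Fin b → Fin (h ^ 8)) → ℕ := fun f =>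
    (Finset.univ.filter (fun p : Fin 4 → Fin (h ^ 10) × Fin b × Fin b => Cross B f p)).card with hcr
  set ni : (Fin (h ^ 10) → Fin b → Fin (h ^ 8)) → ℕ := fun f =>
    (Finset.univ.filter (fun k => ¬ Function.Injective (f k))).card with hni
  have B1 : ((Finset.univ.filter (fun f => ∃ j, P1 j f)).card : ℝ) ≤ W / 8 := by
    refine (exists_bound P1 (fun _ => δ * W) (fun j => ?_)).trans ?_
    · refine le_trans (le_of_eq ?_) ((bad1_bound h (bb j) (qf j) (hqf j) (ι j) (hι j)).trans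
        (mul_le_mul_of_nonneg_right (H1 j) hW0.le))
      congr 2
      ext f
      simp only [Finset.mem_filter, hP1]
    · rw [Finset.sum_const, Finset.card_univ, Fintype.card_fin, nsmul_eq_mul, hδ]
      have h3 : (J : ℝ) * (1 / (16 * ((J : ℝ) + 1)) * W) = (J / (J + 1)) * (W / 16) := by
        field_simp
      have h4 : (J : ℝ) / (J + 1) ≤ 1 := by
        rw [div_le_one hJ0]; linarith
      rw [h3]
      nlinarith
  have B2 : ((Finset.univ.filter (fun f => ∃ j, P2 j f)).card : ℝ) ≤ W / 8 := by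
    refine (exists_bound P2 (fun _ => 2 * δ * W) (fun j => ?_)).trans ?_
    · refine le_trans (le_of_eq ?_) (bad2_bound h hpos (bb j) (e j) (q0 j) (he j) (hbb j) (hq0 j)
        (ι j) (hι j) (Bj j) δ hδ1 (H2 j))
      congr 2
      ext f
      simp only [Finset.mem_filter, hP2]
    · rw [Finset.sum_const, Finset.card_univ, Fintype.card_fin, nsmul_eq_mul, hδ]
      have h3 : (J : ℝ) * (2 * (1 / (16 * ((J : ℝ) + 1))) * W) = (J / (J + 1)) * (W / 8) := by
        field_simp; ring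
      have h4 : (J : ℝ) / (J + 1) ≤ 1 := by
        rw [div_le_one hJ0]; linarith
      rw [h3]
      nlinarith
  have B3 : ((Finset.univ.filter (fun f => 4 * (16 * b ^ 8 * h ^ 8) < cr f)).card : ℝ) ≤ W / 4 := by
    have hc := cross_count (V := Fin (h ^ 8)) (κ := Fin (h ^ 10)) B (by
      simp only [Fintype.card_fin]
      exact Nat.pow_le_pow_right hpos (by norm_num))
    simp only [Fintype.card_fin] at hc
    have hs : ∑ f, cr f ≤ (16 * b ^ 8 * h ^ 8) *
        Fintype.card (Fin (h ^ 10) → Fin b → Fin (h ^ 8)) := by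
      have h32 : 0 < (h ^ 8) ^ 4 := by positivity
      apply Nat.le_of_mul_le_mul_left _ h32
      refine (le_trans (le_of_eq ?_) hc).trans (le_of_eq ?_)
      · congr 1
        refine Finset.sum_congr (by ext; simp only [Finset.mem_univ]) (fun f _ => ?_)
        show Finset.card _ = Finset.card _
        exact congrArg Finset.card (by ext p; simp only [Finset.mem_filter, Finset.mem_univ])
      · calc _ = 16 * b ^ 8 * (h ^ 10) ^ 4 *
              Fintype.card (Fin (h ^ 10) → Fin b → Fin (h ^ 8)) := by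
              congr 1
              exact @Fintype.card_congr _ _ (_) (_) (Equiv.refl _)
          _ = _ := by ring
    have hm := markov cr _ hs
    rw [le_div_iff₀ (by norm_num), mul_comm, hW]
    exact_mod_cast hm
  have B4 : ((Finset.univ.filter (fun f => 4 * (b ^ 2 * h ^ 2) < ni f)).card : ℝ) ≤ W / 4 := by
    have hc := noninj_count (V := Fin (h ^ 8)) (κ := Fin (h ^ 10)) (b := b)
    simp only [Fintype.card_fin] at hc
    have hs : ∑ f, ni f ≤ (b ^ 2 * h ^ 2) *
        Fintype.card (Fin (h ^ 10) → Fin b → Fin (h ^ 8)) := by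
      have h32 : 0 < h ^ 8 := by positivity
      apply Nat.le_of_mul_le_mul_left _ h32
      refine (le_trans (le_of_eq ?_) hc).trans (le_of_eq ?_)
      · congr 1
        refine Finset.sum_congr (by ext; simp only [Finset.mem_univ]) (fun f _ => ?_)
        show Finset.card _ = Finset.card _
        exact congrArg Finset.card (by ext p; simp only [Finset.mem_filter, Finset.mem_univ])
      · calc _ = b ^ 2 * h ^ 10 *
              Fintype.card (Fin (h ^ 10) → Fin b → Fin (h ^ 8)) := by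
              congr 1
              exact @Fintype.card_congr _ _ (_) (_) (Equiv.refl _)
          _ = _ := by ring
    have hm := markov ni _ hs
    rw [le_div_iff₀ (by norm_num), mul_comm, hW]
    exact_mod_cast hm
  have hex : ∃ f : Fin (h ^ 10) → Fin b → Fin (h ^ 8), (∀ j, ¬ P1 j f) ∧ (∀ j, ¬ P2 j f) ∧
      cr f ≤ 4 * (16 * b ^ 8 * h ^ 8) ∧ ni f ≤ 4 * (b ^ 2 * h ^ 2) := by
    by_contra hcon
    push Not at hcon
    have hsub : (Finset.univ : Finset (Fin (h ^ 10) → Fin b → Fin (h ^ 8))) ⊆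
        ((Finset.univ.filter (fun f => ∃ j, P1 j f)) ∪
          (Finset.univ.filter (fun f => ∃ j, P2 j f))) ∪
        ((Finset.univ.filter (fun f => 4 * (16 * b ^ 8 * h ^ 8) < cr f)) ∪
          (Finset.univ.filter (fun f => 4 * (b ^ 2 * h ^ 2) < ni f))) := by
      intro f _
      simp only [Finset.mem_union, Finset.mem_filter, Finset.mem_univ, true_and]
      by_cases c1 : ∃ j, P1 j f
      · exact Or.inl (Or.inl c1)
      · by_cases c2 : ∃ j, P2 j f
        · exact Or.inl (Or.inr c2)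
        · push Not at c1 c2
          by_cases c3 : cr f ≤ 4 * (16 * b ^ 8 * h ^ 8)
          · exact Or.inr (Or.inr (hcon f c1 c2 c3))
          · exact Or.inr (Or.inl (not_le.mp c3))
    have hcard := (Finset.card_le_card hsub).trans ((Finset.card_union_le _ _).trans
      (add_le_add (Finset.card_union_le _ _) (Finset.card_union_le _ _)))
    rw [Finset.card_univ] at hcard
    have hcard' : W ≤ (((Finset.univ.filter (fun f => ∃ j, P1 j f)).card : ℝ) +
        ((Finset.univ.filter (fun f => ∃ j, P2 j f)).card : ℝ)) +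
        (((Finset.univ.filter (fun f => 4 * (16 * b ^ 8 * h ^ 8) < cr f)).card : ℝ) +
        ((Finset.univ.filter (fun f => 4 * (b ^ 2 * h ^ 2) < ni f)).card : ℝ)) := by
      rw [hW]
      exact_mod_cast hcard
    linarith
  obtain ⟨f, hf1, hf2, hf3, hf4⟩ := hex
  set 𝒢 : Finset (Fin (h ^ 10)) := Finset.univ.filter (fun k => Function.Injective (f k) ∧
    ∀ p : Fin 4 → Fin (h ^ 10) × Fin b × Fin b, Cross B f p → ∀ i, (p i).1 ≠ k) with h𝒢
  refine ⟨f, 𝒢, ?_, ?_, ?_, ?_⟩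
  · apply blockGraph_k33 B hB f
    · intro k hk
      have : k ∈ 𝒢 := by exact_mod_cast hk
      rw [h𝒢, Finset.mem_filter] at this
      exact this.2.1
    · intro p hp hcross
      have : (p 0).1 ∈ 𝒢 := by exact_mod_cast hp 0
      rw [h𝒢, Finset.mem_filter] at this
      exact this.2.2 p hcross 0 rfl
  · intro k hk
    rw [h𝒢, Finset.mem_filter] at hk
    exact hk.2.1
  · intro j X hX
    have h1 : h ^ 10 ≤ 4 * qf j ^ bb j *
        (Finset.univ.filter (fun k => ∀ v, f k (ι j v) ∈ X v)).card := by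
      by_contra hlt
      push Not at hlt
      exact hf1 j ⟨X, hX, hlt⟩
    have hdel : (Finset.univ.filter (fun k => ∀ v, f k (ι j v) ∈ X v)) ⊆
        (𝒢.filter (fun k => ∀ v, f k (ι j v) ∈ X v)) ∪
        ((Finset.univ.filter (fun k => ¬ Function.Injective (f k))) ∪
        ((Finset.univ.filter (fun p : Fin 4 → Fin (h ^ 10) × Fin b × Fin b => Cross B f p)) ×ˢ
          (Finset.univ : Finset (Fin 4))).image (fun q => (q.1 q.2).1)) := by
      intro k hk
      simp only [Finset.mem_filter, Finset.mem_univ, true_and] at hk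
      simp only [Finset.mem_union, Finset.mem_filter, Finset.mem_univ, true_and, Finset.mem_image,
        Finset.mem_product, and_true, h𝒢, Prod.exists]
      by_cases c1 : Function.Injective (f k)
      · by_cases c2 : ∀ p : Fin 4 → Fin (h ^ 10) × Fin b × Fin b, Cross B f p → ∀ i, (p i).1 ≠ k
        · exact Or.inl ⟨⟨c1, c2⟩, hk⟩
        · push Not at c2
          obtain ⟨p, hp, i, hi⟩ := c2
          exact Or.inr (Or.inr ⟨p, i, hp, hi⟩)
      · exact Or.inr (Or.inl c1)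
    have h2 := (Finset.card_le_card hdel).trans ((Finset.card_union_le _ _).trans
      (add_le_add le_rfl ((Finset.card_union_le _ _).trans
        (add_le_add (hf4 : _ ≤ _) (Finset.card_image_le.trans (le_of_eq
          (Finset.card_product _ _)))))))
    have h3 : (Finset.univ.filter (fun p : Fin 4 → Fin (h ^ 10) × Fin b × Fin b =>
        Cross B f p)).card * (Finset.univ : Finset (Fin 4)).card ≤ 256 * b ^ 8 * h ^ 8 := by
      have : (Finset.univ : Finset (Fin 4)).card = 4 := by simp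
      rw [this]
      have h5 : (Finset.univ.filter (fun p : Fin 4 → Fin (h ^ 10) × Fin b × Fin b =>
        Cross B f p)).card ≤ 4 * (16 * b ^ 8 * h ^ 8) := hf3
      calc _ ≤ 4 * (16 * b ^ 8 * h ^ 8) * 4 := Nat.mul_le_mul_right _ h5
        _ = _ := by ring
    have h4 := H3 j
    set g := (𝒢.filter (fun k => ∀ v, f k (ι j v) ∈ X v)).card with hg
    set q := qf j ^ bb j with hq
    have h6 : (Finset.univ.filter (fun k => ∀ v, f k (ι j v) ∈ X v)).card ≤
        g + (4 * b ^ 2 * h ^ 2 + 256 * b ^ 8 * h ^ 8) := by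
      refine h2.trans ?_
      have : 4 * (b ^ 2 * h ^ 2) = 4 * b ^ 2 * h ^ 2 := by ring
      omega
    have h7 : 2 * h ^ 10 ≤ 8 * q * g + h ^ 10 := by
      calc 2 * h ^ 10 ≤ 2 * (4 * q * (Finset.univ.filter (fun k => ∀ v, f k (ι j v) ∈ X v)).card) :=
            Nat.mul_le_mul_left _ h1
        _ ≤ 2 * (4 * q * (g + (4 * b ^ 2 * h ^ 2 + 256 * b ^ 8 * h ^ 8))) := by
            gcongr
        _ = 8 * q * g + 8 * q * (4 * b ^ 2 * h ^ 2 + 256 * b ^ 8 * h ^ 8) := by ring
        _ ≤ 8 * q * g + h ^ 10 := by omega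
    omega
  · intro j A C hA hC1 hC2
    by_contra hlt
    push Not at hlt
    exact hf2 j ⟨A, C, hA, hC1, hC2, hlt⟩

end Pool.Agent.PUG
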