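import Pool.Agent.PUG.LVM
import Pool.Agent.PUG.SYS

set_option autoImplicit false

namespace Pool.Agent.PUG

/-- `r` numbers miss one of `r + 1` consecutive intervals. -/
theorem exists_gap {r : ℕ} (Ls : ℕ → ℕ) (hL : Monotone Ls) (ℓ : Fin r → ℕ) :
    ∃ j : Fin (r + 1), ∀ i, ℓ i < Ls j ∨ Ls (j + 1) ≤ ℓ i := by
  by_contra hno
  push Not at hno
  choose g hg using hno
  have hinj : Function.Injective g := by
    intro j j' hjj
    by_contra hne
    have key : ∀ a a' : Fin (r + 1), a < a' → g a = g a' → False := by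
      intro a a' haa hg'
      have h1 := hg a
      have h2 := hg a'
      rw [← hg'] at h2
      have : (a : ℕ) + 1 ≤ a' := haa
      have := hL this
      omega
    rcases lt_or_gt_of_ne hne with h | h
    · exact key _ _ h hjj
    · exact key _ _ h hjj.symm
  have := Fintype.card_le_of_injective g hinj
  simp at this

set_option maxHeartbeats 1000000 in
theorem key (r : ℕ) (hr : 0 < r) :
    ∃ q h0 : ℕ, 0 < q ∧ ∀ h ≥ h0, ∃ G : SimpleGraph (Fin (h ^ 8)), K33Free G ∧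
      ∀ χ : Sym2 (Fin (h ^ 8)) → Fin r, ∀ Z : Finset (Fin (h ^ 8)), q * Z.card ≤ h ^ 8 →
        ∀ ℓ : Fin r → ℕ, (∀ i, 3 ≤ ℓ i ∧ q * ℓ i ≤ h ^ 8) →
          ∃ (i : Fin r) (l : List (Fin (h ^ 8))), l.length = ℓ i ∧
            IsCyc (fun x y => G.Adj x y ∧ χ s(x, y) = i) l ∧ ∀ x ∈ l, x ∉ Z := by
  classical
  choose b B K t hb hB hLt ht hK hram hKr hnum using level r hr
  let Ls : ℕ → ℕ := fun j => Nat.rec 4 (fun _ L => 2 * t L + 1) j
  have hLs : ∀ j, Ls (j + 1) = 2 * t (Ls j) + 1 := fun j => rfl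
  have hmono : Monotone Ls := by
    apply monotone_nat_of_le_succ
    intro j
    rw [hLs]
    have := hLt (Ls j)
    omega
  let bb : Fin (r + 1) → ℕ := fun j => b (Ls j)
  let Bj : ∀ j : Fin (r + 1), SimpleGraph (Fin (bb j)) := fun j => B (Ls j)
  obtain ⟨b', B', ι, hB', hι, hadj⟩ := sum_blocks bb Bj (fun j => hB _)
  let Λ : Fin (r + 1) → ℕ := fun j => 200 * (2 * t (Ls j) + 1) ^ 3
  let qf : Fin (r + 1) → ℕ := fun j => 4 * K (Ls j) * (Λ j) ^ (r * (K (Ls j)) ^ 2 + 1)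
  let e : Fin (r + 1) → ℕ := fun j => 9 * r * (bb j) ^ 2 * (qf j) ^ (bb j)
  let q0 : Fin (r + 1) → ℕ := fun j => 8 * e j * (bb j) ^ 4
  have hΛ : ∀ j, 0 < Λ j := fun j => by positivity
  have hqf : ∀ j, 0 < qf j := fun j => by
    have := hK (Ls j)
    have := hΛ j
    positivity
  have he : ∀ j, 0 < e j := fun j => by
    have h1 : 0 < bb j := hb (Ls j)
    have := hqf j
    positivity
  obtain ⟨hs, hsys⟩ := exists_system B' hB' bb (fun j => hb _) ι hι Bj e q0 qf he hqf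
    (fun j => le_refl _)
  refine ⟨2 + ∑ j : Fin (r + 1), 2 * (2 * t (Ls j) + 1) * qf j,
    max hs (1 + ∑ j : Fin (r + 1), qf j), by omega, ?_⟩
  intro h hh
  have hh1 : 1 ≤ h := le_trans (by omega) (le_trans (le_max_right _ _) hh)
  have hqfh : ∀ j, qf j ≤ h ^ 8 := by
    intro j
    have h1 : qf j ≤ ∑ j, qf j := Finset.single_le_sum (f := qf) (fun _ _ => Nat.zero_le _)
      (Finset.mem_univ j)
    have h2 : h ^ 1 ≤ h ^ 8 := Nat.pow_le_pow_right hh1 (by norm_num)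
    have h3 := le_trans (le_max_right _ _) hh
    rw [pow_one] at h2
    omega
  obtain ⟨f, 𝒢, hK33, hinj, P3, P4⟩ := hsys h (le_trans (le_max_left _ _) hh)
  refine ⟨blockGraph B' f (𝒢 : Set (Fin (h ^ 10))), hK33, ?_⟩
  intro χ Z hZ ℓ hℓ
  obtain ⟨j, hj⟩ := exists_gap Ls hmono ℓ
  have hq : 2 * (2 * t (Ls j) + 1) * qf j ≤ ∑ j : Fin (r + 1), 2 * (2 * t (Ls j) + 1) * qf j :=
    Finset.single_le_sum (f := fun j : Fin (r + 1) => 2 * (2 * t (Ls j) + 1) * qf j)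
      (fun _ _ => Nat.zero_le _) (Finset.mem_univ j)
  obtain ⟨i, l, hl1, hl2, hl3⟩ := level_main (κ := Fin (h ^ 10)) (V := Fin (h ^ 8)) hr (hb (Ls j))
    (hK (Ls j)) (ht (Ls j)) hh1 (Fintype.card_fin _) (Bj j) (hram (Ls j)) (hKr (Ls j))
    (Λ j) (qf j) (e j) (q0 j) rfl rfl rfl rfl (hnum (Ls j)) (hqfh j)
    (fun k v => f k (ι j v)) 𝒢 (fun k hk => (hinj k hk).comp (hι j))
    (by
      intro X hX
      refine le_trans (P3 j X hX) (le_of_eq ?_)
      congr 2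
      ext k
      simp only [Finset.mem_filter]
      exact Iff.rfl)
    (by
      intro A C hA hC1 hC2
      refine lt_of_le_of_lt (le_of_eq ?_) (P4 j A C hA hC1 hC2)
      congr 2
      ext k
      simp only [Finset.mem_filter])
    χ Z
    (le_trans (Nat.mul_le_mul_right _ (by omega)) hZ) ℓ {i | ℓ i < Ls j}
    (fun i hi => ⟨(hℓ i).1, hi⟩)
    (by
      intro i hi
      have h1 : Ls (j + 1) ≤ ℓ i := (hj i).resolve_left hi
      refine ⟨h1, ?_⟩
      exact le_trans (Nat.mul_le_mul_right _ (by omega)) (hℓ i).2)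
  refine ⟨i, l, hl1, hl2.mono ?_, hl3⟩
  rintro x _ y _ ⟨⟨hne, k, hk, v, w, hvw, hx, hy⟩, hc⟩
  exact ⟨⟨hne, k, hk, ι j v, ι j w, hadj j v w hvw, hx, hy⟩, hc⟩

end Pool.Agent.PUG
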