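import Pool.Agent.PUG.TRI
import Pool.Agent.PUG.FAN

set_option autoImplicit false

namespace Pool.Agent.PUG

theorem IsCyc.mono {V : Type} {A A' : V → V → Prop} {l : List V} (h : IsCyc A l)
    (hA : ∀ x ∈ l, ∀ y ∈ l, A x y → A' x y) : IsCyc A' l := by
  obtain ⟨h1, h2, h3⟩ := h
  refine ⟨h1, ?_, ?_⟩
  · clear h1 h3
    induction h2 with
    | nil => exact List.IsChain.nil
    | singleton a => exact List.IsChain.singleton a
    | cons_cons hab hl ih =>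
      refine List.IsChain.cons_cons (hA _ (by simp) _ (by simp) hab) (ih ?_)
      intro x hx y hy
      exact hA x (List.mem_cons_of_mem _ hx) y (List.mem_cons_of_mem _ hy)
  · intro x hx y hy
    exact hA x (List.mem_of_mem_getLast? hx) y (List.mem_of_mem_head? hy) (h3 x hx y hy)

theorem IsCyc.map {V W : Type} {A : V → V → Prop} {A' : W → W → Prop} {l : List V} (h : IsCyc A l)
    (g : V → W) (hg : Function.Injective g) (hA : ∀ x y, A x y → A' (g x) (g y)) :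
    IsCyc A' (l.map g) := by
  obtain ⟨h1, h2, h3⟩ := h
  refine ⟨h1.map hg, ?_, ?_⟩
  · rw [List.isChain_map]
    exact h2.imp hA
  · intro x hx y hy
    rw [List.getLast?_map] at hx
    rw [List.head?_map] at hy
    simp only [Option.mem_def, Option.map_eq_some_iff] at hx hy
    obtain ⟨x', hx', rfl⟩ := hx
    obtain ⟨y', hy', rfl⟩ := hy
    exact hA _ _ (h3 x' hx' y' hy')

/-- blocks: every colouring has a colour (used on some edge) containing all cycles of lengths `[3, L)`. -/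
theorem block_ramsey (r : ℕ) (hr : 0 < r) (L : ℕ) :
    ∃ (b : ℕ) (B : SimpleGraph (Fin b)), 0 < b ∧ K33Free B ∧ ∀ χ : Sym2 (Fin b) → Fin r,
      ∃ i : Fin r, (∃ u v, B.Adj u v ∧ χ s(u, v) = i) ∧ ∀ ℓ, 3 ≤ ℓ → ℓ < L →
        ∃ l : List (Fin b), l.length = ℓ ∧ IsCyc (fun x y => B.Adj x y ∧ χ s(x, y) = i) l := by
  obtain ⟨f, F, hF, ⟨u, v, huv⟩, hcyc⟩ := fan_exists L
  obtain ⟨b, B, hB, hram⟩ := k33_ramsey r hr F hF
  refine ⟨b, B, ?_, hB, ?_⟩
  · obtain ⟨i, g, -, -⟩ := hram (fun _ => ⟨0, hr⟩)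
    exact Nat.pos_of_ne_zero (fun h => by subst h; exact (g u).elim0)
  · intro χ
    obtain ⟨i, g, hg, hadj⟩ := hram χ
    refine ⟨i, ⟨g u, g v, hadj u v huv⟩, ?_⟩
    intro ℓ h3 hL
    obtain ⟨l, hl, hc⟩ := hcyc ℓ h3 hL
    refine ⟨l.map g, by simp [hl], hc.map g hg ?_⟩
    intro x y hxy
    exact hadj x y hxy

/-- polynomials lose against `2 ^ t` -/
theorem exists_t (A B t0 : ℕ) : ∃ t, t0 ≤ t ∧ 10 ≤ t ∧ A * (2 * t + 1) ^ B ≤ 2 ^ (t - 8) := by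
  have h1 := tendsto_pow_const_div_const_pow_of_one_lt B (r := (2 : ℝ)) (by norm_num)
  have h2 : ∀ᶠ n : ℕ in Filter.atTop, (n : ℝ) ^ B / 2 ^ n < 1 / ((A + 1) * 3 ^ B * 256) := by
    apply h1.eventually_lt_const
    positivity
  obtain ⟨t, ht, ht0⟩ := (h2.and (Filter.eventually_ge_atTop (max t0 10))).exists
  have h10 : 10 ≤ t := le_trans (le_max_right _ _) ht0
  refine ⟨t, le_trans (le_max_left _ _) ht0, h10, ?_⟩
  rw [div_lt_div_iff₀ (by positivity) (by positivity)] at ht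
  have h3 : (A : ℝ) * (2 * t + 1) ^ B ≤ (A + 1) * (3 ^ B * (t : ℝ) ^ B) := by
    rw [← mul_pow]
    have ht1 : (1 : ℝ) ≤ t := by exact_mod_cast (by omega : 1 ≤ t)
    apply mul_le_mul (by linarith) _ (by positivity) (by positivity)
    apply pow_le_pow_left₀ (by positivity)
    linarith
  have h4 : (2 : ℝ) ^ t = 2 ^ (t - 8) * 256 := by
    have : t = (t - 8) + 8 := by omega
    conv_lhs => rw [this, pow_add]
    norm_num
  have h5 : (A : ℝ) * (2 * t + 1) ^ B ≤ 2 ^ (t - 8) := by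
    rw [h4] at ht
    nlinarith [ht, h3]
  exact_mod_cast h5

/-- Numerical data of one level. -/
theorem level (r : ℕ) (hr : 0 < r) (L : ℕ) :
    ∃ (b : ℕ) (B : SimpleGraph (Fin b)) (K t : ℕ), 0 < b ∧ K33Free B ∧ L ≤ 2 * t ∧ 10 ≤ t ∧ 0 < K ∧
      (∀ χ : Sym2 (Fin b) → Fin r,
        ∃ i : Fin r, (∃ u v, B.Adj u v ∧ χ s(u, v) = i) ∧ ∀ ℓ, 3 ≤ ℓ → ℓ < L →
          ∃ l : List (Fin b), l.length = ℓ ∧ IsCyc (fun x y => B.Adj x y ∧ χ s(x, y) = i) l) ∧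
      (∀ χ : Fin K → Fin K → Fin (r + 1), ∃ (σ : Fin (max 3 b) → Fin K) (k : Fin (r + 1)),
        StrictMono σ ∧ ∀ a b, a < b → χ (σ a) (σ b) = k) ∧
      8 * (9 * r * b ^ 2 * (4 * K * (200 * (2 * t + 1) ^ 3) ^ (r * K ^ 2 + 1)) ^ b) * b ^ 4
        ≤ 2 ^ (t - 8) := by
  obtain ⟨b, B, hb, hB, hram⟩ := block_ramsey r hr L
  obtain ⟨K, hK⟩ := ramsey_pairs (r + 1) (max 3 b) (Nat.succ_pos r)
  obtain ⟨t, ht1, ht2, ht3⟩ := exists_t
    (8 * (9 * r * b ^ 2 * (4 * K * 200 ^ (r * K ^ 2 + 1)) ^ b) * b ^ 4) (3 * (r * K ^ 2 + 1) * b) L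
  refine ⟨b, B, K, t, hb, hB, by omega, ht2, ?_, hram, hK, ?_⟩
  · obtain ⟨σ, -, -⟩ := hK (fun _ _ => 0)
    exact Nat.pos_of_ne_zero (fun h => by
      subst h
      exact (σ ⟨0, by simp⟩).elim0)
  · refine le_trans (le_of_eq ?_) ht3
    rw [mul_pow 200, ← pow_mul, ← mul_assoc (4 * K), mul_pow (4 * K * _), ← pow_mul]
    ring

end Pool.Agent.PUG
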