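import Pool.Agent.PUG.WT

set_option autoImplicit false

namespace Pool.Agent.PUG

open Classical in
/-- The dichotomy for one level. -/
theorem level_main {κ V : Type} [Fintype κ] [Fintype V] {r b K t h L : ℕ} (hr : 0 < r) (hb : 0 < b)
    (hK : 0 < K) (ht : 10 ≤ t) (hh1 : 1 ≤ h) (hV : Fintype.card V = h ^ 8) (B : SimpleGraph (Fin b))
    (hram : ∀ χ : Sym2 (Fin b) → Fin r,
        ∃ i : Fin r, (∃ u v, B.Adj u v ∧ χ s(u, v) = i) ∧ ∀ ℓ, 3 ≤ ℓ → ℓ < L →
          ∃ l : List (Fin b), l.length = ℓ ∧ IsCyc (fun x y => B.Adj x y ∧ χ s(x, y) = i) l)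
    (hKr : ∀ χ : Fin K → Fin K → Fin (r + 1), ∃ (σ : Fin (max 3 b) → Fin K) (k : Fin (r + 1)),
        StrictMono σ ∧ ∀ a b, a < b → χ (σ a) (σ b) = k)
    (Λ qf e q0 : ℕ) (hΛ : Λ = 200 * (2 * t + 1) ^ 3) (hqf : qf = 4 * K * Λ ^ (r * K ^ 2 + 1))
    (he : e = 9 * r * b ^ 2 * qf ^ b) (hq0 : q0 = 8 * e * b ^ 4) (hq : q0 ≤ 2 ^ (t - 8))
    (hh : qf ≤ h ^ 8)
    (f : κ → Fin b → V) (𝒢 : Finset κ) (hinj : ∀ k ∈ 𝒢, Function.Injective (f k))
    (P3 : ∀ X : Fin b → Finset V, (∀ v, h ^ 8 ≤ qf * (X v).card) →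
        h ^ 10 ≤ 8 * qf ^ b * (𝒢.filter (fun k => ∀ v, f k v ∈ X v)).card)
    (P4 : ∀ A C : Finset V, A.Nonempty → C.card ≤ h * A.card → q0 * C.card ≤ h ^ 8 →
        e * (Finset.univ.filter (fun p : κ × Fin b × Fin b =>
          B.Adj p.2.1 p.2.2 ∧ f p.1 p.2.1 ∈ A ∧ f p.1 p.2.2 ∈ C)).card < h ^ 2 * A.card)
    (χ : Sym2 V → Fin r) (Z : Finset V) (hZ : 2 * Z.card ≤ h ^ 8) (ℓ : Fin r → ℕ)
    (S : Set (Fin r)) (hS : ∀ i ∈ S, 3 ≤ ℓ i ∧ ℓ i < L)
    (hS' : ∀ i, i ∉ S → 2 * t + 1 ≤ ℓ i ∧ 2 * (2 * t + 1) * qf * ℓ i ≤ h ^ 8) :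
    ∃ (i : Fin r) (l : List V), l.length = ℓ i ∧
      IsCyc (fun x y => (blockGraph B f (𝒢 : Set κ)).Adj x y ∧ χ s(x, y) = i) l ∧
        ∀ x ∈ l, x ∉ Z := by
  have hΛ1 : 1 ≤ Λ := by rw [hΛ]; exact Nat.one_le_iff_ne_zero.2 (by positivity)
  have hqf4 : 4 * K ≤ qf := by
    rw [hqf]; exact Nat.le_mul_of_pos_right _ (by positivity)
  have hqf1 : 1 ≤ qf := by omega
  -- initial sets
  have hw : Fintype.card (Fin K) * (h ^ 8 / (2 * K)) ≤ (Zᶜ).card := by
    rw [Fintype.card_fin, Finset.card_compl, hV]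
    have h1 : 2 * K * (h ^ 8 / (2 * K)) ≤ h ^ 8 := Nat.mul_div_le _ _
    have : 2 * (K * (h ^ 8 / (2 * K))) ≤ h ^ 8 := by
      calc 2 * (K * (h ^ 8 / (2 * K))) = 2 * K * (h ^ 8 / (2 * K)) := by ring
        _ ≤ _ := h1
    omega
  obtain ⟨W, hWZ, hWc, hWd⟩ := exists_disjoint_subsets (κ := Fin K) Zᶜ (h ^ 8 / (2 * K)) hw
  have hWc' : ∀ a, h ^ 8 ≤ 4 * K * (W a).card := by
    intro a
    rw [hWc]
    have h2 : h ^ 8 < 2 * K * (h ^ 8 / (2 * K)) + 2 * K := by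
      have := Nat.lt_mul_div_succ (h ^ 8) (show 0 < 2 * K by omega)
      rw [Nat.mul_add] at this
      omega
    have h3 : 1 ≤ h ^ 8 / (2 * K) := by
      rw [Nat.le_div_iff_mul_le (by omega)]
      omega
    have h4 : 2 * K ≤ 2 * K * (h ^ 8 / (2 * K)) := Nat.le_mul_of_pos_right _ h3
    have h5 : 4 * K * (h ^ 8 / (2 * K)) = 2 * K * (h ^ 8 / (2 * K)) + 2 * K * (h ^ 8 / (2 * K)) := by
      ring
    omega
  obtain ⟨k, W', T, hk, hW'W, hW'c, hT, hnT⟩ :=
    marking (wt B f 𝒢 χ) e (h ^ 10) (4 * K) Λ (h ^ 8) hΛ1 W hWc'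
  have hq2f : 4 * K * Λ ^ (k + 1) ≤ qf := by
    rw [hqf]
    exact Nat.mul_le_mul_left _ (Nat.pow_le_pow_right hΛ1 (by omega))
  have hq2f' : 4 * K * Λ ^ k ≤ qf := by
    refine le_trans ?_ hq2f
    exact Nat.mul_le_mul_left _ (Nat.pow_le_pow_right hΛ1 (by omega))
  have hW'd : ∀ a a', a ≠ a' → Disjoint (W' a) (W' a') := fun a a' haa =>
    Finset.disjoint_of_subset_left (hW'W a) (Finset.disjoint_of_subset_right (hW'W a') (hWd a a' haa))
  have hW'Z : ∀ a, ∀ x ∈ W' a, x ∉ Z := by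
    intro a x hx
    have := hWZ a (hW'W a hx)
    simpa using this
  -- Ramsey
  have hcol : ∀ a c : Fin K, ∃ j : Fin (r + 1), (∀ i : Fin r, j = i.castSucc → i ∉ S ∧ (i, a, c) ∉ T) ∧
      (j = Fin.last r → ∀ i, i ∉ S → (i, a, c) ∈ T) := by
    intro a c
    by_cases hex : ∃ i : Fin r, i ∉ S ∧ (i, a, c) ∉ T
    · obtain ⟨i, hi1, hi2⟩ := hex
      refine ⟨i.castSucc, ?_, ?_⟩
      · intro i' hi'
        rw [Fin.castSucc_inj] at hi'
        subst hi'
        exact ⟨hi1, hi2⟩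
      · intro hl
        exact absurd hl (Fin.castSucc_lt_last i).ne
    · push Not at hex
      refine ⟨Fin.last r, ?_, fun _ => hex⟩
      intro i hi
      exact absurd hi.symm (Fin.castSucc_lt_last i).ne
  choose col hcol1 hcol2 using hcol
  obtain ⟨σ, j, hσ, hmono⟩ := hKr col
  rcases Fin.eq_castSucc_or_eq_last j with ⟨i, hi⟩ | hlast
  · -- three sets, dense in colour `i`
    have h3b : 3 ≤ max 3 b := le_max_left _ _
    let τ : Fin 3 → Fin (max 3 b) := Fin.castLE h3b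
    have hτ : StrictMono τ := Fin.strictMono_castLE h3b
    have hun : ∀ a a' : Fin 3, a < a' → i ∉ S ∧ (i, σ (τ a), σ (τ a')) ∉ T := by
      intro a a' haa
      apply hcol1 _ _ i
      rw [hmono _ _ (hτ haa), hi]
    have hiS : i ∉ S := (hun 0 1 (by decide)).1
    have hinjστ : ∀ a a' : Fin 3, a ≠ a' → σ (τ a) ≠ σ (τ a') := fun a a' haa hh =>
      haa (hτ.injective (hσ.injective hh))
    have hH2 : ∀ a a' : Fin 3, a ≠ a' → ∀ X Y : Finset V, X ⊆ W' (σ (τ a)) → Y ⊆ W' (σ (τ a')) →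
        h ^ 8 ≤ 4 * K * Λ ^ (k + 1) * X.card → h ^ 8 ≤ 4 * K * Λ ^ (k + 1) * Y.card →
          h ^ 10 < e * ew (wt B f 𝒢 χ i) X Y := by
      intro a a' haa X Y hX hY hXc hYc
      rcases lt_or_gt_of_ne haa with hlt | hgt
      · exact hnT i _ _ (hinjστ a a' haa) (hun a a' hlt).2 X Y hX hY hXc hYc
      · rw [ew_symm _ (wt_symm B f 𝒢 χ i)]
        exact hnT i _ _ (hinjστ a' a haa.symm) (hun a' a hgt).2 Y X hY hX hYc hXc
    have heb : qf ≤ e := by
      rw [he]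
      calc qf = 1 * qf ^ 1 := by ring
        _ ≤ (9 * r * b ^ 2) * qf ^ b := Nat.mul_le_mul (Nat.one_le_iff_ne_zero.2 (by positivity))
            (Nat.pow_le_pow_right hqf1 hb)
    have heq0 : e ≤ q0 := by
      rw [hq0]
      calc e = 1 * e * 1 := by ring
        _ ≤ 8 * e * b ^ 4 := Nat.mul_le_mul (Nat.mul_le_mul_right _ (by norm_num))
            (Nat.one_le_iff_ne_zero.2 (by positivity))
    have hcyc := cycles (wt B f 𝒢 χ i) (wt_symm B f 𝒢 χ i) h e q0 (4 * K * Λ ^ (k + 1))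
      (4 * K * Λ ^ k) t hV (by omega) (by omega) ht hq
      (Nat.one_le_iff_ne_zero.2 (by positivity))
      (by rw [pow_succ, hΛ]; exact le_of_eq (by ring))
      (by omega)
      (by
        intro A C hA hC1 hC2
        have := P4 A C hA hC1 hC2
        have h2 := ew_wt_le B f 𝒢 χ i A C
        exact lt_of_le_of_lt (Nat.mul_le_mul_left _ h2) this)
      (fun a => W' (σ (τ a)))
      (fun a a' haa => hW'd _ _ (hinjστ a a' haa))
      (fun a => hW'c _) hH2 (ℓ i) (hS' i hiS).1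
      (le_trans (Nat.mul_le_mul_right _ (Nat.mul_le_mul_left _ hq2f')) (hS' i hiS).2)
    obtain ⟨l, hl1, hl2, hl3⟩ := hcyc
    refine ⟨i, l, hl1, hl2.mono ?_, ?_⟩
    · intro x _ y _ hxy
      exact wt_adj B f 𝒢 χ hinj hxy
    · intro x hx
      obtain ⟨a, ha⟩ := hl3 x hx
      exact hW'Z _ x ha
  · -- `b` sets, sparse in all colours outside `S`
    have hbb : b ≤ max 3 b := le_max_right _ _
    let τ : Fin b → Fin (max 3 b) := Fin.castLE hbb
    have hτ : StrictMono τ := Fin.strictMono_castLE hbb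
    set X : Fin b → Finset V := fun v => W' (σ (τ v)) with hX
    have hXd : ∀ v w, v ≠ w → Disjoint (X v) (X w) := fun v w hvw =>
      hW'd _ _ (fun hh => hvw (hτ.injective (hσ.injective hh)))
    have hsparse : ∀ v w : Fin b, v < w → ∀ i, i ∉ S →
        e * ew (wt B f 𝒢 χ i) (X v) (X w) ≤ h ^ 10 := by
      intro v w hvw i hiS
      apply hT
      apply hcol2 _ _ _ i hiS
      rw [hmono _ _ (hτ hvw), hlast]
    have hP3 := P3 X (fun v => le_trans (hW'c _) (Nat.mul_le_mul_right _ hq2f'))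
    -- a good block
    have hgood : ∃ k ∈ 𝒢, (∀ v, f k v ∈ X v) ∧ ∀ v w, B.Adj v w → χ s(f k v, f k w) ∈ S := by
      by_contra hno
      push Not at hno
      have hcov : 𝒢.filter (fun k => ∀ v, f k v ∈ X v) ⊆
          (Finset.univ : Finset (Fin r × Fin b × Fin b)).biUnion (fun q =>
            if q.1 ∉ S ∧ q.2.1 < q.2.2 then
              𝒢.filter (fun k => (∀ u, f k u ∈ X u) ∧ B.Adj q.2.1 q.2.2 ∧
                χ s(f k q.2.1, f k q.2.2) = q.1)
            else ∅) := by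
        intro k hk
        rw [Finset.mem_filter] at hk
        obtain ⟨v, w, hvw, hc⟩ := hno k hk.1 hk.2
        rw [Finset.mem_biUnion]
        rcases lt_or_gt_of_ne hvw.ne with hlt | hgt
        · refine ⟨(χ s(f k v, f k w), v, w), Finset.mem_univ _, ?_⟩
          rw [if_pos ⟨hc, hlt⟩, Finset.mem_filter]
          exact ⟨hk.1, hk.2, hvw, rfl⟩
        · refine ⟨(χ s(f k v, f k w), w, v), Finset.mem_univ _, ?_⟩
          rw [if_pos ⟨hc, hgt⟩, Finset.mem_filter]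
          exact ⟨hk.1, hk.2, hvw.symm, by rw [Sym2.eq_swap]⟩
      have hcard := le_trans (Finset.card_le_card hcov) Finset.card_biUnion_le
      have hsum : e * ∑ q : Fin r × Fin b × Fin b,
          (if q.1 ∉ S ∧ q.2.1 < q.2.2 then
              𝒢.filter (fun k => (∀ u, f k u ∈ X u) ∧ B.Adj q.2.1 q.2.2 ∧
                χ s(f k q.2.1, f k q.2.2) = q.1)
            else ∅).card ≤ r * b ^ 2 * h ^ 10 := by
        rw [Finset.mul_sum]
        have : ∀ q ∈ (Finset.univ : Finset (Fin r × Fin b × Fin b)), e *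
            (if q.1 ∉ S ∧ q.2.1 < q.2.2 then
              𝒢.filter (fun k => (∀ u, f k u ∈ X u) ∧ B.Adj q.2.1 q.2.2 ∧
                χ s(f k q.2.1, f k q.2.2) = q.1)
            else ∅).card ≤ h ^ 10 := by
          intro q _
          by_cases hq : q.1 ∉ S ∧ q.2.1 < q.2.2
          · rw [if_pos hq]
            exact le_trans (Nat.mul_le_mul_left _ (card_le_ew B f 𝒢 χ q.1 X q.2.1 q.2.2))
              (hsparse _ _ hq.2 _ hq.1)
          · rw [if_neg hq]; simp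
        refine le_trans (Finset.sum_le_card_nsmul _ _ _ this) ?_
        rw [Finset.card_univ, Fintype.card_prod, Fintype.card_prod, Fintype.card_fin,
          Fintype.card_fin, smul_eq_mul]
        exact le_of_eq (by ring)
      have hfin : e * (𝒢.filter (fun k => ∀ v, f k v ∈ X v)).card ≤ r * b ^ 2 * h ^ 10 :=
        le_trans (Nat.mul_le_mul_left _ hcard) hsum
      set c := (𝒢.filter (fun k => ∀ v, f k v ∈ X v)).card with hc
      rw [he] at hfin
      have hrb : 0 < r * b ^ 2 := by positivity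
      have h1 : 9 * qf ^ b * c ≤ h ^ 10 := by
        have : (r * b ^ 2) * (9 * qf ^ b * c) ≤ (r * b ^ 2) * h ^ 10 := by
          calc (r * b ^ 2) * (9 * qf ^ b * c) = 9 * r * b ^ 2 * qf ^ b * c := by ring
            _ ≤ _ := hfin
        exact Nat.le_of_mul_le_mul_left this hrb
      have h2 : 9 * (qf ^ b * c) ≤ 8 * (qf ^ b * c) := by
        calc 9 * (qf ^ b * c) = 9 * qf ^ b * c := by ring
          _ ≤ h ^ 10 := h1
          _ ≤ 8 * qf ^ b * c := hP3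
          _ = _ := by ring
      have h3 : qf ^ b * c = 0 := by omega
      have h4 : h ^ 10 ≤ 0 := by
        calc h ^ 10 ≤ 8 * qf ^ b * c := hP3
          _ = 8 * (qf ^ b * c) := by ring
          _ = 0 := by rw [h3]
      have h5 : 0 < h ^ 10 := by positivity
      omega
    obtain ⟨k0, hk0, hk0X, hk0S⟩ := hgood
    obtain ⟨i, ⟨u, v, huv, hui⟩, hcyc⟩ := hram (fun s => χ (s.map (f k0)))
    have hiS : i ∈ S := by
      rw [← hui]
      exact hk0S u v huv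
    obtain ⟨l, hl1, hl2⟩ := hcyc (ℓ i) (hS i hiS).1 (hS i hiS).2
    refine ⟨i, l.map (f k0), by simp [hl1], hl2.map (f k0) (hinj k0 hk0) ?_, ?_⟩
    · rintro x y ⟨hxy, hc⟩
      refine ⟨⟨?_, k0, hk0, x, y, hxy, rfl, rfl⟩, hc⟩
      intro heq
      exact hxy.ne (hinj k0 hk0 heq)
    · intro x hx
      rw [List.mem_map] at hx
      obtain ⟨v', -, rfl⟩ := hx
      exact hW'Z _ _ (hk0X v')

end Pool.Agent.PUG
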