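import Pool.Agent.PUG.Defs

set_option autoImplicit false

namespace Pool.Agent.PUG

private theorem MRK_mono {V : Type} (ν : V → V → ℕ) {A A' C C' : Finset V} (hA : A ⊆ A')
    (hC : C ⊆ C') : ew ν A C ≤ ew ν A' C' := by
  unfold ew
  calc ∑ x ∈ A, ∑ y ∈ C, ν x y ≤ ∑ x ∈ A, ∑ y ∈ C', ν x y :=
        Finset.sum_le_sum fun x _ => Finset.sum_le_sum_of_subset hC
    _ ≤ ∑ x ∈ A', ∑ y ∈ C', ν x y := Finset.sum_le_sum_of_subset hA

/-- Marking: shrink the sets a bounded number of times so that every triple `(i, a, b)` is either sparse or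
dense for all large subsets. -/
theorem marking {V : Type} {r K : ℕ} (ν : Fin r → V → V → ℕ) (e M q Λ N : ℕ) (hΛ : 1 ≤ Λ)
    (W : Fin K → Finset V) (hWc : ∀ a, N ≤ q * (W a).card) :
    ∃ (k : ℕ) (W' : Fin K → Finset V) (T : Set (Fin r × Fin K × Fin K)),
      k ≤ r * K ^ 2 ∧ (∀ a, W' a ⊆ W a) ∧ (∀ a, N ≤ q * Λ ^ k * (W' a).card) ∧
      (∀ i a b, (i, a, b) ∈ T → e * ew (ν i) (W' a) (W' b) ≤ M) ∧
      (∀ i a b, a ≠ b → (i, a, b) ∉ T → ∀ X Y : Finset V, X ⊆ W' a → Y ⊆ W' b →
        N ≤ q * Λ ^ (k + 1) * X.card → N ≤ q * Λ ^ (k + 1) * Y.card → M < e * ew (ν i) X Y) := by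
  classical
  by_contra hcon
  have key : ∀ m : ℕ, ∃ (T : Finset (Fin r × Fin K × Fin K)) (W' : Fin K → Finset V),
      T.card = m ∧ (∀ a, W' a ⊆ W a) ∧ (∀ a, N ≤ q * Λ ^ m * (W' a).card) ∧
      (∀ i a b, (i, a, b) ∈ T → e * ew (ν i) (W' a) (W' b) ≤ M) := by
    intro m
    induction m with
    | zero =>
      exact ⟨∅, W, by simp, fun a => Finset.Subset.refl _, by simpa using hWc, by simp⟩
    | succ m ih =>
      obtain ⟨T, W', hm, hsub, hsize, hsp⟩ := ih
      have hmr : m ≤ r * K ^ 2 := by
        have h1 : T.card ≤ Fintype.card (Fin r × Fin K × Fin K) := Finset.card_le_univ T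
        rw [hm] at h1
        simp only [Fintype.card_prod, Fintype.card_fin] at h1
        calc m ≤ r * (K * K) := h1
          _ = r * K ^ 2 := by ring
      by_contra hno
      apply hcon
      refine ⟨m, W', (T : Set (Fin r × Fin K × Fin K)), hmr, hsub, hsize, ?_, ?_⟩
      · intro i a b hi
        exact hsp i a b (Finset.mem_coe.1 hi)
      · intro i a b hab hi X Y hX hY hXc hYc
        by_contra hle
        rw [not_lt] at hle
        apply hno
        have hi' : (i, a, b) ∉ T := fun h => hi (Finset.mem_coe.2 h)
        set W'' : Fin K → Finset V := fun c => if c = a then X else if c = b then Y else W' c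
          with hW''
        have hWa : W'' a = X := by simp [hW'']
        have hWb : W'' b = Y := by simp [hW'', hab.symm]
        have hsub2 : ∀ c, W'' c ⊆ W' c := by
          intro c
          by_cases hca : c = a
          · rw [hca, hWa]
            exact hX
          · by_cases hcb : c = b
            · rw [hcb, hWb]
              exact hY
            · have : W'' c = W' c := by simp [hW'', hca, hcb]
              rw [this]
        refine ⟨insert (i, a, b) T, W'', ?_, fun c => (hsub2 c).trans (hsub c), ?_, ?_⟩
        · rw [Finset.card_insert_of_notMem hi', hm]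
        · intro c
          by_cases hca : c = a
          · rw [hca, hWa]
            exact hXc
          · by_cases hcb : c = b
            · rw [hcb, hWb]
              exact hYc
            · have : W'' c = W' c := by simp [hW'', hca, hcb]
              rw [this]
              calc N ≤ q * Λ ^ m * (W' c).card := hsize c
                _ ≤ q * Λ ^ (m + 1) * (W' c).card :=
                  Nat.mul_le_mul_right _ (Nat.mul_le_mul_left _
                    (Nat.pow_le_pow_right hΛ (Nat.le_succ m)))
        · intro i' a' b' h'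
          rcases Finset.mem_insert.1 h' with h' | h'
          · simp only [Prod.mk.injEq] at h'
            obtain ⟨rfl, rfl, rfl⟩ := h'
            rw [hWa, hWb]
            exact hle
          · exact (Nat.mul_le_mul_left e (MRK_mono _ (hsub2 a') (hsub2 b'))).trans (hsp i' a' b' h')
  obtain ⟨T, -, hT, -⟩ := key (r * K ^ 2 + 1)
  have h1 : T.card ≤ Fintype.card (Fin r × Fin K × Fin K) := Finset.card_le_univ T
  rw [hT] at h1
  simp only [Fintype.card_prod, Fintype.card_fin] at h1
  have h2 : r * (K * K) = r * K ^ 2 := by ring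
  omega

end Pool.Agent.PUG
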