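import Pool.Agent.PUG.Defs

set_option autoImplicit false

namespace Pool.Agent.PUG

private theorem RAM_aux {α : Type} [LinearOrder α] {r : ℕ} (hr : 0 < r) (χ : α → α → Fin r) :
    ∀ (m : ℕ) (s : Finset α), (r + 1) ^ m ≤ s.card →
      ∃ (a : Fin m → α) (c : Fin m → Fin r), StrictMono a ∧ (∀ i, a i ∈ s) ∧
        ∀ i j, i < j → χ (a i) (a j) = c i := by
  intro m
  induction m with
  | zero =>
    intro s _
    refine ⟨fun i => i.elim0, fun i => i.elim0, fun i => i.elim0, fun i => i.elim0,
      fun i => i.elim0⟩
  | succ m ih =>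
    intro s hs
    have hpos : 0 < s.card := lt_of_lt_of_le (by positivity) hs
    have hne : s.Nonempty := Finset.card_pos.1 hpos
    set x := s.min' hne with hx
    have hxs : x ∈ s := s.min'_mem hne
    have hcard : (s.erase x).card = s.card - 1 := Finset.card_erase_of_mem hxs
    have hmul : (Finset.univ : Finset (Fin r)).card * (r + 1) ^ m ≤ (s.erase x).card := by
      rw [hcard, Finset.card_univ, Fintype.card_fin]
      have h1 : (r + 1) ^ (m + 1) = r * (r + 1) ^ m + (r + 1) ^ m := by ring
      have h2 : 0 < (r + 1) ^ m := by positivity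
      omega
    have : Nonempty (Fin r) := ⟨⟨0, hr⟩⟩
    obtain ⟨k, -, hk⟩ := Finset.exists_le_card_fiber_of_mul_le_card_of_maps_to
      (f := fun y => χ x y) (s := s.erase x) (t := Finset.univ)
      (fun y _ => Finset.mem_univ _) Finset.univ_nonempty hmul
    obtain ⟨a, c, ha, hmem, hac⟩ := ih _ hk
    have hmem' : ∀ i, a i ≠ x ∧ a i ∈ s ∧ χ x (a i) = k := by
      intro i
      have h1 := Finset.mem_filter.1 (hmem i)
      have h2 := Finset.mem_erase.1 h1.1
      exact ⟨h2.1, h2.2, h1.2⟩
    have hlt : ∀ i, x < a i := fun i =>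
      lt_of_le_of_ne (s.min'_le _ (hmem' i).2.1) (Ne.symm (hmem' i).1)
    refine ⟨Fin.cons x a, Fin.cons k c, ?_, ?_, ?_⟩
    · intro i j hij
      induction i using Fin.cases with
      | zero =>
        induction j using Fin.cases with
        | zero => exact absurd hij (lt_irrefl _)
        | succ j => simpa using hlt j
      | succ i =>
        induction j using Fin.cases with
        | zero => exact absurd hij (by simp)
        | succ j =>
          simp only [Fin.cons_succ]
          exact ha (Fin.succ_lt_succ_iff.1 hij)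
    · intro i
      induction i using Fin.cases with
      | zero => simpa using hxs
      | succ i => simpa using (hmem' i).2.1
    · intro i j hij
      induction i using Fin.cases with
      | zero =>
        induction j using Fin.cases with
        | zero => exact absurd hij (lt_irrefl _)
        | succ j => simpa using (hmem' j).2.2
      | succ i =>
        induction j using Fin.cases with
        | zero => exact absurd hij (by simp)
        | succ j =>
          simp only [Fin.cons_succ]
          exact hac i j (Fin.succ_lt_succ_iff.1 hij)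

/-- Ramsey's theorem for pairs, `r` colours. -/
theorem ramsey_pairs (r f : ℕ) (hr : 0 < r) :
    ∃ R : ℕ, ∀ χ : Fin R → Fin R → Fin r, ∃ (σ : Fin f → Fin R) (k : Fin r), StrictMono σ ∧
      ∀ a b, a < b → χ (σ a) (σ b) = k := by
  refine ⟨(r + 1) ^ (r * f), fun χ => ?_⟩
  obtain ⟨a, c, ha, -, hac⟩ := RAM_aux hr χ (r * f) Finset.univ (by simp)
  have : Nonempty (Fin r) := ⟨⟨0, hr⟩⟩
  obtain ⟨k, -, hk⟩ := Finset.exists_le_card_fiber_of_mul_le_card_of_maps_to
    (f := c) (s := Finset.univ) (t := Finset.univ) (n := f)
    (fun y _ => Finset.mem_univ _) Finset.univ_nonempty (by simp)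
  refine ⟨fun i => a (Finset.orderEmbOfCardLe _ hk i), k, ?_, ?_⟩
  · intro i j hij
    exact ha ((Finset.orderEmbOfCardLe _ hk).strictMono hij)
  · intro i j hij
    rw [hac _ _ ((Finset.orderEmbOfCardLe _ hk).strictMono hij)]
    exact (Finset.mem_filter.1 (Finset.orderEmbOfCardLe_mem _ hk i)).2

end Pool.Agent.PUG
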