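import Pool.Agent.PUG.RAM
import Pool.Agent.PUG.FLG
import Pool.Agent.PUG.AMA

set_option autoImplicit false

namespace Pool.Agent.PUG

namespace Amal

variable {V T X' Y' Q : Type} (A : Amal V T X' Y' Q)

/-- If all four vertices are in one copy, a four cycle of the amalgam comes from one of `G`. -/
theorem c4_copy (c4 : C4Free A.G.Adj) {q : Q} {x₁ x₂ y₁ y₂ : A.Vert}
    (hx : x₁ ≠ x₂) (hy : y₁ ≠ y₂)
    (h11 : A.graph.Adj x₁ y₁) (h12 : A.graph.Adj x₁ y₂) (h21 : A.graph.Adj x₂ y₁)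
    (h22 : A.graph.Adj x₂ y₂)
    (e1 : ∃ u, A.map q u = x₁) (e2 : ∃ u, A.map q u = x₂) (e3 : ∃ u, A.map q u = y₁)
    (e4 : ∃ u, A.map q u = y₂) : False := by
  obtain ⟨u1, rfl⟩ := e1
  obtain ⟨u2, rfl⟩ := e2
  obtain ⟨v1, rfl⟩ := e3
  obtain ⟨v2, rfl⟩ := e4
  rw [A.adj_map] at h11 h12 h21 h22
  exact c4 u1 u2 v1 v2 (fun h => hx (by rw [h])) (fun h => hy (by rw [h])) h11 h12 h21 h22

end Amal

namespace StarC

section flag

variable {V X' Y' Q : Type} {R r : ℕ} (A : Amal V (Fin R ⊕ Fin R) X' Y' Q)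

theorem bip_amal (hs : A.s.isLeft = true) (ht : A.t.isLeft = false)
    (bip : ∀ u v, A.G.Adj u v → (A.π u).isLeft ≠ (A.π v).isLeft) {a b : A.Vert}
    (h : A.graph.Adj a b) : (A.proj a).isLeft ≠ (A.proj b).isLeft := by
  obtain ⟨-, h | ⟨q, u, v, huv, hu, hv⟩⟩ := h
  · obtain ⟨x, y, hI, ⟨h1, h2⟩ | ⟨h1, h2⟩⟩ := h
    · rw [h1, h2]
      change A.s.isLeft ≠ A.t.isLeft
      rw [hs, ht]; simp
    · rw [h1, h2]
      change A.t.isLeft ≠ A.s.isLeft
      rw [hs, ht]; simp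
  · rw [← hu, ← hv, A.proj_map, A.proj_map]
    exact bip _ _ huv

/-- the part of a vertex shared by two different copies is determined by its side -/
theorem shared_part (hs : A.s.isLeft = true) (ht : A.t.isLeft = false) {q q' : Q} (hq : q ≠ q')
    {u u' : V} (h : A.map q u = A.map q' u') :
    A.π u = if (A.π u).isLeft = true then A.s else A.t := by
  rcases A.map_eq h hq with ⟨h1, -, -⟩ | ⟨h1, -, -⟩
  · rw [h1, hs]; simp
  · rw [h1, ht]; simp

theorem c4_inner (hs : A.s.isLeft = true) (ht : A.t.isLeft = false)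
    (bip : ∀ u v, A.G.Adj u v → (A.π u).isLeft ≠ (A.π v).isLeft) (c4 : C4Free A.G.Adj)
    (P : PLFlag (fun (x : {v : V // A.π v = A.s}) (y : {v : V // A.π v = A.t}) => A.G.Adj x.1 y.1)
      r X' Y' Q A.I' A.φ A.ψ)
    {q : Q} {w : {v : V // A.π v ≠ A.s ∧ A.π v ≠ A.t}} {x₂ y₁ y₂ : A.Vert}
    (hx : (Sum.inr (q, w) : A.Vert) ≠ x₂) (hy : y₁ ≠ y₂)
    (h11 : A.graph.Adj (Sum.inr (q, w)) y₁) (h12 : A.graph.Adj (Sum.inr (q, w)) y₂)
    (h21 : A.graph.Adj x₂ y₁) (h22 : A.graph.Adj x₂ y₂)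
    (hl : (A.proj (Sum.inr (q, w))).isLeft = true) : False := by
  have hy1 : (A.proj y₁).isLeft = false := by
    have := bip_amal A hs ht bip h11
    rw [hl] at this
    simpa using this.symm
  have hy2 : (A.proj y₂).isLeft = false := by
    have := bip_amal A hs ht bip h12
    rw [hl] at this
    simpa using this.symm
  have hx2 : (A.proj x₂).isLeft = true := by
    have := bip_amal A hs ht bip h21
    rw [hy1] at this
    simpa using this
  obtain ⟨v1, -, e1⟩ := A.adj_inr h11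
  obtain ⟨v2, -, e2⟩ := A.adj_inr h12
  have key : ¬ ∃ u, A.map q u = x₂ := fun h =>
    A.c4_copy c4 hx hy h11 h12 h21 h22 ⟨w.1, A.map_self q w⟩ h ⟨v1, e1⟩ ⟨v2, e2⟩
  rcases A.cases x₂ with ⟨x', hx'⟩ | ⟨y', hy'⟩ | ⟨q', w', hw'⟩
  · -- `x₂` in `X'`
    subst hx'
    have inY : ∀ (v : V), A.graph.Adj (A.vx x') (A.map q v) → (A.proj (A.map q v)).isLeft = false →
        A.π v = A.t := by
      intro v hv hp
      by_contra hne
      have hns : A.π v ≠ A.s := by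
        intro hh
        rw [A.proj_map, hh, hs] at hp
        exact absurd hp (by simp)
      rw [A.map_o q v hns hne] at hv
      obtain ⟨u, -, hu⟩ := A.adj_inr hv.symm
      exact key ⟨u, hu⟩
    have t1 : A.π v1 = A.t := inY v1 (by rw [e1]; exact h21) (by rw [e1]; exact hy1)
    have t2 : A.π v2 = A.t := inY v2 (by rw [e2]; exact h22) (by rw [e2]; exact hy2)
    rw [← e1, A.map_t q v1 t1, A.adj_xy] at h21
    rw [← e2, A.map_t q v2 t2, A.adj_xy] at h22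
    obtain ⟨x, hx⟩ := P.cl1 q ⟨v1, t1⟩ ⟨v2, t2⟩ x' (by
      intro h
      have hv : v1 = v2 := congrArg Subtype.val h
      apply hy
      rw [← e1, ← e2, hv]) h21 h22
    exact key ⟨x.1, by rw [A.map_s q x.1 x.2]; exact congrArg A.vx hx⟩
  · subst hy'
    change A.t.isLeft = true at hx2
    rw [ht] at hx2
    exact absurd hx2 (by simp)
  · subst hw'
    have hqq : q ≠ q' := by
      rintro rfl
      exact key ⟨w'.1, A.map_self q w'⟩
    obtain ⟨v1', -, e1'⟩ := A.adj_inr h21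
    obtain ⟨v2', -, e2'⟩ := A.adj_inr h22
    have hp1 : A.π v1 ≠ A.s := by
      intro h
      rw [← e1, A.proj_map, h, hs] at hy1
      exact absurd hy1 (by simp)
    have hp2 : A.π v2 ≠ A.s := by
      intro h
      rw [← e2, A.proj_map, h, hs] at hy2
      exact absurd hy2 (by simp)
    rcases A.map_eq (e1.trans e1'.symm) hqq with ⟨a, -, -⟩ | ⟨a1, a2, a3⟩
    · exact hp1 a
    rcases A.map_eq (e2.trans e2'.symm) hqq with ⟨b, -, -⟩ | ⟨b1, b2, b3⟩
    · exact hp2 b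
    have hv : v1 = v2 := congrArg Subtype.val (P.int1 q q' _ _ _ _ hqq a3 b3)
    apply hy
    rw [← e1, ← e2, hv]

theorem c4_inner' (c4 : C4Free A.G.Adj)
    (P : PLFlag (fun (x : {v : V // A.π v = A.s}) (y : {v : V // A.π v = A.t}) => A.G.Adj x.1 y.1)
      r X' Y' Q A.I' A.φ A.ψ)
    {q : Q} {w : {v : V // A.π v ≠ A.s ∧ A.π v ≠ A.t}} {x₁ x₂ : X'} {y₂ : A.Vert}
    (hx : x₁ ≠ x₂) (hy : (Sum.inr (q, w) : A.Vert) ≠ y₂)
    (h11 : A.graph.Adj (A.vx x₁) (Sum.inr (q, w))) (h12 : A.graph.Adj (A.vx x₁) y₂)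
    (h21 : A.graph.Adj (A.vx x₂) (Sum.inr (q, w))) (h22 : A.graph.Adj (A.vx x₂) y₂) : False := by
  obtain ⟨u1, g1, e1⟩ := A.adj_inr h11.symm
  obtain ⟨u2, g2, e2⟩ := A.adj_inr h21.symm
  obtain ⟨p1, f1⟩ := A.map_eq_vx e1
  obtain ⟨p2, f2⟩ := A.map_eq_vx e2
  have key : ¬ ∃ u, A.map q u = y₂ := fun h =>
    A.c4_copy c4 (fun hh => hx (Sum.inl.inj (Sum.inl.inj hh))) hy h11 h12 h21 h22 ⟨u1, e1⟩ ⟨u2, e2⟩
      ⟨w.1, A.map_self q w⟩ h
  have hu : (⟨u1, p1⟩ : {v : V // A.π v = A.s}) ≠ ⟨u2, p2⟩ := by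
    intro h
    apply hx
    rw [← f1, ← f2, h]
  rcases A.cases y₂ with ⟨x', hx'⟩ | ⟨y', hy'⟩ | ⟨q', w', hw'⟩
  · subst hx'
    exact A.proj_ne h12 rfl
  · subst hy'
    rw [A.adj_xy, ← f1] at h12
    rw [A.adj_xy, ← f2] at h22
    obtain ⟨y, hy⟩ := P.cl2 q _ _ y' hu h12 h22
    exact key ⟨y.1, by rw [A.map_t q y.1 y.2]; exact congrArg A.vy hy⟩
  · subst hw'
    have hqq : q ≠ q' := by
      rintro rfl
      exact key ⟨w'.1, A.map_self q w'⟩
    obtain ⟨u1', -, e1'⟩ := A.adj_inr h12.symm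
    obtain ⟨u2', -, e2'⟩ := A.adj_inr h22.symm
    obtain ⟨p1', f1'⟩ := A.map_eq_vx e1'
    obtain ⟨p2', f2'⟩ := A.map_eq_vx e2'
    obtain ⟨y, y', -, i1, i2⟩ := P.int2 q q' ⟨u1, p1⟩ ⟨u2, p2⟩ ⟨u1', p1'⟩ ⟨u2', p2'⟩ hqq hu
      (f1.trans f1'.symm) (f2.trans f2'.symm)
    exact c4 u1 u2 w.1 y.1 (fun h => hu (Subtype.ext h)) (fun h => w.2.2 (h ▸ y.2)) g1.symm i1
      g2.symm i2

theorem c4_left (hs : A.s.isLeft = true) (ht : A.t.isLeft = false)
    (bip : ∀ u v, A.G.Adj u v → (A.π u).isLeft ≠ (A.π v).isLeft) (c4 : C4Free A.G.Adj)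
    (P : PLFlag (fun (x : {v : V // A.π v = A.s}) (y : {v : V // A.π v = A.t}) => A.G.Adj x.1 y.1)
      r X' Y' Q A.I' A.φ A.ψ) {x₁ x₂ y₁ y₂ : A.Vert}
    (hx : x₁ ≠ x₂) (hy : y₁ ≠ y₂)
    (h11 : A.graph.Adj x₁ y₁) (h12 : A.graph.Adj x₁ y₂) (h21 : A.graph.Adj x₂ y₁)
    (h22 : A.graph.Adj x₂ y₂) (hl1 : (A.proj x₁).isLeft = true)
    (hl2 : (A.proj x₂).isLeft = true) : False := by
  have noY : ∀ y' : Y', ¬ (A.proj (A.vy y')).isLeft = true := by
    intro y' h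
    change A.t.isLeft = true at h
    rw [ht] at h
    exact absurd h (by simp)
  rcases A.cases x₁ with ⟨a1, rfl⟩ | ⟨b1, rfl⟩ | ⟨q1, w1, rfl⟩
  · rcases A.cases x₂ with ⟨a2, rfl⟩ | ⟨b2, rfl⟩ | ⟨q2, w2, rfl⟩
    · have hne : a1 ≠ a2 := fun h => hx (by rw [h])
      rcases A.cases y₁ with ⟨c1, rfl⟩ | ⟨d1, rfl⟩ | ⟨q, w, rfl⟩
      · exact A.proj_ne h11 rfl
      · rcases A.cases y₂ with ⟨c2, rfl⟩ | ⟨d2, rfl⟩ | ⟨q, w, rfl⟩
        · exact A.proj_ne h12 rfl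
        · rw [A.adj_xy] at h11 h12 h21 h22
          exact P.c4 a1 a2 d1 d2 hne (fun h => hy (by rw [h])) h11 h12 h21 h22
        · exact c4_inner' A c4 P hne hy.symm h12 h11 h22 h21
      · exact c4_inner' A c4 P hne hy h11 h12 h21 h22
    · exact noY _ hl2
    · exact c4_inner A hs ht bip c4 P hx.symm hy h21 h22 h11 h12 hl2
  · exact noY _ hl1
  · exact c4_inner A hs ht bip c4 P hx hy h11 h12 h21 h22 hl1

theorem c4_amal (hs : A.s.isLeft = true) (ht : A.t.isLeft = false)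
    (bip : ∀ u v, A.G.Adj u v → (A.π u).isLeft ≠ (A.π v).isLeft) (c4 : C4Free A.G.Adj)
    (P : PLFlag (fun (x : {v : V // A.π v = A.s}) (y : {v : V // A.π v = A.t}) => A.G.Adj x.1 y.1)
      r X' Y' Q A.I' A.φ A.ψ) : C4Free A.graph.Adj := by
  intro x₁ x₂ y₁ y₂ hx hy h11 h12 h21 h22
  have b11 := bip_amal A hs ht bip h11
  have b12 := bip_amal A hs ht bip h12
  have b21 := bip_amal A hs ht bip h21
  cases h1 : (A.proj x₁).isLeft
  · rw [h1] at b11 b12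
    have e1 : (A.proj y₁).isLeft = true := by simpa using b11.symm
    have e2 : (A.proj y₂).isLeft = true := by simpa using b12.symm
    exact c4_left A hs ht bip c4 P hy hx h11.symm h21.symm h12.symm h22.symm e1 e2
  · rw [h1] at b11
    have e1 : (A.proj y₁).isLeft = false := by simpa using b11.symm
    rw [e1] at b21
    have e2 : (A.proj x₂).isLeft = true := by simpa using b21
    exact c4_left A hs ht bip c4 P hx hy h11 h12 h21 h22 h1 e2

end flag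

section construction

variable {X Y : Type}

/-- places -/
abbrev Place (X Y : Type) (R : ℕ) : Type := (X ↪ Fin R) × (Y ↪ Fin R)

/-- start of the construction: one copy for each place -/
abbrev V0 (X Y : Type) (R : ℕ) : Type := Place X Y R × (X ⊕ Y)

/-- parts of the start -/
def pi0 {R : ℕ} : V0 X Y R → Fin R ⊕ Fin R
  | (p, Sum.inl x) => Sum.inl (p.1 x)
  | (p, Sum.inr y) => Sum.inr (p.2 y)

/-- graph of the start -/
def G0 (I : X → Y → Prop) (R : ℕ) : SimpleGraph (V0 X Y R) where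
  Adj u v := u.1 = v.1 ∧ ((∃ x y, u.2 = Sum.inl x ∧ v.2 = Sum.inr y ∧ I x y) ∨
    (∃ x y, u.2 = Sum.inr y ∧ v.2 = Sum.inl x ∧ I x y))
  symm := ⟨by
    rintro u v ⟨h, ⟨x, y, h1, h2, h3⟩ | ⟨x, y, h1, h2, h3⟩⟩
    · exact ⟨h.symm, Or.inr ⟨x, y, h2, h1, h3⟩⟩
    · exact ⟨h.symm, Or.inl ⟨x, y, h2, h1, h3⟩⟩⟩
  loopless := ⟨by
    rintro u ⟨-, ⟨x, y, h1, h2, -⟩ | ⟨x, y, h1, h2, -⟩⟩
    · rw [h1] at h2; exact absurd h2 (by simp)
    · rw [h1] at h2; exact absurd h2 (by simp)⟩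

/-- invariants of the construction -/
structure Inv (I : X → Y → Prop) {R : ℕ} {V : Type} (π : V → Fin R ⊕ Fin R) (G : SimpleGraph V)
    (K : Set (X ⊕ Y → V)) : Prop where
  bip : ∀ u v, G.Adj u v → (π u).isLeft ≠ (π v).isLeft
  c4 : C4Free G.Adj
  kl : ∀ κ ∈ K, ∀ x, (π (κ (Sum.inl x))).isLeft = true
  kr : ∀ κ ∈ K, ∀ y, (π (κ (Sum.inr y))).isLeft = false
  kinj : ∀ κ ∈ K, ∀ z₁ z₂, π (κ z₁) = π (κ z₂) → z₁ = z₂
  kadj : ∀ κ ∈ K, ∀ x y, G.Adj (κ (Sum.inl x)) (κ (Sum.inr y)) ↔ I x y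
  int : ∀ κ ∈ K, ∀ κ' ∈ K, κ ≠ κ' → ∀ z₁ z₂ z₁' z₂', κ z₁ = κ' z₁' → κ z₂ = κ' z₂' →
    (π (κ z₁)).isLeft = (π (κ z₂)).isLeft → z₁ = z₂
  out : ∀ κ ∈ K, ∀ v, (∀ z, κ z ≠ v) → ∀ z₁ z₂, G.Adj v (κ z₁) → G.Adj v (κ z₂) → z₁ = z₂

/-- the Ramsey property of the construction, for the pairs in `D` -/
def Ram (I : X → Y → Prop) (r : ℕ) {R : ℕ} {V : Type} (π : V → Fin R ⊕ Fin R) (G : SimpleGraph V)
    (K : Set (X ⊕ Y → V)) (D : Finset (Fin R × Fin R)) : Prop :=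
  ∀ c : V → V → Fin r, ∃ Φ : V0 X Y R → V, (∀ u, π (Φ u) = pi0 u) ∧
    (∀ u v, (G0 I R).Adj u v → G.Adj (Φ u) (Φ v)) ∧ (∀ p, (fun z => Φ (p, z)) ∈ K) ∧
    ∀ ab ∈ D, ∃ k, ∀ u v, (G0 I R).Adj u v → pi0 u = Sum.inl ab.1 → pi0 v = Sum.inr ab.2 →
      c (Φ u) (Φ v) = k

theorem inv0 (I : X → Y → Prop) (hI : C4Free I) (R : ℕ) :
    Inv I (pi0 (X := X) (Y := Y) (R := R)) (G0 I R) {κ | ∃ p, κ = fun z => (p, z)} where
  bip := by
    rintro ⟨p, z⟩ ⟨p', z'⟩ ⟨h, ⟨x, y, h1, h2, h3⟩ | ⟨x, y, h1, h2, h3⟩⟩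
    · change z = _ at h1
      change z' = _ at h2
      subst h1 h2
      simp [pi0]
    · change z = _ at h1
      change z' = _ at h2
      subst h1 h2
      simp [pi0]
  c4 := by
    rintro ⟨p1, a⟩ ⟨p2, b⟩ ⟨p3, c⟩ ⟨p4, d⟩ hx hy ⟨h1, h1'⟩ ⟨h2, h2'⟩ ⟨h3, h3'⟩ ⟨h4, h4'⟩
    change p1 = p3 at h1
    change p1 = p4 at h2
    change p2 = p3 at h3
    subst h1
    subst h2
    subst h3
    simp only at h1' h2' h3' h4'
    rcases h1' with ⟨x, y, e1, e2, i1⟩ | ⟨x, y, e1, e2, i1⟩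
    · subst e1 e2
      rcases h2' with ⟨x', y', e3, e4, i2⟩ | ⟨x', y', e3, e4, i2⟩
      · cases Sum.inl.inj e3
        subst e4
        rcases h3' with ⟨x'', y'', e5, e6, i3⟩ | ⟨x'', y'', e5, e6, i3⟩
        · cases Sum.inr.inj e6
          subst e5
          rcases h4' with ⟨x3, y3, e7, e8, i4⟩ | ⟨x3, y3, e7, e8, i4⟩
          · cases Sum.inl.inj e7
            cases Sum.inr.inj e8
            exact hI _ _ _ _ (fun h => hx (by rw [h])) (fun h => hy (by rw [h])) i1 i2 i3 i4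
          · exact absurd e7 (by simp)
        · exact absurd e6 (by simp)
      · exact absurd e3 (by simp)
    · subst e1 e2
      rcases h2' with ⟨x', y', e3, e4, i2⟩ | ⟨x', y', e3, e4, i2⟩
      · exact absurd e3 (by simp)
      · cases Sum.inr.inj e3
        subst e4
        rcases h3' with ⟨x'', y'', e5, e6, i3⟩ | ⟨x'', y'', e5, e6, i3⟩
        · exact absurd e6 (by simp)
        · cases Sum.inl.inj e6
          subst e5
          rcases h4' with ⟨x3, y3, e7, e8, i4⟩ | ⟨x3, y3, e7, e8, i4⟩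
          · exact absurd e7 (by simp)
          · cases Sum.inr.inj e7
            cases Sum.inl.inj e8
            exact hI _ _ _ _ (fun h => hy (by rw [h])) (fun h => hx (by rw [h])) i1 i3 i2 i4
  kl := by
    rintro κ ⟨p, rfl⟩ x
    simp [pi0]
  kr := by
    rintro κ ⟨p, rfl⟩ x
    simp [pi0]
  kinj := by
    rintro κ ⟨p, rfl⟩ z₁ z₂ h
    rcases z₁ with x | x <;> rcases z₂ with y | y
    · simp only [pi0] at h
      rw [p.1.injective (Sum.inl.inj h)]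
    · simp [pi0] at h
    · simp [pi0] at h
    · simp only [pi0] at h
      rw [p.2.injective (Sum.inr.inj h)]
  kadj := by
    rintro κ ⟨p, rfl⟩ x y
    constructor
    · rintro ⟨-, ⟨x', y', h1, h2, h3⟩ | ⟨x', y', h1, h2, h3⟩⟩
      · cases Sum.inl.inj h1
        cases Sum.inr.inj h2
        exact h3
      · exact absurd h1 (by simp)
    · intro h
      exact ⟨rfl, Or.inl ⟨x, y, rfl, rfl, h⟩⟩
  int := by
    rintro κ ⟨p, rfl⟩ κ' ⟨p', rfl⟩ hne z₁ z₂ z₁' z₂' h1 h2 -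
    exfalso
    apply hne
    have : p = p' := congrArg Prod.fst h1
    rw [this]
  out := by
    rintro κ ⟨p, rfl⟩ ⟨p', z⟩ hz z₁ z₂ ⟨h1, -⟩ -
    exfalso
    change p' = p at h1
    subst h1
    exact hz z rfl

theorem ram0 (I : X → Y → Prop) (r R : ℕ) :
    Ram I r (pi0 (X := X) (Y := Y) (R := R)) (G0 I R) {κ | ∃ p, κ = fun z => (p, z)} ∅ := by
  intro c
  exact ⟨id, fun u => rfl, fun u v h => h, fun p => ⟨p, rfl⟩, by simp⟩

/-- copies in the amalgam -/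
def Kp {V T X' Y' Q : Type} (A : Amal V T X' Y' Q) (K : Set (X ⊕ Y → V)) :
    Set (X ⊕ Y → A.Vert) := {κ | ∃ q, ∃ κ₀ ∈ K, κ = fun z => A.map q (κ₀ z)}

theorem inv_step (I : X → Y → Prop) {R r : ℕ} {V X' Y' Q : Type}
    (A : Amal V (Fin R ⊕ Fin R) X' Y' Q) (K : Set (X ⊕ Y → V)) (hV : Inv I A.π A.G K)
    (hs : A.s.isLeft = true) (ht : A.t.isLeft = false)
    (P : PLFlag (fun (x : {v : V // A.π v = A.s}) (y : {v : V // A.π v = A.t}) => A.G.Adj x.1 y.1)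
      r X' Y' Q A.I' A.φ A.ψ) : Inv I A.proj A.graph (Kp A K) where
  bip := fun u v h => bip_amal A hs ht hV.bip h
  c4 := c4_amal A hs ht hV.bip hV.c4 P
  kl := by
    rintro κ ⟨q, κ₀, hκ, rfl⟩ x
    simp only [A.proj_map]
    exact hV.kl κ₀ hκ x
  kr := by
    rintro κ ⟨q, κ₀, hκ, rfl⟩ x
    simp only [A.proj_map]
    exact hV.kr κ₀ hκ x
  kinj := by
    rintro κ ⟨q, κ₀, hκ, rfl⟩ z₁ z₂ h
    simp only [A.proj_map] at h
    exact hV.kinj κ₀ hκ z₁ z₂ h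
  kadj := by
    rintro κ ⟨q, κ₀, hκ, rfl⟩ x y
    simp only [A.adj_map]
    exact hV.kadj κ₀ hκ x y
  int := by
    rintro κ ⟨q, κ₀, hκ, rfl⟩ κ' ⟨q', κ₁, hκ', rfl⟩ hne z₁ z₂ z₁' z₂' h1 h2 h3
    simp only [A.proj_map] at h3
    simp only at h1 h2
    by_cases hq : q = q'
    · subst hq
      have hne' : κ₀ ≠ κ₁ := by
        rintro rfl
        exact hne rfl
      exact hV.int κ₀ hκ κ₁ hκ' hne' z₁ z₂ z₁' z₂' (A.map_inj q h1) (A.map_inj q h2) h3
    · apply hV.kinj κ₀ hκ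
      rw [shared_part A hs ht hq h1, shared_part A hs ht hq h2, h3]
  out := by
    rintro κ ⟨q, κ₀, hκ, rfl⟩ v hv z₁ z₂ h1 h2
    simp only at hv h1 h2
    have side : (A.π (κ₀ z₁)).isLeft = (A.π (κ₀ z₂)).isLeft := by
      have b1 := bip_amal A hs ht hV.bip h1
      have b2 := bip_amal A hs ht hV.bip h2
      rw [A.proj_map] at b1 b2
      cases hh : (A.proj v).isLeft <;> rw [hh] at b1 b2
      · have e1 : (A.π (κ₀ z₁)).isLeft = true := by simpa using b1.symm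
        have e2 : (A.π (κ₀ z₂)).isLeft = true := by simpa using b2.symm
        rw [e1, e2]
      · have e1 : (A.π (κ₀ z₁)).isLeft = false := by simpa using b1.symm
        have e2 : (A.π (κ₀ z₂)).isLeft = false := by simpa using b2.symm
        rw [e1, e2]
    by_cases hin : ∃ w, A.map q w = v
    · obtain ⟨w, rfl⟩ := hin
      rw [A.adj_map] at h1 h2
      exact hV.out κ₀ hκ w (fun z hz => hv z (by rw [hz])) z₁ z₂ h1 h2
    · -- the neighbours of `v` in the copy `q` are in `X'` or `Y'`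
      have part : ∀ u, A.graph.Adj v (A.map q u) → A.π u = if (A.π u).isLeft = true then A.s else A.t := by
        intro u hu
        by_cases hus : A.π u = A.s
        · rw [hus, hs]; simp
        · by_cases hut : A.π u = A.t
          · rw [hut, ht]; simp
          · exfalso
            rw [A.map_o q u hus hut] at hu
            obtain ⟨w, -, hw⟩ := A.adj_inr hu.symm
            exact hin ⟨w, hw⟩
      apply hV.kinj κ₀ hκ
      rw [part _ h1, part _ h2, side]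

theorem ram_step (I : X → Y → Prop) {R r : ℕ} {V X' Y' Q : Type}
    (A : Amal V (Fin R ⊕ Fin R) X' Y' Q) (K : Set (X ⊕ Y → V)) (D : Finset (Fin R × Fin R))
    (hD : Ram I r A.π A.G K D) (ab : Fin R × Fin R)
    (hs : A.s = Sum.inl ab.1) (ht : A.t = Sum.inr ab.2)
    (P : PLFlag (fun (x : {v : V // A.π v = A.s}) (y : {v : V // A.π v = A.t}) => A.G.Adj x.1 y.1)
      r X' Y' Q A.I' A.φ A.ψ) [DecidableEq (Fin R × Fin R)] :
    Ram I r A.proj A.graph (Kp A K) (insert ab D) := by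
  intro c
  obtain ⟨q, k, hk⟩ := P.ramsey (fun x y => c (A.vx x) (A.vy y))
  obtain ⟨Φ, h1, h2, h3, h4⟩ := hD (fun u v => c (A.map q u) (A.map q v))
  refine ⟨fun u => A.map q (Φ u), fun u => by rw [A.proj_map, h1], fun u v huv => ?_,
    fun p => ⟨q, _, h3 p, rfl⟩, ?_⟩
  · rw [A.adj_map]
    exact h2 u v huv
  · intro ab' hab'
    rcases Finset.mem_insert.1 hab' with rfl | hab'
    · refine ⟨k, fun u v huv hu hv => ?_⟩
      have pu : A.π (Φ u) = A.s := by rw [h1, hu, hs]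
      have pv : A.π (Φ v) = A.t := by rw [h1, hv, ht]
      have := hk ⟨Φ u, pu⟩ ⟨Φ v, pv⟩ (h2 u v huv)
      change c (A.map q (Φ u)) (A.map q (Φ v)) = k
      rw [A.map_s q _ pu, A.map_t q _ pv]
      exact this
    · exact h4 ab' hab'

theorem exists_construction (r : ℕ) (hr : 0 < r) [Finite X] [Finite Y] (I : X → Y → Prop)
    (hI : C4Free I) (R : ℕ) (D : Finset (Fin R × Fin R)) :
    ∃ (V : Type) (_ : Finite V) (π : V → Fin R ⊕ Fin R) (G : SimpleGraph V)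
      (K : Set (X ⊕ Y → V)), Inv I π G K ∧ Ram I r π G K D := by
  classical
  induction D using Finset.induction_on with
  | empty =>
    exact ⟨V0 X Y R, inferInstance, pi0, G0 I R, _, inv0 I hI R, ram0 I r R⟩
  | insert ab D _ ih =>
    obtain ⟨V, hfin, π, G, K, hinv, hram⟩ := ih
    have hc : C4Free (fun (x : {v : V // π v = Sum.inl ab.1}) (y : {v : V // π v = Sum.inr ab.2}) =>
        G.Adj x.1 y.1) := by
      intro x₁ x₂ y₁ y₂ hx hy h11 h12 h21 h22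
      exact hinv.c4 _ _ _ _ (fun h => hx (Subtype.ext h)) (fun h => hy (Subtype.ext h)) h11 h12 h21
        h22
    obtain ⟨X', Y', Q, fX, fY, fQ, I', φ, ψ, P⟩ := flag_lemma r hr _ hc
    let A : Amal V (Fin R ⊕ Fin R) X' Y' Q :=
      { π := π
        G := G
        s := Sum.inl ab.1
        t := Sum.inr ab.2
        hst := by simp
        hG := fun u v h he => hinv.bip u v h (by rw [he])
        I' := I'
        φ := φ
        ψ := ψ
        injφ := P.injφ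
        injψ := P.injψ
        ind := P.ind }
    refine ⟨A.Vert, inferInstance, A.proj, A.graph, Kp A K, ?_, ?_⟩
    · exact inv_step I A K hinv rfl rfl P
    · exact ram_step I A K D hram ab rfl rfl P

/-- rectangle version of Ramsey's theorem -/
theorem rect_ramsey (r : ℕ) (hr : 0 < r) (X Y : Type) [Finite X] [Finite Y] :
    ∃ R : ℕ, ∀ χ : Fin R → Fin R → Fin r, ∃ (α : X ↪ Fin R) (β : Y ↪ Fin R) (k : Fin r),
      ∀ x y, χ (α x) (β y) = k := by
  classical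
  have := Fintype.ofFinite X
  have := Fintype.ofFinite Y
  obtain ⟨R, hR⟩ := ramsey_pairs r (Fintype.card X + Fintype.card Y) hr
  refine ⟨R, fun χ => ?_⟩
  obtain ⟨σ, k, hσ, hk⟩ := hR χ
  let eX := Fintype.equivFin X
  let eY := Fintype.equivFin Y
  refine ⟨⟨fun x => σ (Fin.castAdd _ (eX x)), ?_⟩, ⟨fun y => σ (Fin.natAdd _ (eY y)), ?_⟩, k, ?_⟩
  · intro x x' h
    exact eX.injective (Fin.castAdd_injective _ _ (hσ.injective h))
  · intro y y' h
    exact eY.injective (Fin.natAdd_injective _ _ (hσ.injective h))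
  · intro x y
    apply hk
    rw [Fin.lt_def]
    simp only [Fin.val_castAdd, Fin.val_natAdd]
    have := (eX x).2
    omega

end construction

end StarC

open StarC in
/-- Second partite lemma (partite construction over `K_{R,R}` with the first partite lemma). -/
theorem star_lemma (r : ℕ) (hr : 0 < r) {X Y : Type} [Finite X] [Finite Y] (I : X → Y → Prop)
    (hI : C4Free I) :
    ∃ (X' Y' Q : Type) (_ : Finite X') (_ : Finite Y') (_ : Finite Q) (I' : X' → Y' → Prop)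
      (φ : Q → X → X') (ψ : Q → Y → Y'), PLStar I r X' Y' Q I' φ ψ := by
  classical
  obtain ⟨R, hR⟩ := rect_ramsey r hr X Y
  obtain ⟨V, hfin, π, G, K, hinv, hram⟩ := exists_construction r hr I hI R Finset.univ
  refine ⟨{v : V // (π v).isLeft = true}, {v : V // (π v).isLeft = false}, K, inferInstance,
    inferInstance, inferInstance, fun x y => G.Adj x.1 y.1,
    fun κ x => ⟨κ.1 (Sum.inl x), hinv.kl κ.1 κ.2 x⟩, fun κ y => ⟨κ.1 (Sum.inr y), hinv.kr κ.1 κ.2 y⟩,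
    ?_⟩
  constructor
  · intro x₁ x₂ y₁ y₂ hx hy h11 h12 h21 h22
    exact hinv.c4 _ _ _ _ (fun h => hx (Subtype.ext h)) (fun h => hy (Subtype.ext h)) h11 h12 h21 h22
  · intro κ x x' h
    have h' : κ.1 (Sum.inl x) = κ.1 (Sum.inl x') := congrArg Subtype.val h
    exact Sum.inl.inj (hinv.kinj κ.1 κ.2 _ _ (by rw [h']))
  · intro κ y y' h
    have h' : κ.1 (Sum.inr y) = κ.1 (Sum.inr y') := congrArg Subtype.val h
    exact Sum.inr.inj (hinv.kinj κ.1 κ.2 _ _ (by rw [h']))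
  · intro κ x y
    exact hinv.kadj κ.1 κ.2 x y
  · intro c
    let c' : V → V → Fin r := fun u v =>
      if h : (π u).isLeft = true ∧ (π v).isLeft = false then c ⟨u, h.1⟩ ⟨v, h.2⟩ else ⟨0, hr⟩
    obtain ⟨Φ, h1, h2, h3, h4⟩ := hram c'
    choose g hg using fun ab : Fin R × Fin R => h4 ab (Finset.mem_univ ab)
    obtain ⟨α, β, k, hk⟩ := hR (fun a b => g (a, b))
    refine ⟨⟨_, h3 (α, β)⟩, k, fun x y hxy => ?_⟩
    have hadj : (G0 I R).Adj ((α, β), Sum.inl x) ((α, β), Sum.inr y) :=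
      ⟨rfl, Or.inl ⟨x, y, rfl, rfl, hxy⟩⟩
    have := hg (α x, β y) ((α, β), Sum.inl x) ((α, β), Sum.inr y) hadj rfl rfl
    have e : c' (Φ ((α, β), Sum.inl x)) (Φ ((α, β), Sum.inr y)) =
        c ⟨Φ ((α, β), Sum.inl x), by rw [h1]; rfl⟩ ⟨Φ ((α, β), Sum.inr y), by rw [h1]; rfl⟩ := by
      simp only [c']
      rw [dif_pos ⟨by rw [h1]; rfl, by rw [h1]; rfl⟩]
    simp only
    rw [← e, this]
    exact hk x y
  · intro κ κ' x₁ x₂ x₁' x₂' hne h1 h2
    have hne' : κ.1 ≠ κ'.1 := fun h => hne (Subtype.ext h)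
    exact Sum.inl.inj (hinv.int κ.1 κ.2 κ'.1 κ'.2 hne' (Sum.inl x₁) (Sum.inl x₂) (Sum.inl x₁')
      (Sum.inl x₂') (congrArg Subtype.val h1) (congrArg Subtype.val h2)
      (by rw [hinv.kl κ.1 κ.2, hinv.kl κ.1 κ.2]))
  · intro κ κ' y₁ y₂ y₁' y₂' hne h1 h2
    have hne' : κ.1 ≠ κ'.1 := fun h => hne (Subtype.ext h)
    exact Sum.inr.inj (hinv.int κ.1 κ.2 κ'.1 κ'.2 hne' (Sum.inr y₁) (Sum.inr y₂) (Sum.inr y₁')
      (Sum.inr y₂') (congrArg Subtype.val h1) (congrArg Subtype.val h2)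
      (by rw [hinv.kr κ.1 κ.2, hinv.kr κ.1 κ.2]))
  · intro κ x' y₁ y₂ hx h1 h2
    refine Sum.inr.inj (hinv.out κ.1 κ.2 x'.1 ?_ (Sum.inr y₁) (Sum.inr y₂) h1 h2)
    rintro (z | z) hz
    · exact hx z (Subtype.ext hz)
    · have := hinv.kr κ.1 κ.2 z
      rw [hz, x'.2] at this
      exact absurd this (by simp)
  · intro κ y' x₁ x₂ hy h1 h2
    refine Sum.inl.inj (hinv.out κ.1 κ.2 y'.1 ?_ (Sum.inl x₁) (Sum.inl x₂) h1.symm h2.symm)
    rintro (z | z) hz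
    · have := hinv.kl κ.1 κ.2 z
      rw [hz, y'.2] at this
      exact absurd this (by simp)
    · exact hy z (Subtype.ext hz)

end Pool.Agent.PUG
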