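import Pool.Agent.PUG.Defs

set_option autoImplicit false

namespace Pool.Agent.PUG

/-- disjoint union of graphs -/
def sigmaGraph {J : Type} {V : J → Type} (B : ∀ j, SimpleGraph (V j)) : SimpleGraph (Σ j, V j) where
  Adj x y := ∃ (j : J) (v w : V j), (B j).Adj v w ∧ x = ⟨j, v⟩ ∧ y = ⟨j, w⟩
  symm := ⟨by
    rintro x y ⟨j, v, w, h, hx, hy⟩
    exact ⟨j, w, v, h.symm, hy, hx⟩⟩
  loopless := ⟨by
    rintro x ⟨j, v, w, h, hx, hy⟩
    rw [hx] at hy
    have := eq_of_heq (Sigma.mk.inj hy).2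
    exact h.ne this⟩

theorem sigmaGraph_adj {J : Type} {V : J → Type} (B : ∀ j, SimpleGraph (V j)) (j : J) (v w : V j) :
    (sigmaGraph B).Adj ⟨j, v⟩ ⟨j, w⟩ ↔ (B j).Adj v w := by
  constructor
  · rintro ⟨j', v', w', h, hx, hy⟩
    obtain ⟨rfl, hv⟩ := Sigma.mk.inj hx
    have hw := (Sigma.mk.inj hy).2
    rw [eq_of_heq hv, eq_of_heq hw]
    exact h
  · intro h
    exact ⟨j, v, w, h, rfl, rfl⟩

theorem sigmaGraph_fst {J : Type} {V : J → Type} {B : ∀ j, SimpleGraph (V j)} {x y : Σ j, V j}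
    (h : (sigmaGraph B).Adj x y) : x.1 = y.1 := by
  obtain ⟨j, v, w, -, rfl, rfl⟩ := h
  rfl

theorem sigmaGraph_k33 {J : Type} {V : J → Type} (B : ∀ j, SimpleGraph (V j))
    (hB : ∀ j, K33Free (B j)) : K33Free (sigmaGraph B) := by
  intro a a' ha ha' hadj
  have h1 : ∀ i, (a i).1 = (a 0).1 := fun i =>
    (sigmaGraph_fst (hadj i 0)).trans (sigmaGraph_fst (hadj 0 0)).symm
  have h1' : ∀ i, (a' i).1 = (a 0).1 := fun i => (sigmaGraph_fst (hadj 0 i)).symm
  set j := (a 0).1 with hj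
  have h2 : ∀ i, ∃ v : V j, a i = ⟨j, v⟩ := by
    intro i
    rcases hai : a i with ⟨j', v⟩
    have := h1 i
    rw [hai] at this
    simp only at this
    subst this
    exact ⟨v, rfl⟩
  have h2' : ∀ i, ∃ v : V j, a' i = ⟨j, v⟩ := by
    intro i
    rcases hai : a' i with ⟨j', v⟩
    have := h1' i
    rw [hai] at this
    simp only at this
    subst this
    exact ⟨v, rfl⟩
  choose v hv using h2
  choose v' hv' using h2'
  apply hB j v v'
  · intro i i' h
    apply ha
    rw [hv i, hv i', h]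
  · intro i i' h
    apply ha'
    rw [hv' i, hv' i', h]
  · intro i i'
    have := hadj i i'
    rw [hv i, hv' i', sigmaGraph_adj] at this
    exact this

/-- transport to `Fin b` -/
theorem sum_blocks {J : ℕ} (bb : Fin J → ℕ) (Bj : ∀ j, SimpleGraph (Fin (bb j)))
    (hB : ∀ j, K33Free (Bj j)) :
    ∃ (b : ℕ) (B : SimpleGraph (Fin b)) (ι : ∀ j, Fin (bb j) → Fin b), K33Free B ∧
      (∀ j, Function.Injective (ι j)) ∧ ∀ j v w, (Bj j).Adj v w → B.Adj (ι j v) (ι j w) := by
  let e := Fintype.equivFin (Σ j, Fin (bb j))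
  refine ⟨Fintype.card (Σ j, Fin (bb j)), (sigmaGraph Bj).comap e.symm, fun j v => e ⟨j, v⟩, ?_, ?_, ?_⟩
  · intro a a' ha ha' hadj
    apply sigmaGraph_k33 Bj hB (fun i => e.symm (a i)) (fun i => e.symm (a' i))
    · exact e.symm.injective.comp ha
    · exact e.symm.injective.comp ha'
    · intro i i'
      exact hadj i i'
  · intro j v w h
    have := e.injective h
    exact eq_of_heq (Sigma.mk.inj this).2
  · intro j v w h
    simp only [SimpleGraph.comap_adj, Equiv.symm_apply_apply]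
    exact (sigmaGraph_adj Bj j v w).2 h

/-- many disjoint subsets of a given size -/
theorem exists_disjoint_subsets {V κ : Type} [DecidableEq V] [Fintype κ] (A : Finset V) (w : ℕ)
    (h : Fintype.card κ * w ≤ A.card) :
    ∃ W : κ → Finset V, (∀ a, W a ⊆ A) ∧ (∀ a, (W a).card = w) ∧
      ∀ a a', a ≠ a' → Disjoint (W a) (W a') := by
  have h1 : Fintype.card (κ × Fin w) ≤ Fintype.card A := by
    simpa using h
  obtain ⟨g⟩ := Function.Embedding.nonempty_of_card_le h1
  refine ⟨fun a => Finset.univ.image (fun i : Fin w => (g (a, i) : V)), ?_, ?_, ?_⟩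
  · intro a x hx
    rw [Finset.mem_image] at hx
    obtain ⟨i, -, rfl⟩ := hx
    exact (g (a, i)).2
  · intro a
    rw [Finset.card_image_of_injective, Finset.card_univ, Fintype.card_fin]
    intro i i' hi
    have := g.injective (Subtype.ext hi)
    exact (Prod.mk.inj this).2
  · intro a a' haa
    rw [Finset.disjoint_left]
    intro x hx hx'
    rw [Finset.mem_image] at hx hx'
    obtain ⟨i, -, rfl⟩ := hx
    obtain ⟨i', -, hi'⟩ := hx'
    have := g.injective (Subtype.ext hi')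
    exact haa (Prod.mk.inj this).1.symm

end Pool.Agent.PUG
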