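import Pool.Agent.PUG.SUM
import Pool.Agent.PUG.LEV
import Pool.Agent.PUG.CYC
import Pool.Agent.PUG.MRK

set_option autoImplicit false

namespace Pool.Agent.PUG

open Classical in
/-- number of darts of good blocks from `x` to `y`, counted if the pair has colour `i` -/
noncomputable def wt {V κ : Type} [Fintype κ] {b r : ℕ} (B : SimpleGraph (Fin b)) (f : κ → Fin b → V)
    (𝒢 : Finset κ) (χ : Sym2 V → Fin r) (i : Fin r) (x y : V) : ℕ :=
  if χ s(x, y) = i then
    (Finset.univ.filter (fun p : κ × Fin b × Fin b =>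
      p.1 ∈ 𝒢 ∧ B.Adj p.2.1 p.2.2 ∧ f p.1 p.2.1 = x ∧ f p.1 p.2.2 = y)).card
  else 0

section

variable {V κ : Type} [Fintype κ] {b r : ℕ} (B : SimpleGraph (Fin b)) (f : κ → Fin b → V)
    (𝒢 : Finset κ) (χ : Sym2 V → Fin r)

theorem wt_symm (i : Fin r) (x y : V) : wt B f 𝒢 χ i x y = wt B f 𝒢 χ i y x := by
  classical
  unfold wt
  rw [Sym2.eq_swap]
  by_cases h : χ s(y, x) = i
  · rw [if_pos h, if_pos h]
    refine Finset.card_bij' (fun p _ => (p.1, p.2.2, p.2.1)) (fun p _ => (p.1, p.2.2, p.2.1))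
      ?_ ?_ ?_ ?_
    · intro p hp
      simp only [Finset.mem_filter, Finset.mem_univ, true_and] at hp ⊢
      exact ⟨hp.1, hp.2.1.symm, hp.2.2.2, hp.2.2.1⟩
    · intro p hp
      simp only [Finset.mem_filter, Finset.mem_univ, true_and] at hp ⊢
      exact ⟨hp.1, hp.2.1.symm, hp.2.2.2, hp.2.2.1⟩
    · intro p _; rfl
    · intro p _; rfl
  · rw [if_neg h, if_neg h]

theorem wt_pos {i : Fin r} {x y : V} (h : 0 < wt B f 𝒢 χ i x y) :
    χ s(x, y) = i ∧ ∃ k ∈ 𝒢, ∃ v w, B.Adj v w ∧ f k v = x ∧ f k w = y := by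
  classical
  unfold wt at h
  by_cases hc : χ s(x, y) = i
  · rw [if_pos hc, Finset.card_pos] at h
    obtain ⟨p, hp⟩ := h
    simp only [Finset.mem_filter, Finset.mem_univ, true_and] at hp
    exact ⟨hc, p.1, hp.1, p.2.1, p.2.2, hp.2.1, hp.2.2.1, hp.2.2.2⟩
  · rw [if_neg hc] at h
    exact absurd h (lt_irrefl 0)

theorem wt_adj (hinj : ∀ k ∈ 𝒢, Function.Injective (f k)) {i : Fin r} {x y : V}
    (h : 0 < wt B f 𝒢 χ i x y) : (blockGraph B f (𝒢 : Set κ)).Adj x y ∧ χ s(x, y) = i := by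
  obtain ⟨hc, k, hk, v, w, hvw, hx, hy⟩ := wt_pos B f 𝒢 χ h
  refine ⟨⟨?_, k, hk, v, w, hvw, hx, hy⟩, hc⟩
  intro hxy
  apply hvw.ne
  apply hinj k hk
  rw [hx, hy, hxy]

open Classical in
theorem ew_wt_le (i : Fin r) (A C : Finset V) :
    ew (wt B f 𝒢 χ i) A C ≤ (Finset.univ.filter (fun p : κ × Fin b × Fin b =>
      B.Adj p.2.1 p.2.2 ∧ f p.1 p.2.1 ∈ A ∧ f p.1 p.2.2 ∈ C)).card := by
  rw [Finset.card_eq_sum_card_fiberwise (f := fun p : κ × Fin b × Fin b => (f p.1 p.2.1, f p.1 p.2.2))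
    (t := A ×ˢ C)]
  · rw [Finset.sum_product]
    unfold ew
    apply Finset.sum_le_sum
    intro x hx
    apply Finset.sum_le_sum
    intro y hy
    unfold wt
    split_ifs
    · apply Finset.card_le_card
      intro p hp
      simp only [Finset.mem_filter, Finset.mem_univ, true_and] at hp ⊢
      obtain ⟨-, h2, h3, h4⟩ := hp
      refine ⟨⟨h2, ?_, ?_⟩, ?_⟩
      · rw [h3]; exact hx
      · rw [h4]; exact hy
      · rw [h3, h4]
    · exact Nat.zero_le _
  · intro p hp
    simp only [Finset.coe_filter, Finset.mem_univ, true_and, Set.mem_ofPred_eq] at hp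
    simp only [Finset.coe_product, Set.mem_prod, Finset.mem_coe]
    exact ⟨hp.2.1, hp.2.2⟩

open Classical in
theorem card_le_ew (i : Fin r) (X : Fin b → Finset V) (v w : Fin b) :
    (𝒢.filter (fun k => (∀ u, f k u ∈ X u) ∧ B.Adj v w ∧ χ s(f k v, f k w) = i)).card
      ≤ ew (wt B f 𝒢 χ i) (X v) (X w) := by
  rw [Finset.card_eq_sum_card_fiberwise (f := fun k : κ => (f k v, f k w)) (t := X v ×ˢ X w)]
  · rw [Finset.sum_product]
    unfold ew
    apply Finset.sum_le_sum
    intro x hx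
    apply Finset.sum_le_sum
    intro y hy
    unfold wt
    by_cases hc : χ s(x, y) = i
    · rw [if_pos hc]
      apply Finset.card_le_card_of_injOn (fun k => (k, v, w))
      · intro k hk
        simp only [Finset.coe_filter, Finset.mem_filter, Prod.mk.injEq, Set.mem_ofPred_eq,
          Finset.mem_univ, true_and] at hk ⊢
        exact ⟨hk.1.1, hk.1.2.2.1, hk.2.1, hk.2.2⟩
      · intro k _ k' _ h
        exact (Prod.mk.inj h).1
    · rw [if_neg hc]
      rw [Nat.le_zero, Finset.card_eq_zero, Finset.filter_eq_empty_iff]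
      intro k hk h
      simp only [Finset.mem_filter, Prod.mk.injEq] at hk h
      apply hc
      rw [← h.1, ← h.2]
      exact hk.2.2.2
  · intro k hk
    simp only [Finset.coe_filter, Set.mem_ofPred_eq] at hk
    simp only [Finset.coe_product, Set.mem_prod, Finset.mem_coe]
    exact ⟨hk.2.1 v, hk.2.1 w⟩

theorem ew_symm (ν : V → V → ℕ) (hν : ∀ x y, ν x y = ν y x) (A C : Finset V) :
    ew ν A C = ew ν C A := by
  unfold ew
  rw [Finset.sum_comm]
  apply Finset.sum_congr rfl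
  intro x _
  apply Finset.sum_congr rfl
  intro y _
  exact hν y x

end

end Pool.Agent.PUG
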